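import Pool.Agent.Lib.MP_305fdd_al.F2.RF.Stm

set_option autoImplicit false

namespace Pool.Agent.F2RF

open Polynomial Pool.Agent.F2Ch

private lemma w7_coord {p : ℕ} [Fact p.Prime] {K : Type} [Field K] (x : K) (hx : x ≠ 0)
    (a b : Fin p) :
    (x ^ (b : ℕ))⁻¹ * x ^ (a : ℕ) =
      (if b ≤ a then (1 : K) else x⁻¹) ^ p * x ^ ((a - b : Fin p) : ℕ) := by
  by_cases h : b ≤ a
  · rw [if_pos h, one_pow, one_mul, Fin.coe_sub_iff_le.2 h, pow_sub₀ x hx (by exact h), mul_comm]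
  · have h' : a < b := not_le.1 h
    have hb : (b : ℕ) ≤ p + a := by have := b.isLt; omega
    rw [if_neg h, Fin.coe_sub_iff_lt.2 h', pow_sub₀ x hx hb, pow_add, inv_pow]
    have h1 := pow_ne_zero p hx
    have h2 := pow_ne_zero (b : ℕ) hx
    field_simp

private lemma w7_lin {p : ℕ} [Fact p.Prime] {K : Type} [Field K] {d : ℕ} {t : Fin d → K}
    {π : (Fin d → Fin p) → K → K} (hM : MB p t π) (a : Fin d → Fin p) (c f : K) :
    π a (c ^ p * f) = c * π a f := by
  have h := hM.pb.uniq (fun e => c * π e f) a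
  have h2 : (∑ j, (c * π j f) ^ p * monY (p := p) t j) = c ^ p * f := by
    conv_rhs => rw [← hM.pb.repr f]
    rw [Finset.mul_sum]
    exact Finset.sum_congr rfl fun j _ => by rw [mul_pow, mul_assoc]
  rw [h2] at h
  exact h

private lemma w7_a {p : ℕ} [Fact p.Prime] {K : Type} [Field K] {d : ℕ} {t : Fin d → K}
    {π : (Fin d → Fin p) → K → K} (hM : MB p t π) (b : Fin d → Fin p) (f : K) :
    π b f = π j0 ((monY (p := p) t b)⁻¹ * f) := by
  classical
  have hmon : ∀ a : Fin d → Fin p, (monY (p := p) t b)⁻¹ * monY (p := p) t a =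
      (∏ i, (if b i ≤ a i then (1 : K) else (t i)⁻¹)) ^ p * monY (p := p) t (a - b) := by
    intro a
    unfold monY
    rw [← Finset.prod_inv_distrib, ← Finset.prod_mul_distrib, ← Finset.prod_pow,
      ← Finset.prod_mul_distrib]
    exact Finset.prod_congr rfl fun i _ => w7_coord (t i) (hM.ne i) (a i) (b i)
  have h1 : (monY (p := p) t b)⁻¹ * f =
      ∑ e : Fin d → Fin p, (π (e + b) f * ∏ i, (if b i ≤ (e + b) i then (1 : K) else (t i)⁻¹)) ^ p *
        monY (p := p) t e := by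
    conv_lhs => rw [← hM.pb.repr f]
    rw [Finset.mul_sum, ← Equiv.sum_comp (Equiv.addRight b)]
    refine Finset.sum_congr rfl fun e _ => ?_
    have h2 := hmon (e + b)
    rw [add_sub_cancel_right] at h2
    show (monY (p := p) t b)⁻¹ * (π (e + b) f ^ p * monY (p := p) t (e + b)) = _
    rw [mul_left_comm, h2, mul_pow, mul_assoc]
  rw [h1, hM.pb.uniq (fun e => π (e + b) f *
    ∏ i, (if b i ≤ (e + b) i then (1 : K) else (t i)⁻¹)) j0]
  have h0 : (j0 : Fin d → Fin p) + b = b := by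
    funext i
    show (j0 : Fin d → Fin p) i + b i = b i
    have : (j0 : Fin d → Fin p) i = 0 := rfl
    rw [this, zero_add]
  rw [h0, Finset.prod_eq_one, mul_one]
  intro i _
  rw [if_pos le_rfl]

/-- [F2RF W7] -/
theorem p_W7 : S_W7 := by
  classical
  intro p _ K _ _ d t π hM
  have hP : (∏ i, t i) ≠ 0 := Finset.prod_ne_zero_iff.2 fun i _ => hM.ne i
  have hB : ∀ b : Fin d → Fin p, (∀ i, (b i : ℕ) = p - 1) → ∀ f,
      π b f = (∏ i, t i)⁻¹ * π j0 ((∏ i, t i) * f) := by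
    intro b hb f
    rw [w7_a hM b f]
    have hm : monY (p := p) t b = (∏ i, t i) ^ (p - 1) := by
      unfold monY
      rw [← Finset.prod_pow]
      exact Finset.prod_congr rfl fun i _ => by rw [hb i]
    have hp : 1 ≤ p := (Fact.out : p.Prime).one_le
    have hinv : (monY (p := p) t b)⁻¹ * f = ((∏ i, t i)⁻¹) ^ p * ((∏ i, t i) * f) := by
      rw [hm, pow_sub₀ _ hP hp, pow_one, mul_inv, inv_inv, inv_pow, mul_assoc]
    rw [hinv, w7_lin hM]
  refine ⟨w7_a hM, hB, ?_⟩
  intro φ g b hg hb hφ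
  refine ⟨d, t, π, (∏ i, t i) * g, hM, mul_ne_zero hP hg, ?_⟩
  intro f
  rw [hφ f, hB b hb, mul_inv, ← mul_assoc, mul_assoc _ g f, mul_comm g⁻¹]

end Pool.Agent.F2RF
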