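import Pool.Agent.Lib.MP_305fdd_al.F2.RF.Stm

set_option autoImplicit false

namespace Pool.Agent.F2RF

open Polynomial Pool.Agent.F2Ch

private lemma u0_fin (F L : Type) [Field F] [Field L] [Algebra F L] (n : ℕ) (t : Fin n → L)
    (ht : FracGen F t) (htr : Algebra.trdeg F L = 1) (x : L) (hx : Transcendental F x) :
    FiniteDimensional (IntermediateField.adjoin F {x}) L := by
  have hA : AlgebraicIndependent F ![x] := algebraicIndependent_iff_transcendental.2 hx
  have hB : IsTranscendenceBasis F ![x] := by
    apply hA.isTranscendenceBasis_of_trdeg_le_of_finite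
    rw [htr]
    simp
  have hC := hB.isAlgebraic_field
  have hr : Set.range ![x] = {x} := by simp
  rw [hr] at hC
  have hfd : FiniteDimensional (IntermediateField.adjoin F {x})
      (IntermediateField.adjoin (IntermediateField.adjoin F {x}) (Set.range t)) :=
    IntermediateField.finiteDimensional_adjoin (fun z _ => (hC.isAlgebraic z).isIntegral)
  have htop : IntermediateField.adjoin (IntermediateField.adjoin F {x}) (Set.range t) = ⊤ := by
    rw [eq_top_iff]
    intro z _
    obtain ⟨a, b, hb, hab⟩ := ht z
    have hmem : ∀ q : MvPolynomial (Fin n) F, MvPolynomial.aeval t q ∈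
        IntermediateField.adjoin (IntermediateField.adjoin F {x}) (Set.range t) := by
      intro q
      induction q using MvPolynomial.induction_on with
      | C a =>
        rw [MvPolynomial.aeval_C, IsScalarTower.algebraMap_apply F
          (IntermediateField.adjoin F {x}) L]
        exact IntermediateField.algebraMap_mem _ _
      | add p q hp hq =>
        rw [map_add]
        exact add_mem hp hq
      | mul_X p i hp =>
        rw [map_mul, MvPolynomial.aeval_X]
        exact mul_mem hp (IntermediateField.subset_adjoin _ _ ⟨i, rfl⟩)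
    have hz : z = MvPolynomial.aeval t a / MvPolynomial.aeval t b := by
      rw [eq_div_iff hb]
      exact hab
    rw [hz]
    exact div_mem (hmem a) (hmem b)
  rw [htop] at hfd
  exact Module.Finite.equiv (IntermediateField.topEquiv
    (F := IntermediateField.adjoin F {x}) (E := L)).toLinearEquiv

/-- [F2RF U0] -/
theorem p_U0 : S_U0 := by
  classical
  intro F L _ _ _ n t ht htr x hx
  have hfd := u0_fin F L n t ht htr x hx
  have hxm : ∀ P : F[X], aeval x P ∈ IntermediateField.adjoin F {x} := by
    intro P
    exact (IntermediateField.mem_adjoin_simple_iff F _).2 ⟨P, 1, by simp⟩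
  have hinj : ∀ P : F[X], aeval x P = 0 → P = 0 := by
    intro P hP
    exact (transcendental_iff.1 hx) P hP
  refine ⟨Module.finrank (IntermediateField.adjoin F {x}) L,
    ⟨Module.finBasis (IntermediateField.adjoin F {x}) L, ?_⟩, ?_⟩
  · intro P hP
    have hli := (Module.finBasis (IntermediateField.adjoin F {x}) L).linearIndependent
    rw [Fintype.linearIndependent_iff] at hli
    have h1 := hli (fun i => (⟨aeval x (P i), hxm (P i)⟩ : IntermediateField.adjoin F {x})) (by
      simpa [Algebra.smul_def] using hP)
    funext i
    exact hinj (P i) (congrArg Subtype.val (h1 i))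
  · intro b hb
    have hdep : ¬ LinearIndependent (IntermediateField.adjoin F {x}) b := by
      intro h
      have := h.fintype_card_le_finrank
      simp at this
    rw [Fintype.not_linearIndependent_iff] at hdep
    obtain ⟨g, hg, i0, hi0⟩ := hdep
    have hrs : ∀ i, ∃ r s : F[X], aeval x s ≠ 0 ∧ ((g i : IntermediateField.adjoin F {x}) : L) * aeval x s =
        aeval x r := by
      intro i
      obtain ⟨r, s, h⟩ := (IntermediateField.mem_adjoin_simple_iff F _).1 (g i).2
      by_cases hs : aeval x s = 0
      · refine ⟨0, 1, by simp, ?_⟩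
        rw [h, hs]
        simp
      · exact ⟨r, s, hs, by rw [h, div_mul_cancel₀ _ hs]⟩
    choose r s hs hrs using hrs
    have h1 := hb (fun i => r i * ∏ j ∈ Finset.univ.erase i, s j) (by
      have h2 : ∀ i, aeval x (r i * ∏ j ∈ Finset.univ.erase i, s j) * b i =
          (∏ j, aeval x (s j)) * ((g i : L) * b i) := by
        intro i
        rw [map_mul, map_prod, ← hrs i, ← Finset.mul_prod_erase Finset.univ _ (Finset.mem_univ i)]
        ring
      rw [Finset.sum_congr rfl (fun i _ => h2 i), ← Finset.mul_sum]
      have h3 : (∑ i, (g i : L) * b i) = 0 := by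
        simpa [Algebra.smul_def] using hg
      rw [h3, mul_zero])
    have h4 := congrFun h1 i0
    simp only [Pi.zero_apply] at h4
    have h5 : aeval x (r i0 * ∏ j ∈ Finset.univ.erase i0, s j) = 0 := by rw [h4, map_zero]
    rw [map_mul, map_prod, ← hrs i0, mul_eq_zero, mul_eq_zero, Finset.prod_eq_zero_iff] at h5
    rcases h5 with (h5 | h5) | ⟨j, _, h5⟩
    · exact hi0 (Subtype.ext h5)
    · exact hs i0 h5
    · exact hs j h5

end Pool.Agent.F2RF
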