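import Pool.Agent.Lib.MP_305fdd_al.F2.RF.Stm

/-!
# MP_305fdd_al, F_2 project, piece [F2RF U1]

Algebraic elements: linear independence over `F(x)` and vanishing of valuations.
-/

set_option autoImplicit false

namespace Pool.Agent.F2RF

open Polynomial Pool.Agent.F2Ch

private lemma u1_ind {F L : Type} [Field F] [Field L] [Algebra F L] (x : L)
    (hx : Transcendental F x) (n : ℕ) (a : Fin n → L) (ha : ∀ i, IsAlgebraic F (a i))
    (hli : LinearIndependent F a) : XInd F x a := by
  intro P hP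
  have hmem : ∀ i, a i ∈ algebraicClosure F L := fun i => mem_algebraicClosure_iff'.mpr (ha i).isIntegral
  have hxE : Transcendental (algebraicClosure F L) x := hx.extendScalars _
  have hQ : (∑ i, (P i).map (algebraMap F (algebraicClosure F L)) *
      C (⟨a i, hmem i⟩ : algebraicClosure F L)) = 0 := by
    apply transcendental_iff.mp hxE
    rw [map_sum, ← hP]
    refine Finset.sum_congr rfl fun i _ => ?_
    rw [map_mul, aeval_C, aeval_map_algebraMap]
    rfl
  funext i
  ext m
  have h1 := congrArg (fun q => ((q.coeff m : algebraicClosure F L) : L)) hQ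
  simp only [finsetSum_coeff, coeff_mul_C, coeff_map, coeff_zero] at h1
  have h2 : ∑ j, (P j).coeff m • a j = 0 := by
    rw [← ZeroMemClass.coe_zero (algebraicClosure F L), ← h1, AddSubmonoidClass.coe_finsetSum]
    refine Finset.sum_congr rfl fun j _ => ?_
    rw [MulMemClass.coe_mul, Algebra.smul_def]
    rfl
  exact Fintype.linearIndependent_iff.mp hli (fun j => (P j).coeff m) h2 i

section
variable {L Γ : Type} [Field L] [AddCommGroup Γ] [LinearOrder Γ] [IsOrderedAddMonoid Γ]

omit [IsOrderedAddMonoid Γ] in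
private lemma u1_gt_add {c : L → Γ} (hc : IsV c) {γ : Γ} {x y : L} (hx : Gt c γ x)
    (hy : Gt c γ y) : Gt c γ (x + y) := by
  by_cases h : x + y = 0
  · exact Or.inl h
  rcases hx with hx | hx
  · rw [hx, zero_add]; exact hy
  rcases hy with hy | hy
  · rw [hy, add_zero]; exact Or.inr hx
  by_cases hx0 : x = 0
  · rw [hx0, zero_add]; exact Or.inr hy
  by_cases hy0 : y = 0
  · rw [hy0, add_zero]; exact Or.inr hx
  exact Or.inr ((lt_min hx hy).trans_le (hc.add x y hx0 hy0 h))

omit [IsOrderedAddMonoid Γ] in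
private lemma u1_one {c : L → Γ} (hc : IsV c) : c 1 = 0 := by
  have h := hc.mul 1 1 one_ne_zero one_ne_zero
  rw [mul_one] at h
  exact left_eq_add.mp h

omit [IsOrderedAddMonoid Γ] in
private lemma u1_pow {c : L → Γ} (hc : IsV c) {a : L} (ha : a ≠ 0) (n : ℕ) :
    c (a ^ n) = n • c a := by
  induction n with
  | zero => rw [pow_zero, zero_smul, u1_one hc]
  | succ n ih => rw [pow_succ, hc.mul _ _ (pow_ne_zero _ ha) ha, ih, succ_nsmul]

private lemma u1_not_neg {F : Type} [Field F] [Algebra F L] {c : L → Γ} (hc : IsV c)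
    (ht : Triv F c) {a : L} (ha0 : a ≠ 0) (ha : IsAlgebraic F a) : ¬ c a < 0 := by
  intro hneg
  obtain ⟨P, hP, hPa⟩ := ha
  set n := P.natDegree with hn
  have hterm : ∀ i, P.coeff i ≠ 0 → P.coeff i • a ^ i ≠ 0 ∧ c (P.coeff i • a ^ i) = i • c a := by
    intro i hi
    have h1 : algebraMap F L (P.coeff i) ≠ 0 := by
      rwa [Ne, FaithfulSMul.algebraMap_eq_zero_iff]
    rw [Algebra.smul_def]
    refine ⟨mul_ne_zero h1 (pow_ne_zero _ ha0), ?_⟩
    rw [hc.mul _ _ h1 (pow_ne_zero _ ha0), ht, zero_add, u1_pow hc ha0]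
  have hsum : ∀ m, m ≤ n → Gt c (n • c a) (∑ i ∈ Finset.range m, P.coeff i • a ^ i) := by
    intro m
    induction m with
    | zero => intro _; exact Or.inl (by rw [Finset.sum_range_zero])
    | succ m ih =>
      intro hm
      rw [Finset.sum_range_succ]
      refine u1_gt_add hc (ih (by omega)) ?_
      by_cases h0 : P.coeff m = 0
      · exact Or.inl (by rw [h0, zero_smul])
      · right
        rw [(hterm m h0).2]
        obtain ⟨j, hj⟩ : ∃ j, n = m + (j + 1) := ⟨n - m - 1, by omega⟩
        rw [hj, add_smul]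
        have : (j + 1) • c a < 0 := nsmul_neg hneg (by omega)
        exact add_lt_of_neg_right _ this
  have hlead : P.coeff n ≠ 0 := by
    rw [hn, coeff_natDegree]
    exact leadingCoeff_ne_zero.mpr hP
  rw [aeval_eq_sum_range, Finset.sum_range_succ, ← hn] at hPa
  obtain ⟨h2, h3⟩ := hterm n hlead
  have h4 : ∑ i ∈ Finset.range n, P.coeff i • a ^ i = (algebraMap F L (-1)) * (P.coeff n • a ^ n) := by
    rw [map_neg, map_one, neg_one_mul]
    exact eq_neg_of_add_eq_zero_left hPa
  have h5 : (algebraMap F L (-1)) ≠ 0 := by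
    rw [map_neg, map_one]
    exact neg_ne_zero.mpr one_ne_zero
  rcases hsum n le_rfl with h6 | h6
  · rw [h4] at h6
    exact mul_ne_zero h5 h2 h6
  · rw [h4, hc.mul _ _ h5 h2, ht, zero_add, h3] at h6
    exact lt_irrefl _ h6

end

theorem p_U1 : S_U1 := by
  intro F L _ _ _
  refine ⟨fun x hx n a ha hli => u1_ind x hx n a ha hli, ?_⟩
  intro Γ _ _ _ c hc ht a ha
  by_cases ha0 : a = 0
  · rw [ha0, hc.zero]
  have h1 := u1_not_neg hc ht ha0 ha
  have h2 := u1_not_neg hc ht (inv_ne_zero ha0) ha.inv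
  have h3 : c a + c a⁻¹ = 0 := by
    rw [← hc.mul _ _ ha0 (inv_ne_zero ha0), mul_inv_cancel₀ ha0, u1_one hc]
  have h4 : c a⁻¹ = - c a := eq_neg_of_add_eq_zero_right h3
  rw [h4, neg_lt_zero] at h2
  exact le_antisymm (not_lt.mp h2) (not_lt.mp h1)

end Pool.Agent.F2RF
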