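import Pool.Agent.Lib.MP_305fdd_al.F2.RF.Stm

set_option autoImplicit false

namespace Pool.Agent.F2RF

open Polynomial Pool.Agent.F2Ch

private theorem u10_pow {L Γ : Type} [Field L] [AddCommGroup Γ] [LinearOrder Γ]
    [IsOrderedAddMonoid Γ] (A : Subring L) (Q : Set L) (c : L → Γ) (hc : IsV c)
    (hQ : ∀ a ∈ A, ∀ h ∈ Q, a * h ∈ Q) (a h : L) (ha : a ∈ A) (ha0 : a ≠ 0) (hh : h ∈ Q)
    (hh0 : h ≠ 0) (n : ℕ) :
    a ^ n * h ∈ Q ∧ a ^ n * h ≠ 0 ∧ c (a ^ n * h) = n • c a + c h := by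
  induction n with
  | zero => simp [hh, hh0]
  | succ n ih =>
    obtain ⟨h1, h2, h3⟩ := ih
    have e : a ^ (n + 1) * h = a * (a ^ n * h) := by ring
    rw [e]
    refine ⟨hQ a ha _ h1, mul_ne_zero ha0 h2, ?_⟩
    rw [hc.mul a _ ha0 h2, h3, succ_nsmul]
    abel

theorem p_U10 : S_U10 := by
  intro L Γ _ _ _ _ _ A Q c hc hQA hne hQ hneg
  obtain ⟨h, hh, hh0⟩ := hne
  refine ⟨?_, h, hQA h hh, hh0, hneg h hh hh0⟩
  intro a ha ha0
  by_contra hlt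
  rw [not_le] at hlt
  obtain ⟨n, hn⟩ := Archimedean.arch (-(c h)) hlt
  obtain ⟨h1, h2, h3⟩ := u10_pow A Q c hc hQ a h ha ha0 hh hh0 n
  have h4 := hneg _ h1 h2
  rw [h3] at h4
  have h5 : 0 ≤ n • c a + c h := by
    have := add_le_add_left hn (c h)
    simpa using this
  exact absurd h4 (not_lt.mpr h5)

end Pool.Agent.F2RF
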