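import Pool.Agent.Lib.MP_305fdd_al.F2.RF.Stm

set_option autoImplicit false

namespace Pool.Agent.F2RF

open Polynomial Pool.Agent.F2Ch

section
variable {L Γ : Type} [Field L] [AddCommGroup Γ] [LinearOrder Γ] [IsOrderedAddMonoid Γ] {c : L → Γ}

theorem u11_one (hc : IsV c) : c 1 = 0 := by
  have := hc.mul 1 1 one_ne_zero one_ne_zero
  rw [mul_one] at this
  simpa using this.symm

theorem u11_inv (hc : IsV c) {x : L} (hx : x ≠ 0) : c x⁻¹ = - c x := by
  have := hc.mul x x⁻¹ hx (inv_ne_zero hx)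
  rw [mul_inv_cancel₀ hx, u11_one hc] at this
  exact (neg_eq_of_add_eq_zero_right this.symm).symm

theorem u11_pow (hc : IsV c) {x : L} (hx : x ≠ 0) (n : ℕ) : c (x ^ n) = n • c x := by
  induction n with
  | zero => simp [u11_one hc]
  | succ n ih => rw [pow_succ, hc.mul _ _ (pow_ne_zero _ hx) hx, ih, succ_nsmul]

theorem u11_neg (hc : IsV c) (x : L) : c (-x) = c x := by
  rcases eq_or_ne x 0 with rfl | hx
  · simp
  have h1 : c (-1 : L) = 0 := by
    have := hc.mul (-1) (-1) (neg_ne_zero.2 one_ne_zero) (neg_ne_zero.2 one_ne_zero)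
    rw [neg_one_mul, neg_neg, u11_one hc] at this
    have h2 : 2 • c (-1 : L) = 0 := by rw [two_nsmul]; exact this.symm
    exact (smul_eq_zero.1 h2).resolve_left (by norm_num)
  rw [← neg_one_mul, hc.mul _ _ (neg_ne_zero.2 one_ne_zero) hx, h1, zero_add]

/-- the value of a sum of two elements with different values -/
theorem u11_add_of_lt (hc : IsV c) {x y : L} (hx : x ≠ 0) (hy : y ≠ 0) (h : c x < c y) :
    x + y ≠ 0 ∧ c (x + y) = c x := by
  have hne : x + y ≠ 0 := by
    intro h0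
    have : x = -y := eq_neg_of_add_eq_zero_left h0
    rw [this, u11_neg hc] at h
    exact lt_irrefl _ h
  refine ⟨hne, ?_⟩
  have h1 := hc.add x y hx hy hne
  rw [min_eq_left h.le] at h1
  rcases h1.lt_or_eq with h2 | h2
  · exfalso
    have h3 := hc.add (x + y) (-y) hne (neg_ne_zero.2 hy) (by simpa using hx)
    rw [add_neg_cancel_right, u11_neg hc] at h3
    rcases min_le_iff.1 h3 with h4 | h4
    · exact absurd h4 (not_le.2 h2)
    · exact absurd h4 (not_le.2 h)
  · exact h2.symm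

theorem u11_add_of_ne (hc : IsV c) {x y : L} (hx : x ≠ 0) (hy : y ≠ 0) (h : c x ≠ c y) :
    x + y ≠ 0 ∧ (c (x + y) = c x ∨ c (x + y) = c y) := by
  rcases lt_or_gt_of_ne h with h | h
  · have := u11_add_of_lt hc hx hy h
    exact ⟨this.1, Or.inl this.2⟩
  · have := u11_add_of_lt hc hy hx h
    rw [add_comm] at this
    exact ⟨this.1, Or.inr this.2⟩

/-- a sum of nonzero elements with pairwise different values is nonzero -/
theorem u11_sum (hc : IsV c) {ι : Type} [DecidableEq ι] (s : Finset ι) (f : ι → L)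
    (h0 : ∀ i ∈ s, f i ≠ 0) (h : ∀ i ∈ s, ∀ j ∈ s, i ≠ j → c (f i) ≠ c (f j)) (hs : s.Nonempty) :
    ∑ i ∈ s, f i ≠ 0 ∧ ∃ i ∈ s, c (∑ i ∈ s, f i) = c (f i) := by
  induction s using Finset.induction_on with
  | empty => exact absurd hs Finset.not_nonempty_empty
  | insert a s ha ih =>
    rcases s.eq_empty_or_nonempty with rfl | hs'
    · simp only [insert_empty_eq, Finset.sum_singleton]
      exact ⟨h0 a (by simp), a, by simp, rfl⟩
    · obtain ⟨h1, i, hi, h2⟩ := ih (fun i hi => h0 i (Finset.mem_insert_of_mem hi))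
        (fun i hi j hj => h i (Finset.mem_insert_of_mem hi) j (Finset.mem_insert_of_mem hj)) hs'
      rw [Finset.sum_insert ha]
      have hai : a ≠ i := fun e => ha (e ▸ hi)
      have h3 := h a (Finset.mem_insert_self _ _) i (Finset.mem_insert_of_mem hi) hai
      rw [← h2] at h3
      obtain ⟨h4, h5⟩ := u11_add_of_ne hc (h0 a (Finset.mem_insert_self _ _)) h1 h3
      refine ⟨h4, ?_⟩
      rcases h5 with h5 | h5
      · exact ⟨a, Finset.mem_insert_self _ _, h5⟩
      · exact ⟨i, Finset.mem_insert_of_mem hi, h5.trans h2⟩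

end

section
variable {F L Γ : Type} [Field F] [Field L] [Algebra F L] [AddCommGroup Γ] [LinearOrder Γ]
  [IsOrderedAddMonoid Γ] {c : L → Γ}

/-- the value of a polynomial in `x` -/
theorem u11_aeval (hc : IsV c) (ht : Triv F c) {x : L} (hx : x ≠ 0) (hx' : c x < 0) :
    ∀ (n : ℕ) (P : F[X]), P ≠ 0 → P.natDegree = n → aeval x P ≠ 0 ∧ c (aeval x P) = n • c x := by
  intro n
  induction n using Nat.strong_induction_on with
  | _ n ih =>
    intro P hP hn
    have hlc : P.leadingCoeff ≠ 0 := leadingCoeff_ne_zero.2 hP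
    have hlc' : algebraMap F L P.leadingCoeff ≠ 0 := by simpa using hlc
    have e1 : P = P.eraseLead + monomial P.natDegree P.leadingCoeff :=
      (eraseLead_add_monomial_natDegree_leadingCoeff P).symm
    have e2 : aeval x (monomial P.natDegree P.leadingCoeff) =
        algebraMap F L P.leadingCoeff * x ^ n := by
      rw [aeval_monomial, hn]
    have h3 : algebraMap F L P.leadingCoeff * x ^ n ≠ 0 := mul_ne_zero hlc' (pow_ne_zero _ hx)
    have h4 : c (algebraMap F L P.leadingCoeff * x ^ n) = n • c x := by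
      rw [hc.mul _ _ hlc' (pow_ne_zero _ hx), ht, zero_add, u11_pow hc hx]
    rcases eq_or_ne P.eraseLead 0 with h0 | h0
    · rw [e1, h0, zero_add, e2]
      exact ⟨h3, h4⟩
    · have h5 : P.eraseLead.natDegree < n := by
        rw [← hn]
        rcases eraseLead_natDegree_lt_or_eraseLead_eq_zero P with h | h
        · exact h
        · exact absurd h h0
      obtain ⟨h6, h7⟩ := ih _ h5 _ h0 rfl
      have h8 : c (algebraMap F L P.leadingCoeff * x ^ n) < c (aeval x P.eraseLead) := by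
        rw [h4, h7]
        have h9 : P.eraseLead.natDegree • (-c x) < n • (-c x) :=
          nsmul_lt_nsmul_left (neg_pos.2 hx') h5
        rw [smul_neg, smul_neg, neg_lt_neg_iff] at h9
        exact h9
      have := u11_add_of_lt hc h3 h6 h8
      rw [add_comm, h4] at this
      rw [e1, map_add, e2]
      exact this

end

theorem p_U11 (hU1 : S_U1) : S_U11 := by
  classical
  intro F L _ _ _ hFF Γ _ _ _ c hc ht hne
  -- an element of negative value
  obtain ⟨x, hx, hx'⟩ : ∃ x : L, x ≠ 0 ∧ c x < 0 := by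
    obtain ⟨x, hx⟩ := hne
    have hx0 : x ≠ 0 := by
      rintro rfl
      exact hx hc.zero
    rcases lt_or_gt_of_ne hx with h | h
    · exact ⟨x, hx0, h⟩
    · exact ⟨x⁻¹, inv_ne_zero hx0, by rw [u11_inv hc hx0]; exact neg_neg_of_pos h⟩
  have htr : Transcendental F x := by
    intro h
    have := (hU1 F L).2 Γ c hc ht x h
    exact hx'.ne this
  obtain ⟨d, hd⟩ := hFF x htr
  -- multiples of values
  have key : ∀ z : L, z ≠ 0 → ∃ n : ℤ, (d.factorial : ℤ) • c z = n • (- c x) := by
    intro z hz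
    have h1 := hd.2 (fun i : Fin (d + 1) => z ^ (i : ℕ))
    rw [XInd] at h1
    push Not at h1
    obtain ⟨P, hP, hP0⟩ := h1
    have h2 : ∃ i j : Fin (d + 1), i ≠ j ∧ P i ≠ 0 ∧ P j ≠ 0 ∧
        c (aeval x (P i) * z ^ (i : ℕ)) = c (aeval x (P j) * z ^ (j : ℕ)) := by
      by_contra hcon
      push Not at hcon
      have h3 : (Finset.univ.filter fun i => P i ≠ 0).Nonempty := by
        by_contra h
        rw [Finset.not_nonempty_iff_eq_empty, Finset.filter_eq_empty_iff] at h
        apply hP0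
        funext i
        have := h (Finset.mem_univ i)
        push Not at this
        exact this
      have h4 := (u11_sum hc (Finset.univ.filter fun i => P i ≠ 0)
        (fun i => aeval x (P i) * z ^ (i : ℕ))
        (fun i hi => mul_ne_zero (u11_aeval hc ht hx hx' _ _ (Finset.mem_filter.1 hi).2 rfl).1
          (pow_ne_zero _ hz))
        (fun i hi j hj hij => hcon i j hij (Finset.mem_filter.1 hi).2 (Finset.mem_filter.1 hj).2)
        h3).1
      apply h4
      rw [← hP]
      apply Finset.sum_subset (Finset.filter_subset _ _)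
      intro i _ hi
      have : P i = 0 := by
        by_contra h
        exact hi (Finset.mem_filter.2 ⟨Finset.mem_univ _, h⟩)
      simp [this]
    obtain ⟨i, j, hij, hi, hj, h⟩ := h2
    wlog hlt : (j : ℕ) < i generalizing i j
    · refine this j i hij.symm hj hi h.symm ?_
      rcases lt_trichotomy (i : ℕ) j with h | h | h
      · exact h
      · exact absurd (Fin.ext h) hij
      · exact absurd h hlt
    obtain ⟨hi1, hi2⟩ := u11_aeval hc ht hx hx' _ _ hi rfl
    obtain ⟨hj1, hj2⟩ := u11_aeval hc ht hx hx' _ _ hj rfl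
    rw [hc.mul _ _ hi1 (pow_ne_zero _ hz), hc.mul _ _ hj1 (pow_ne_zero _ hz), hi2, hj2,
      u11_pow hc hz, u11_pow hc hz] at h
    have h5 : (((i : ℕ) : ℤ) - ((j : ℕ) : ℤ)) • c z =
        (((P i).natDegree : ℤ) - ((P j).natDegree : ℤ)) • (- c x) := by
      rw [sub_smul, sub_smul, smul_neg, smul_neg]
      simp only [natCast_zsmul]
      have h6 : (P i).natDegree • c x + (i : ℕ) • c z = (P j).natDegree • c x + (j : ℕ) • c z := h
      have h7 : (i : ℕ) • c z - (j : ℕ) • c z = (P j).natDegree • c x - (P i).natDegree • c x := by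
        rw [sub_eq_sub_iff_add_eq_add]
        rw [add_comm] at h6
        rw [h6, add_comm]
      rw [h7]
      abel
    have h6 : ((i : ℕ) - (j : ℕ)) ∣ d.factorial := by
      apply Nat.dvd_factorial
      · omega
      · have := i.2
        omega
    obtain ⟨m, hm⟩ := h6
    refine ⟨m * (((P i).natDegree : ℤ) - ((P j).natDegree : ℤ)), ?_⟩
    rw [mul_smul, ← h5, ← mul_smul, hm]
    congr 1
    push_cast [Nat.cast_sub hlt.le]
    ring
  -- the group of the multiples
  set N : ℤ := (d.factorial : ℤ) with hN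
  have hNpos : 0 < N := by
    rw [hN]
    exact_mod_cast d.factorial_pos
  have hcx : 0 < - c x := neg_pos.2 hx'
  let G : AddSubgroup ℤ :=
    { carrier := {n | ∃ z : L, z ≠ 0 ∧ N • c z = n • (- c x)}
      zero_mem' := ⟨1, one_ne_zero, by simp [u11_one hc]⟩
      add_mem' := by
        rintro a b ⟨y, hy, h1⟩ ⟨z, hz, h2⟩
        refine ⟨y * z, mul_ne_zero hy hz, ?_⟩
        rw [hc.mul _ _ hy hz, smul_add, h1, h2, add_smul]
      neg_mem' := by
        rintro a ⟨y, hy, h1⟩
        refine ⟨y⁻¹, inv_ne_zero hy, ?_⟩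
        rw [u11_inv hc hy, smul_neg, h1, neg_smul] }
  obtain ⟨n0, hn0⟩ := Int.subgroup_cyclic G
  have hG : ∀ n, n ∈ G ↔ ∃ m : ℤ, n = m * n0 := by
    intro n
    rw [hn0, AddSubgroup.mem_closure_singleton]
    constructor
    · rintro ⟨m, hm⟩
      exact ⟨m, by rw [← hm, smul_eq_mul]⟩
    · rintro ⟨m, hm⟩
      exact ⟨m, by rw [hm, smul_eq_mul]⟩
  have hmem : n0 ∈ G := (hG n0).2 ⟨1, by ring⟩
  obtain ⟨z0, hz0, hz1⟩ := hmem
  have hn0' : n0 ≠ 0 := by
    rintro h
    have h1 : (-N : ℤ) ∈ G := ⟨x, hx, by rw [neg_smul_neg]⟩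
    obtain ⟨m, hm⟩ := (hG _).1 h1
    rw [h, mul_zero] at hm
    omega
  -- choose the sign
  obtain ⟨z1, n1, hz1', hz2, hn1, hdiv⟩ : ∃ (z1 : L) (n1 : ℤ), z1 ≠ 0 ∧ N • c z1 = n1 • (- c x) ∧
      0 < n1 ∧ ∀ n, n ∈ G → ∃ m : ℤ, n = m * n1 := by
    rcases lt_or_gt_of_ne hn0' with h | h
    · refine ⟨z0⁻¹, -n0, inv_ne_zero hz0, ?_, by omega, ?_⟩
      · rw [u11_inv hc hz0, smul_neg, hz1, neg_smul]
      · intro n hn
        obtain ⟨m, hm⟩ := (hG n).1 hn
        exact ⟨-m, by rw [hm]; ring⟩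
    · exact ⟨z0, n0, hz0, hz1, h, fun n hn => (hG n).1 hn⟩
  set γ := c z1 with hγ
  have hγpos : 0 < γ := by
    by_contra h
    push Not at h
    have h1 : 0 ≤ N • (-γ) := zsmul_nonneg (neg_nonneg.2 h) hNpos.le
    rw [smul_neg, hz2] at h1
    have h2 : 0 < n1 • (- c x) := zsmul_pos hcx hn1
    exact absurd h2 (not_lt.2 (neg_nonneg.1 h1))
  have hex : ∀ y : L, ∃ m : ℤ, c y = m • γ := by
    intro y
    rcases eq_or_ne y 0 with rfl | hy
    · exact ⟨0, by rw [hc.zero, zero_smul]⟩
    · obtain ⟨n, hn⟩ := key y hy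
      obtain ⟨m, hm⟩ := hdiv n ⟨y, hy, hn⟩
      refine ⟨m, ?_⟩
      have h1 : N • (c y - m • γ) = 0 := by
        rw [smul_sub, hn, hm, mul_smul, ← hz2, ← mul_smul, ← mul_smul, mul_comm, sub_self]
      have h2 := (smul_eq_zero.1 h1).resolve_left hNpos.ne'
      exact sub_eq_zero.1 h2
  choose c0 hc0 using hex
  have hinj : ∀ a b : ℤ, a • γ = b • γ → a = b := by
    intro a b h
    have h1 : (a - b) • γ = 0 := by rw [sub_smul, h, sub_self]
    have h2 := (smul_eq_zero.1 h1).resolve_right hγpos.ne'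
    omega
  have hle : ∀ a b : ℤ, a • γ ≤ b • γ ↔ a ≤ b := fun a b => zsmul_le_zsmul_iff_left hγpos
  refine ⟨c0, γ, hγpos, ⟨⟨?_, ?_, ?_⟩, ?_, ?_⟩, hc0⟩
  · apply hinj
    rw [← hc0, hc.zero, zero_smul]
  · intro y z hy hz
    apply hinj
    rw [← hc0, hc.mul _ _ hy hz, add_smul, ← hc0, ← hc0]
  · intro y z hy hz hyz
    have h1 := hc.add y z hy hz hyz
    rw [hc0 (y + z)] at h1
    rcases min_le_iff.1 h1 with h2 | h2
    · rw [hc0 y, hle] at h2
      exact (min_le_left _ _).trans h2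
    · rw [hc0 z, hle] at h2
      exact (min_le_right _ _).trans h2
  · intro a
    apply hinj
    rw [← hc0, ht, zero_smul]
  · refine ⟨z1, hz1', ?_⟩
    apply hinj
    rw [← hc0, one_smul]

end Pool.Agent.F2RF
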