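import Pool.Agent.Lib.MP_305fdd_al.F2.RF.Stm

set_option autoImplicit false

namespace Pool.Agent.F2RF

open Polynomial Pool.Agent.F2Ch

section

variable {k M : Type} [Field k] [Field M] [Algebra k M]

open scoped IntermediateField.algebraAdjoinAdjoin in
private theorem u12_trdeg (s : M) (hs : Transcendental k s) (h2 : Algebra.trdeg k M = 2) :
    Algebra.trdeg (IntermediateField.adjoin k {s}) M = 1 := by
  have h1 : Algebra.trdeg k (Algebra.adjoin k {s}) = 1 := by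
    rw [← (Polynomial.algEquivOfTranscendental k s hs).trdeg_eq, Polynomial.trdeg_of_isDomain]
  have h3 : Algebra.trdeg (Algebra.adjoin k {s}) (IntermediateField.adjoin k {s}) = 0 :=
    trdeg_eq_zero
  have h4 := trdeg_add_eq k (Algebra.adjoin k {s}) (A := IntermediateField.adjoin k {s})
  rw [h1, h3, add_zero] at h4
  have h5 := trdeg_add_eq k (IntermediateField.adjoin k {s}) (A := M)
  rw [← h4, h2, ← one_add_one_eq_two] at h5
  exact Cardinal.eq_of_add_eq_add_left h5 Cardinal.one_lt_aleph0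

/-- valuation of a quotient -/
private theorem u12_one {Γ : Type} [AddCommGroup Γ] [LinearOrder Γ] [IsOrderedAddMonoid Γ]
    {c : M → Γ} (hc : IsV c) : c 1 = 0 := by
  have := hc.mul 1 1 one_ne_zero one_ne_zero
  rw [mul_one] at this
  exact left_eq_add.1 this

private theorem u12_inv {Γ : Type} [AddCommGroup Γ] [LinearOrder Γ] [IsOrderedAddMonoid Γ]
    {c : M → Γ} (hc : IsV c) {x : M} (hx : x ≠ 0) : c x⁻¹ = - c x := by
  have := hc.mul x x⁻¹ hx (inv_ne_zero hx)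
  rw [mul_inv_cancel₀ hx, u12_one hc] at this
  exact (neg_eq_of_add_eq_zero_right this.symm).symm

private theorem u12_triv {Γ : Type} [AddCommGroup Γ] [LinearOrder Γ] [IsOrderedAddMonoid Γ]
    {c : M → Γ} (hc : IsV c) (s : M) (h : ∀ P : k[X], P ≠ 0 → c (aeval s P) = 0) :
    Triv (IntermediateField.adjoin k {s}) c := by
  rintro ⟨z, hz⟩
  change c z = 0
  obtain ⟨P, Q, hPQ⟩ := (IntermediateField.mem_adjoin_simple_iff k z).1 hz
  by_cases hz0 : z = 0
  · rw [hz0, hc.zero]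
  have hP : aeval s P ≠ 0 := by
    intro h0
    rw [h0, zero_div] at hPQ
    exact hz0 hPQ
  have hQ : aeval s Q ≠ 0 := by
    intro h0
    rw [h0, div_zero] at hPQ
    exact hz0 hPQ
  have hP' : P ≠ 0 := by
    rintro rfl
    exact hP (map_zero _)
  have hQ' : Q ≠ 0 := by
    rintro rfl
    exact hQ (map_zero _)
  rw [hPQ, div_eq_mul_inv, hc.mul _ _ hP (inv_ne_zero hQ), u12_inv hc hQ, h P hP', h Q hQ']
  simp

private theorem u12_aeval_mem (A : Subalgebra k M) {s : M} (hs : s ∈ A) (P : k[X]) :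
    aeval s P ∈ A := by
  have := Polynomial.aeval_mem_adjoin_singleton k s (p := P)
  exact (Algebra.adjoin_le (by simpa using hs) : Algebra.adjoin k {s} ≤ A) this

/-- the localisation of `A` at the nonzero elements of `k[s]` -/
private def u12_A' (A : Subalgebra k M) (s : M) (hs : s ∈ A) :
    Subalgebra (IntermediateField.adjoin k {s}) M where
  carrier := {z | ∃ P : k[X], P ≠ 0 ∧ z * aeval s P ∈ A}
  mul_mem' := by
    rintro z z' ⟨P, hP, h⟩ ⟨P', hP', h'⟩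
    refine ⟨P * P', mul_ne_zero hP hP', ?_⟩
    have := A.mul_mem h h'
    rw [map_mul]
    convert this using 1
    ring
  add_mem' := by
    rintro z z' ⟨P, hP, h⟩ ⟨P', hP', h'⟩
    refine ⟨P * P', mul_ne_zero hP hP', ?_⟩
    have := A.add_mem (A.mul_mem h (u12_aeval_mem A hs P')) (A.mul_mem h' (u12_aeval_mem A hs P))
    rw [map_mul]
    convert this using 1
    ring
  algebraMap_mem' := by
    rintro ⟨z, hz⟩
    obtain ⟨P, Q, hPQ⟩ := (IntermediateField.mem_adjoin_simple_iff k z).1 hz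
    change ∃ P : k[X], P ≠ 0 ∧ z * aeval s P ∈ A
    by_cases hQ : aeval s Q = 0
    · rw [hQ, div_zero] at hPQ
      exact ⟨1, one_ne_zero, by rw [hPQ, zero_mul]; exact A.zero_mem⟩
    · refine ⟨Q, ?_, ?_⟩
      · rintro rfl
        exact hQ (map_zero _)
      · rw [hPQ, div_mul_cancel₀ _ hQ]
        exact u12_aeval_mem A hs P

private theorem u12_mem (A : Subalgebra k M) (s : M) (hs : s ∈ A) (z : M) :
    z ∈ u12_A' A s hs ↔ ∃ P : k[X], P ≠ 0 ∧ z * aeval s P ∈ A := Iff.rfl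

private theorem u12_le (A : Subalgebra k M) (s : M) (hs : s ∈ A) {z : M} (hz : z ∈ A) :
    z ∈ u12_A' A s hs :=
  (u12_mem A s hs z).2 ⟨1, one_ne_zero, by rwa [map_one, mul_one]⟩

end

theorem p_U12 (hU0 : S_U0) (hU7 : S_U7) (hU8 : S_U8) (hU9 : S_U9) (hU11 : S_U11) : S_U12 := by
  intro k M _ _ _ n t ht htr A hA s hs hst c₁ c₂ hc₁ hc₂ h₁ h₂ hle hneg
  have htriv₁ := u12_triv hc₁ s h₁
  have htriv₂ := u12_triv hc₂ s h₂
  have hFG : FracGen (IntermediateField.adjoin k {s}) t := by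
    intro x
    obtain ⟨a, b, hb, hx⟩ := ht x
    have e : ∀ q : MvPolynomial (Fin n) k, MvPolynomial.aeval t
        (MvPolynomial.map (algebraMap k (IntermediateField.adjoin k {s})) q) =
        MvPolynomial.aeval t q := by
      intro q
      rw [MvPolynomial.aeval_map_algebraMap]
    exact ⟨MvPolynomial.map (algebraMap k _) a, MvPolynomial.map (algebraMap k _) b,
      by rwa [e], by rwa [e, e]⟩
  have hFF : FF1 (IntermediateField.adjoin k {s}) M := hU0 _ _ n t hFG (u12_trdeg s hst htr)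
  have hfrac : FracOf (u12_A' A s hs) := by
    intro x
    obtain ⟨a, ha, b, hb, hb0, hx⟩ := hA x
    exact ⟨a, u12_le A s hs ha, b, u12_le A s hs hb, hb0, hx⟩
  -- `c₁ ≤ 0` on `A'`
  have hle' : ∀ z ∈ u12_A' A s hs, z ≠ 0 → c₁ z ≤ 0 := by
    intro z hz hz0
    obtain ⟨P, hP, hzP⟩ := (u12_mem A s hs z).1 hz
    have hP0 : aeval s P ≠ 0 := by
      intro h
      exact hP ((transcendental_iff.1 hst) P h)
    have := hle _ hzP (mul_ne_zero hz0 hP0)
    rwa [hc₁.mul _ _ hz0 hP0, h₁ P hP, add_zero] at this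
  obtain ⟨a₀, ha₀, ha₀0, ha₀neg⟩ := hneg
  obtain ⟨d₁, γ₁, hγ₁, hd₁, hcd₁⟩ := hU11 _ _ hFF ℝ c₁ hc₁ htriv₁ ⟨a₀, ha₀neg.ne⟩
  have hle₁ : ∀ z ∈ u12_A' A s hs, z ≠ 0 → d₁ z ≤ 0 := by
    intro z hz hz0
    have := hle' z hz hz0
    rw [hcd₁] at this
    by_contra hlt
    push Not at hlt
    exact absurd this (not_le.2 (smul_pos hlt hγ₁))
  have halg := hU7 _ _ hFF (u12_A' A s hs) d₁ hd₁ hle₁
  constructor
  · rintro ⟨y, hy0, hy1, hy2⟩ a ha
    obtain ⟨d₂, γ₂, hγ₂, hd₂, hcd₂⟩ := hU11 _ _ hFF ℝ c₂ hc₂ htriv₂ ⟨y, hy2.ne⟩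
    have hne : d₂ ≠ d₁ := by
      rintro rfl
      rw [hcd₁] at hy1
      rw [hcd₂] at hy2
      have hyneg : d₂ y < 0 := by
        by_contra hlt
        push Not at hlt
        exact absurd hy2 (not_lt.2 (smul_nonneg hlt hγ₂.le))
      have : d₂ y • γ₁ < 0 := smul_neg_of_neg_of_pos hyneg hγ₁
      exact absurd hy1 (not_le.2 this)
    have := hU8 _ _ hFF (u12_A' A s hs) hfrac d₁ d₂ hd₁ hd₂ halg hne a (u12_le A s hs ha)
    rw [hcd₂]
    exact smul_nonneg this hγ₂.le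
  · by_cases htr2 : ∃ y, c₂ y ≠ 0
    · obtain ⟨d₂, γ₂, hγ₂, hd₂, hcd₂⟩ := hU11 _ _ hFF ℝ c₂ hc₂ htriv₂ htr2
      obtain ⟨m, n', hm, hn', hmn⟩ := hU9 _ _ hFF (u12_A' A s hs) hfrac d₁ d₂ hd₁ hd₂ halg
      have hm' : (0 : ℝ) < m := by exact_mod_cast hm
      have hn'' : (0 : ℝ) < n' := by exact_mod_cast hn'
      refine ⟨(n' * γ₁) / (m * γ₂), div_pos (mul_pos hn'' hγ₁) (mul_pos hm' hγ₂), ?_⟩
      intro a ha ha0
      have h := hmn a (u12_le A s hs ha) ha0
      have h' : (m : ℝ) * (d₁ a : ℝ) + (n' : ℝ) * (d₂ a : ℝ) ≤ 0 := by exact_mod_cast h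
      rw [hcd₁, hcd₂, zsmul_eq_mul, zsmul_eq_mul]
      have e : (d₁ a : ℝ) * γ₁ + n' * γ₁ / (m * γ₂) * ((d₂ a : ℝ) * γ₂) =
          (γ₁ / m) * ((m : ℝ) * (d₁ a : ℝ) + (n' : ℝ) * (d₂ a : ℝ)) := by
        field_simp
      rw [e]
      exact mul_nonpos_of_nonneg_of_nonpos (div_pos hγ₁ hm').le h'
    · push Not at htr2
      refine ⟨1, one_pos, fun a ha ha0 => ?_⟩
      rw [htr2, mul_zero, add_zero]
      exact hle a ha ha0

end Pool.Agent.F2RF
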