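import Pool.Agent.Lib.MP_305fdd_al.F2.RF.Stm

set_option autoImplicit false

namespace Pool.Agent.F2RF

open Polynomial Pool.Agent.F2Ch

section
variable {F L : Type} [Field F] [Field L] [Algebra F L] {c : L → ℤ}

theorem u2_alg (hT : Triv F c) (s : F) : c (algebraMap F L s) = 0 := hT s

theorem u2_one (hT : Triv F c) : c 1 = 0 := by
  have h := hT 1
  rwa [map_one] at h

theorem u2_neg (hc : IsV c) (hT : Triv F c) (z : L) : c (-z) = c z := by
  by_cases hz : z = 0
  · rw [hz, neg_zero]
  · have h1 : c (-1 : L) = 0 := by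
      have h := hT (-1)
      rwa [map_neg, map_one] at h
    rw [← neg_one_mul, hc.mul (-1) z (by simp) hz, h1, zero_add]

theorem u2_pow (hc : IsV c) (hT : Triv F c) (z : L) (hz : z ≠ 0) (n : ℕ) :
    c (z ^ n) = n * c z := by
  induction n with
  | zero => rw [pow_zero, u2_one hT]; simp
  | succ n ih =>
    rw [pow_succ, hc.mul _ _ (pow_ne_zero n hz) hz, ih]
    push_cast
    ring

theorem u2_gt_add (hc : IsV c) {g : ℤ} {y z : L} (hy : Gt c g y) (hz : Gt c g z) :
    Gt c g (y + z) := by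
  by_cases h : y + z = 0
  · exact Or.inl h
  · rcases hy with hy | hy
    · rw [hy, zero_add]; exact hz
    · rcases hz with hz | hz
      · rw [hz, add_zero]; exact Or.inr hy
      · by_cases hy0 : y = 0
        · rw [hy0, zero_add]; exact Or.inr hz
        · by_cases hz0 : z = 0
          · rw [hz0, add_zero]; exact Or.inr hy
          · exact Or.inr (lt_of_lt_of_le (lt_min hy hz) (hc.add y z hy0 hz0 h))

theorem u2_gt_sum (hc : IsV c) {g : ℤ} {ι : Type} (s : Finset ι) (y : ι → L)
    (hy : ∀ i ∈ s, Gt c g (y i)) : Gt c g (∑ i ∈ s, y i) := by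
  classical
  induction s using Finset.induction_on with
  | empty => exact Or.inl Finset.sum_empty
  | insert i s hi ih =>
    rw [Finset.sum_insert hi]
    exact u2_gt_add hc (hy i (Finset.mem_insert_self i s))
      (ih fun j hj => hy j (Finset.mem_insert_of_mem hj))

theorem u2_dom (hc : IsV c) (hT : Triv F c) {y z : L} (hy : y ≠ 0) (hz : Gt c (c y) z) :
    y + z ≠ 0 ∧ c (y + z) = c y := by
  by_cases hz0 : z = 0
  · rw [hz0, add_zero]; exact ⟨hy, rfl⟩
  · have hz1 : c y < c z := by
      rcases hz with hz | hz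
      · exact absurd hz hz0
      · exact hz
    have hne : y + z ≠ 0 := by
      intro h
      have h1 : y = -z := eq_neg_of_add_eq_zero_left h
      have h2 : c y = c z := by rw [h1, u2_neg hc hT]
      omega
    refine ⟨hne, le_antisymm ?_ ?_⟩
    · by_contra h
      push Not at h
      have h1 : y + z + -z ≠ 0 := by
        rw [add_neg_cancel_right]; exact hy
      have h2 := hc.add (y + z) (-z) hne (neg_ne_zero.2 hz0) h1
      rw [add_neg_cancel_right, u2_neg hc hT] at h2
      have h3 := lt_of_lt_of_le (lt_min h hz1) h2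
      omega
    · have h2 := hc.add y z hy hz0 hne
      rwa [min_eq_left hz1.le] at h2

end

theorem p_U2 : S_U2 := by
  intro F L _ _ _ c hc hT x π e f a he hx hx0 hπ0 hπ ha P M hP hM
  classical
  -- the residues
  have hTj : ∀ j : Fin e, (fun i => (P (i, j)).coeff M) ≠ 0 →
      (∑ i, algebraMap F L ((P (i, j)).coeff M) * a i) ≠ 0 ∧
        c (∑ i, algebraMap F L ((P (i, j)).coeff M) * a i) = 0 := fun j hj => ha _ hj
  have hai : ∀ i, a i ≠ 0 ∧ c (a i) = 0 := by
    intro i
    have h := ha (Pi.single i 1) (by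
      intro h
      have h1 := congrFun h i
      rw [Pi.single_eq_same] at h1
      exact one_ne_zero h1)
    have h1 : ∑ j, algebraMap F L ((Pi.single i (1 : F) : Fin f → F) j) * a j = a i := by
      rw [Finset.sum_eq_single i]
      · rw [Pi.single_eq_same, map_one, one_mul]
      · intro j _ hj
        rw [Pi.single_eq_of_ne hj, map_zero, zero_mul]
      · intro h
        exact absurd (Finset.mem_univ i) h
    rwa [h1] at h
  -- the least index
  obtain ⟨l0, hl0⟩ := hM
  obtain ⟨j0, hj0, hmin⟩ := Finset.exists_min_image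
    (Finset.univ.filter fun j : Fin e => (fun i => (P (i, j)).coeff M) ≠ 0)
    (fun j => (j : ℕ)) ⟨l0.2, by
      rw [Finset.mem_filter]
      refine ⟨Finset.mem_univ _, fun h => hl0 ?_⟩
      have h1 := congrFun h l0.1
      exact h1⟩
  have hj0' : (fun i => (P (i, j0)).coeff M) ≠ 0 := (Finset.mem_filter.1 hj0).2
  -- the sum `A`
  set T : Fin e → L := fun j => ∑ i, algebraMap F L ((P (i, j)).coeff M) * a i with hTdef
  set A : L := ∑ j, T j * π ^ (j : ℕ) with hA
  have hT0 := hTj j0 hj0'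
  have hlead : T j0 * π ^ (j0 : ℕ) ≠ 0 ∧ c (T j0 * π ^ (j0 : ℕ)) = (j0 : ℕ) := by
    refine ⟨mul_ne_zero hT0.1 (pow_ne_zero _ hπ0), ?_⟩
    rw [hc.mul _ _ hT0.1 (pow_ne_zero _ hπ0), u2_pow hc hT π hπ0, hπ, mul_one]
    have h : c (T j0) = 0 := hT0.2
    rw [h, zero_add]
  have hA1 : A ≠ 0 ∧ c A = (j0 : ℕ) := by
    have h1 : A = T j0 * π ^ (j0 : ℕ) + ∑ j ∈ Finset.univ.erase j0, T j * π ^ (j : ℕ) := by
      rw [hA]
      exact (Finset.add_sum_erase Finset.univ (fun j => T j * π ^ (j : ℕ))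
        (Finset.mem_univ j0)).symm
    have h2 : Gt c (c (T j0 * π ^ (j0 : ℕ))) (∑ j ∈ Finset.univ.erase j0, T j * π ^ (j : ℕ)) := by
      apply u2_gt_sum hc
      intro j hj
      by_cases hq : (fun i => (P (i, j)).coeff M) = 0
      · left
        have h3 : T j = 0 := by
          rw [hTdef]
          refine Finset.sum_eq_zero fun i _ => ?_
          have h4 := congrFun hq i
          have h5 : (P (i, j)).coeff M = 0 := h4
          rw [h5, map_zero, zero_mul]
        rw [h3, zero_mul]
      · right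
        have h3 := hTj j hq
        have h4 : (j0 : ℕ) ≤ j := hmin j (Finset.mem_filter.2 ⟨Finset.mem_univ _, hq⟩)
        have h5 : (j0 : ℕ) ≠ j := fun h => Finset.ne_of_mem_erase hj (Fin.ext h.symm)
        rw [hlead.2, hc.mul _ _ h3.1 (pow_ne_zero _ hπ0), u2_pow hc hT π hπ0, hπ, mul_one, h3.2,
          zero_add]
        have h6 : (j0 : ℕ) < j := lt_of_le_of_ne h4 h5
        exact_mod_cast h6
    rw [h1]
    have h3 := u2_dom hc hT hlead.1 h2
    rw [hlead.2] at h3
    exact h3
  -- splitting off the top coefficients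
  have hsplit : ∀ l, aeval x (P l) = algebraMap F L ((P l).coeff M) * x ^ M +
      ∑ m ∈ Finset.range M, algebraMap F L ((P l).coeff m) * x ^ m := by
    intro l
    rw [aeval_eq_sum_range' (Nat.lt_succ_of_le (hP l)) x, Finset.sum_range_succ, add_comm]
    simp only [Algebra.smul_def]
  have hS : (∑ l, aeval x (P l) * (a l.1 * π ^ (l.2 : ℕ))) = x ^ M * A +
      ∑ l, (∑ m ∈ Finset.range M, algebraMap F L ((P l).coeff m) * x ^ m) *
        (a l.1 * π ^ (l.2 : ℕ)) := by
    simp only [hsplit, add_mul, Finset.sum_add_distrib]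
    congr 1
    rw [Fintype.sum_prod_type_right, hA, Finset.mul_sum]
    refine Finset.sum_congr rfl fun j _ => ?_
    rw [hTdef]
    simp only
    rw [Finset.sum_mul, Finset.mul_sum]
    refine Finset.sum_congr rfl fun i _ => ?_
    ring
  have hxA : x ^ M * A ≠ 0 ∧ c (x ^ M * A) = -(M : ℤ) * e + (j0 : ℕ) := by
    refine ⟨mul_ne_zero (pow_ne_zero _ hx0) hA1.1, ?_⟩
    rw [hc.mul _ _ (pow_ne_zero _ hx0) hA1.1, u2_pow hc hT x hx0, hx, hA1.2]
    ring
  have hj0e : ((j0 : ℕ) : ℤ) ≤ e - 1 := by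
    have := j0.2
    omega
  have hR : Gt c (c (x ^ M * A)) (∑ l, (∑ m ∈ Finset.range M,
      algebraMap F L ((P l).coeff m) * x ^ m) * (a l.1 * π ^ (l.2 : ℕ))) := by
    apply u2_gt_sum hc
    intro l _
    rw [Finset.sum_mul]
    apply u2_gt_sum hc
    intro m hm
    have hm' := Finset.mem_range.1 hm
    by_cases hz : (P l).coeff m = 0
    · left
      rw [hz, map_zero, zero_mul, zero_mul]
    · right
      have h1 : algebraMap F L ((P l).coeff m) ≠ 0 := fun h => hz ((map_eq_zero _).1 h)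
      have h2 := pow_ne_zero m hx0
      have h3 := pow_ne_zero (l.2 : ℕ) hπ0
      rw [hxA.2, hc.mul _ _ (mul_ne_zero h1 h2) (mul_ne_zero (hai l.1).1 h3),
        hc.mul _ _ h1 h2, hc.mul _ _ (hai l.1).1 h3, hT, u2_pow hc hT x hx0, hx, (hai l.1).2,
        u2_pow hc hT π hπ0, hπ]
      have h4 : (m : ℤ) + 1 ≤ M := by exact_mod_cast hm'
      have h5 : (0 : ℤ) ≤ (l.2 : ℕ) := Int.natCast_nonneg _
      have h6 : ((m : ℤ) + 1) * e ≤ M * e := mul_le_mul_of_nonneg_right h4 (Int.natCast_nonneg _)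
      have h7 : ((m : ℤ) + 1) * e = m * e + e := by ring
      have h8 : (m : ℤ) * -(e : ℤ) = -(m * e) := by ring
      have h9 : -(M : ℤ) * e = -(M * e) := by ring
      rw [h8, h9]
      omega
  rw [hS]
  have h := u2_dom hc hT hxA.1 hR
  refine ⟨h.1, ?_⟩
  rw [h.2, hxA.2]
  linarith

end Pool.Agent.F2RF

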