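import Pool.Agent.Lib.MP_305fdd_al.F2.RF.Stm

set_option autoImplicit false

/-!
# MP_305fdd_al, F_2 project, piece [F2RF U3]: codimension
-/

namespace Pool.Agent.F2RF

open Polynomial Pool.Agent.F2Ch

section
variable {F L : Type} [Field F] [Field L] [Algebra F L] {c : L → ℤ}

private lemma u3_pow (hv : IsV c) (ht : Triv F c) {π : L} (h0 : π ≠ 0) (h1 : c π = 1) :
    ∀ k : ℕ, c (π ^ k) = k := by
  intro k
  induction k with
  | zero =>
    have := ht 1
    rw [map_one] at this
    simpa using this
  | succ k ih =>
    rw [pow_succ, hv.mul _ _ (pow_ne_zero _ h0) h0, ih, h1]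
    push_cast
    ring

/-- the subspace of the elements of value at least `-N` -/
private def u3_sub (hv : IsV c) (ht : Triv F c) (W : Submodule F L) (N : ℤ) : Submodule F L where
  carrier := {w | w ∈ W ∧ (w = 0 ∨ N ≤ c w)}
  zero_mem' := ⟨W.zero_mem, Or.inl rfl⟩
  add_mem' := by
    rintro a b ⟨ha, ha'⟩ ⟨hb, hb'⟩
    refine ⟨W.add_mem ha hb, ?_⟩
    rcases eq_or_ne a 0 with h | h
    · rw [h, zero_add]; exact hb'
    rcases eq_or_ne b 0 with h' | h'
    · rw [h', add_zero]; exact ha'
    rcases eq_or_ne (a + b) 0 with h'' | h''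
    · exact Or.inl h''
    · right
      have h1 := ha'.resolve_left h
      have h2 := hb'.resolve_left h'
      exact le_trans (le_min h1 h2) (hv.add a b h h' h'')
  smul_mem' := by
    rintro s a ⟨ha, ha'⟩
    refine ⟨W.smul_mem s ha, ?_⟩
    rcases eq_or_ne s 0 with h | h
    · left; rw [h, zero_smul]
    rcases ha' with h' | h'
    · left; rw [h', smul_zero]
    rcases eq_or_ne a 0 with h2 | h2
    · left; rw [h2, smul_zero]
    · right
      have h3 : algebraMap F L s ≠ 0 := by
        rw [Ne, FaithfulSMul.algebraMap_eq_zero_iff]; exact h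
      rw [Algebra.smul_def, hv.mul _ _ h3 h2, ht s, zero_add]
      exact h'

end

theorem p_U3 : S_U3 := by
  intro F L _ _ _ c hc f hf N
  obtain ⟨hv, ht, π, hπ0, hπ1⟩ := hc
  induction N with
  | zero =>
    intro m W _ h1 h2
    have := h2 W le_rfl (fun w hw hw0 => by simpa using h1 w hw hw0)
    simpa using this
  | succ N ih =>
    intro m W hW h1 h2
    set W1 : Submodule F L := u3_sub hv ht W (-(N : ℤ)) with hW1def
    have hmem : ∀ w, w ∈ W1 ↔ w ∈ W ∧ (w = 0 ∨ -(N : ℤ) ≤ c w) := fun w => Iff.rfl
    have hle : W1 ≤ W := fun w hw => ((hmem w).1 hw).1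
    have hfin1 : FiniteDimensional F W1 := Submodule.finiteDimensional_of_le hle
    have hI := ih m W1 hfin1 (fun w hw hw0 => (((hmem w).1 hw).2).resolve_left hw0)
      (fun V hV hV' => h2 V (hV.trans hle) hV')
    -- codimension
    set W1' : Submodule F W := W1.comap W.subtype with hW1'
    have e1 : Module.finrank F W1' = Module.finrank F W1 :=
      LinearEquiv.finrank_eq (Submodule.comapSubtypeEquivOfLe hle)
    have e2 := Submodule.finrank_quotient_add_finrank W1'
    have e3 : Module.finrank F (W ⧸ W1') ≤ f := by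
      by_contra hcon
      push Not at hcon
      obtain ⟨q, hq⟩ := exists_linearIndependent_of_le_finrank (R := F) (M := W ⧸ W1') (n := f + 1)
        (by omega)
      choose w hw using fun i => Submodule.mkQ_surjective W1' (q i)
      refine hf.2 (fun i => π ^ (N + 1) * (w i : L)) ?_
      intro s hs
      -- the combination of the `w i`
      have hz : ∑ i, s i • w i ∉ W1' := by
        intro hz
        have h3 : W1'.mkQ (∑ i, s i • w i) = 0 := by
          rw [Submodule.mkQ_apply, Submodule.Quotient.mk_eq_zero]; exact hz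
        rw [map_sum] at h3
        simp only [map_smul, hw] at h3
        have h4 := (Fintype.linearIndependent_iff.1 hq) s h3
        exact hs (funext h4)
      have hz' : ((∑ i, s i • w i : W) : L) ∉ W1 := hz
      rw [hmem] at hz'
      push Not at hz'
      obtain ⟨hne, hlt⟩ := hz' (∑ i, s i • w i : W).2
      have hge := h1 _ (∑ i, s i • w i : W).2 hne
      have hcz : c ((∑ i, s i • w i : W) : L) = -((N : ℤ) + 1) := by
        rw [Nat.cast_succ] at hge
        omega
      have e4 : ∑ i, algebraMap F L (s i) * (π ^ (N + 1) * (w i : L)) =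
          π ^ (N + 1) * ((∑ i, s i • w i : W) : L) := by
        rw [Submodule.coe_sum, Finset.mul_sum]
        refine Finset.sum_congr rfl fun i _ => ?_
        rw [Submodule.coe_smul, Algebra.smul_def]
        ring
      rw [e4]
      refine ⟨mul_ne_zero (pow_ne_zero _ hπ0) hne, ?_⟩
      rw [hv.mul _ _ (pow_ne_zero _ hπ0) hne, u3_pow hv ht hπ0 hπ1, hcz]
      push_cast
      ring
    have e5 : (N + 1) * f = N * f + f := by ring
    rw [e5]
    omega

end Pool.Agent.F2RF
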