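import Pool.Agent.Lib.MP_305fdd_al.F2.RF.Stm

/-!
# MP_305fdd_al, F_2 project, [F2RF U4]: counting
-/

set_option autoImplicit false

namespace Pool.Agent.F2RF

open Polynomial Pool.Agent.F2Ch

section
variable {F L : Type} [Field F] [Field L] [Algebra F L]

private theorem u4_den {A : Subalgebra F L} (hfr : FracOf A) {d : ℕ} (b : Fin d → L) :
    ∃ s ∈ A, s ≠ 0 ∧ ∀ i, s * b i ∈ A := by
  classical
  choose a ha q hq hq0 hab using fun i => hfr (b i)
  refine ⟨∏ i, q i, prod_mem fun i _ => hq i, Finset.prod_ne_zero_iff.mpr fun i _ => hq0 i,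
    fun i => ?_⟩
  rw [← Finset.prod_erase_mul Finset.univ q (Finset.mem_univ i), mul_assoc, mul_comm (q i), hab i]
  exact mul_mem (prod_mem fun i _ => hq i) (ha i)

private theorem u4_mul {x : L} {d : ℕ} {b : Fin d → L} (hb : XInd F x b) {s : L} (hs : s ≠ 0) :
    XInd F x fun i => s * b i := by
  intro P hP
  apply hb P
  have h1 : s * ∑ i, aeval x (P i) * b i = 0 := by
    rw [← hP, Finset.mul_sum]
    refine Finset.sum_congr rfl fun i _ => ?_
    ring
  exact (mul_eq_zero.mp h1).resolve_left hs

/-- the family `x ^ j * b i`, `j ≤ n` -/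
private def u4_w (x : L) {d : ℕ} (b : Fin d → L) (n : ℕ) (l : Fin (n + 1) × Fin d) : L :=
  x ^ (l.1 : ℕ) * b l.2

private theorem u4_li {x : L} {d : ℕ} {b : Fin d → L} (hb : XInd F x b) (n : ℕ) :
    LinearIndependent F (u4_w x b n) := by
  classical
  rw [Fintype.linearIndependent_iff]
  intro g hg l
  have h1 := hb (fun i => ∑ j : Fin (n + 1), Polynomial.C (g (j, i)) * X ^ (j : ℕ)) ?_
  · have h2 := congrArg (fun P => (P l.2).coeff (l.1 : ℕ)) h1
    simp only [Pi.zero_apply, Polynomial.coeff_zero, Polynomial.finsetSum_coeff,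
      Polynomial.coeff_C_mul, Polynomial.coeff_X_pow] at h2
    rw [Finset.sum_eq_single l.1] at h2
    · simpa using h2
    · intro j _ hj
      rw [if_neg, mul_zero]
      intro h
      exact hj (Fin.ext h.symm)
    · intro h
      exact absurd (Finset.mem_univ _) h
  · rw [Fintype.sum_prod_type_right] at hg
    rw [← hg]
    refine Finset.sum_congr rfl fun i _ => ?_
    rw [map_sum, Finset.sum_mul]
    refine Finset.sum_congr rfl fun j _ => ?_
    rw [map_mul, aeval_C, map_pow, aeval_X, Algebra.smul_def]
    unfold u4_w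
    ring

private theorem u4_one {c : L → ℤ} (hv : IsV c) : c 1 = 0 := by
  have h := hv.mul 1 1 one_ne_zero one_ne_zero
  rw [one_mul] at h
  omega

private theorem u4_pow {c : L → ℤ} (hv : IsV c) {x : L} (hx : x ≠ 0) (n : ℕ) :
    c (x ^ n) = n * c x := by
  induction n with
  | zero => rw [pow_zero, u4_one hv]; simp
  | succ n ih =>
    rw [pow_succ, hv.mul _ _ (pow_ne_zero _ hx) hx, ih]
    push_cast
    ring

private theorem u4_ge_add {c : L → ℤ} (hv : IsV c) {γ : ℤ} {y z : L} (hy : Ge c γ y)
    (hz : Ge c γ z) : Ge c γ (y + z) := by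
  rcases hy with rfl | hy
  · rw [zero_add]
    exact hz
  rcases hz with rfl | hz
  · rw [add_zero]
    exact Or.inr hy
  by_cases h0 : y + z = 0
  · exact Or.inl h0
  by_cases hy0 : y = 0
  · rw [hy0, zero_add]
    exact Or.inr hz
  by_cases hz0 : z = 0
  · rw [hz0, add_zero]
    exact Or.inr hy
  exact Or.inr (le_trans (le_min hy hz) (hv.add y z hy0 hz0 h0))

private theorem u4_ge_smul {c : L → ℤ} (hv : IsV c) (ht : Triv F c) {γ : ℤ} {z : L} (a : F)
    (hz : Ge c γ z) : Ge c γ (a • z) := by
  by_cases h0 : a • z = 0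
  · exact Or.inl h0
  have ha : a ≠ 0 := left_ne_zero_of_smul h0
  have hz0 : z ≠ 0 := right_ne_zero_of_smul h0
  right
  rw [Algebra.smul_def, hv.mul _ _ ((_root_.map_ne_zero _).mpr ha) hz0, ht a, zero_add]
  exact hz.resolve_left hz0

end

theorem p_U4 (hU1 : S_U1) (hU3 : S_U3) : S_U4 := by
  classical
  intro F L _ _ _ A hfr c hc hA x e f d hxA htr hcx hf hd
  have hv := hc.isv
  have ht := hc.triv
  have hx0 : x ≠ 0 := by
    rintro rfl
    exact htr isAlgebraic_zero
  obtain ⟨b0, hb0⟩ := hd.1
  obtain ⟨s, hsA, hs0, hsb⟩ := u4_den hfr b0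
  set b : Fin d → L := fun i => s * b0 i with hbdef
  have hb : XInd F x b := u4_mul hb0 hs0
  have hbA : ∀ i, b i ∈ A := hsb
  set m0 : ℕ := ∑ i, (c (b i)).natAbs with hm0
  have hm : ∀ i, -(m0 : ℤ) ≤ c (b i) := by
    intro i
    have h1 : (c (b i)).natAbs ≤ m0 :=
      Finset.single_le_sum (f := fun i => (c (b i)).natAbs) (fun _ _ => Nat.zero_le _)
        (Finset.mem_univ i)
    omega
  have key : ∀ n : ℕ, (n + 1) * d ≤ (n * e + m0) * f + d := by
    intro n
    have hli := u4_li hb n
    have hfin : FiniteDimensional F (Submodule.span F (Set.range (u4_w x b n))) :=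
      FiniteDimensional.span_of_finite F (Set.finite_range _)
    have hcard : Module.finrank F (Submodule.span F (Set.range (u4_w x b n))) = (n + 1) * d := by
      rw [finrank_span_eq_card hli, Fintype.card_prod, Fintype.card_fin, Fintype.card_fin]
    have hWA : ∀ w ∈ Submodule.span F (Set.range (u4_w x b n)), w ∈ A := by
      intro w hw
      have : Submodule.span F (Set.range (u4_w x b n)) ≤ Subalgebra.toSubmodule A := by
        rw [Submodule.span_le]
        rintro _ ⟨l, rfl⟩
        exact A.mul_mem (A.pow_mem hxA _) (hbA l.2)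
      exact this hw
    have hWge : ∀ w ∈ Submodule.span F (Set.range (u4_w x b n)),
        Ge c (-((n * e + m0 : ℕ) : ℤ)) w := by
      intro w hw
      induction hw using Submodule.span_induction with
      | mem w hw =>
        obtain ⟨l, rfl⟩ := hw
        by_cases hl : b l.2 = 0
        · left
          unfold u4_w
          rw [hl, mul_zero]
        right
        unfold u4_w
        rw [hv.mul _ _ (pow_ne_zero _ hx0) hl, u4_pow hv hx0, hcx]
        have h1 := hm l.2
        have h2 : (l.1 : ℕ) ≤ n := Nat.lt_succ_iff.mp l.1.2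
        have h3 : ((l.1 : ℕ) : ℤ) * e ≤ n * e := by
          have : ((l.1 : ℕ) : ℤ) ≤ n := by exact_mod_cast h2
          exact mul_le_mul_of_nonneg_right this (by positivity)
        push_cast
        linarith
      | zero => exact Or.inl rfl
      | add y z _ _ hy hz => exact u4_ge_add hv hy hz
      | smul a y _ hy => exact u4_ge_smul hv ht a hy
    have hU := hU3 F L c hc f hf (n * e + m0) d _ hfin
      (fun w hw hw0 => (hWge w hw).resolve_left hw0) ?_
    · rw [hcard] at hU
      exact hU
    · intro V hV hVc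
      have hVf : FiniteDimensional F V := Submodule.finiteDimensional_of_le hV
      by_contra hlt
      push Not at hlt
      let B := Module.finBasis F V
      let a : Fin (d + 1) → L := fun i => (B (Fin.castLE hlt i) : L)
      have hali : LinearIndependent F a := by
        have h1 : LinearIndependent F fun i => (B i : L) :=
          B.linearIndependent.map' V.subtype V.ker_subtype
        exact h1.comp (Fin.castLE hlt) (Fin.castLE_injective hlt)
      have haV : ∀ i, a i ∈ V := fun i => (B (Fin.castLE hlt i)).2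
      have haalg : ∀ i, IsAlgebraic F (a i) := by
        intro i
        exact hA (a i) (hWA _ (hV (haV i))) (hali.ne_zero i) (hVc _ (haV i) (hali.ne_zero i))
      exact hd.2 a ((hU1 F L).1 x htr (d + 1) a haalg hali)
  have h1 := key (m0 * f + 1)
  by_contra hlt
  push Not at hlt
  have h2 : (m0 * f + 1) * (e * f + 1) ≤ (m0 * f + 1) * d := Nat.mul_le_mul_left _ hlt
  have h3 : (m0 * f + 1 + 1) * d = (m0 * f + 1) * d + d := by ring
  have h4 : ((m0 * f + 1) * e + m0) * f + d = (m0 * f + 1) * (e * f) + m0 * f + d := by ring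
  have h5 : (m0 * f + 1) * (e * f + 1) = (m0 * f + 1) * (e * f) + (m0 * f + 1) := by ring
  rw [h3, h4] at h1
  rw [h5] at h2
  omega

end Pool.Agent.F2RF
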