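import Pool.Agent.Lib.MP_305fdd_al.F2.RF.Stm

/-!
# MP_305fdd_al, F_2 project, section RF: piece [F2RF U5]
-/

set_option autoImplicit false

namespace Pool.Agent.F2RF

open Polynomial Pool.Agent.F2Ch

section
variable {F L : Type} [Field F] [Field L] [Algebra F L]

private theorem u5_sub {x : L} {ι ι' : Type} [Fintype ι] [Fintype ι'] {b : ι → L}
    (hb : XInd F x b) (j : ι' → ι) (hj : Function.Injective j) : XInd F x (fun i => b (j i)) := by
  classical
  intro P hP
  have h1 : ∑ i, aeval x (P i) * b (j i) =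
      ∑ l, aeval x (Function.extend j P 0 l) * b l := by
    refine Fintype.sum_of_injective j hj _ _ ?_ ?_
    · intro l hl
      rw [Function.extend_apply' _ _ _ (fun ⟨i, hi⟩ => hl ⟨i, hi⟩), Pi.zero_apply, map_zero,
        zero_mul]
    · intro i
      rw [hj.extend_apply]
  rw [h1] at hP
  have h2 := hb _ hP
  funext i
  have h3 := congrFun h2 (j i)
  rwa [hj.extend_apply] at h3

private theorem u5_card {x : L} {ι : Type} [Fintype ι] {b : ι → L} (hb : XInd F x b) {d : ℕ}
    (hd : XDeg F x d) : Fintype.card ι ≤ d := by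
  by_contra hcon
  push Not at hcon
  obtain ⟨j⟩ : Nonempty (Fin (d + 1) ↪ ι) :=
    Function.Embedding.nonempty_of_card_le (by rw [Fintype.card_fin]; exact hcon)
  exact hd.2 _ (u5_sub hb j j.injective)

private theorem u5_xind (hU2 : S_U2) {c : L → ℤ} (hv : IsV c) (ht : Triv F c) {x π : L}
    {e f : ℕ} {a : Fin f → L} (he : 0 < e) (hcx : c x = -(e : ℤ)) (hx : x ≠ 0) (hπ : π ≠ 0)
    (hcπ : c π = 1) (ha : ResInd F c a) :
    XInd F x (fun l : Fin f × Fin e => a l.1 * π ^ (l.2 : ℕ)) := by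
  intro P hP
  by_contra hne
  obtain ⟨l0, hl0⟩ : ∃ l, P l ≠ 0 := by
    by_contra h
    push Not at h
    exact hne (funext h)
  obtain ⟨l1, -, hl1⟩ := Finset.exists_max_image (Finset.univ : Finset (Fin f × Fin e))
    (fun l => (P l).degree) ⟨l0, Finset.mem_univ _⟩
  have h1 : P l1 ≠ 0 := by
    intro h
    have h2 := hl1 l0 (Finset.mem_univ _)
    rw [h, degree_zero, le_bot_iff, degree_eq_bot] at h2
    exact hl0 h2
  refine (hU2 F L c hv ht x π e f a he hcx hx hπ hcπ ha P (P l1).natDegree (fun l => ?_)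
    ⟨l1, ?_⟩).1 hP
  · exact natDegree_le_natDegree (hl1 l (Finset.mem_univ _))
  · exact mt leadingCoeff_eq_zero.1 h1

end

theorem p_U5 (hU2 : S_U2) : S_U5 := by
  classical
  intro F L _ _ _ c hc x e d he hx hcx hd
  obtain ⟨π, hπ, hcπ⟩ := hc.unif
  have key : ∀ (f : ℕ) (a : Fin f → L), ResInd F c a → e * f ≤ d := by
    intro f a ha
    have h1 := u5_card (u5_xind hU2 hc.isv hc.triv he hcx hx hπ hcπ ha) hd
    rw [Fintype.card_prod, Fintype.card_fin, Fintype.card_fin, mul_comm] at h1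
    exact h1
  refine ⟨fun f hf => ?_, ?_⟩
  · obtain ⟨a, ha⟩ := hf.1
    exact key f a ha
  · have h1 : ∃ a : Fin 1 → L, ResInd F c a := by
      refine ⟨fun _ => 1, fun s hs => ?_⟩
      have hs0 : s 0 ≠ 0 := by
        intro h
        apply hs
        funext i
        rw [Subsingleton.elim i 0, h]
        rfl
      rw [Fin.sum_univ_one, mul_one]
      exact ⟨(_root_.map_ne_zero _).2 hs0, hc.triv _⟩
    have hb : ∀ n, (∃ a : Fin n → L, ResInd F c a) → n ≤ d := by
      rintro n ⟨a, ha⟩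
      exact le_trans (Nat.le_mul_of_pos_left n he) (key n a ha)
    have h2 : ∃ a : Fin (Nat.findGreatest (fun n => ∃ a : Fin n → L, ResInd F c a) d) → L,
        ResInd F c a := Nat.findGreatest_spec (P := fun n => ∃ a : Fin n → L, ResInd F c a)
        (hb 1 h1) h1
    refine ⟨Nat.findGreatest (fun n => ∃ a : Fin n → L, ResInd F c a) d, ?_, h2, ?_⟩
    · exact Nat.le_findGreatest (P := fun n => ∃ a : Fin n → L, ResInd F c a) (hb 1 h1) h1
    · intro b hb'
      have h3 := Nat.le_findGreatest (P := fun n => ∃ a : Fin n → L, ResInd F c a)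
        (hb _ ⟨b, hb'⟩) ⟨b, hb'⟩
      omega

end Pool.Agent.F2RF
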