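import Pool.Agent.Lib.MP_305fdd_al.F2.RF.Stm

/-!
# MP_305fdd_al, F_2 project, section RF: piece [F2RF U6]
-/

set_option autoImplicit false

namespace Pool.Agent.F2RF

open Polynomial Pool.Agent.F2Ch

section
variable {L Γ : Type} [Field L] [AddCommGroup Γ] [LinearOrder Γ]
  [IsOrderedAddMonoid Γ] {v : L → Γ}

private theorem u6_one (hv : IsV v) : v 1 = 0 := by
  have h := hv.mul 1 1 one_ne_zero one_ne_zero
  rw [mul_one] at h
  exact left_eq_add.1 h

private theorem u6_inv (hv : IsV v) {a : L} (ha : a ≠ 0) : v a⁻¹ = - v a := by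
  have h := hv.mul a a⁻¹ ha (inv_ne_zero ha)
  rw [mul_inv_cancel₀ ha, u6_one hv] at h
  exact (neg_eq_of_add_eq_zero_right h.symm).symm

private theorem u6_pow (hv : IsV v) {a : L} (ha : a ≠ 0) (n : ℕ) : v (a ^ n) = n • v a := by
  induction n with
  | zero => rw [pow_zero, u6_one hv, zero_smul]
  | succ n ih => rw [pow_succ, hv.mul _ _ (pow_ne_zero n ha) ha, ih, succ_nsmul]

private theorem u6_zpow (hv : IsV v) {a : L} (ha : a ≠ 0) (n : ℤ) : v (a ^ n) = n • v a := by
  cases n with
  | ofNat n =>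
    rw [Int.ofNat_eq_natCast, zpow_natCast, u6_pow hv ha, natCast_zsmul]
  | negSucc n =>
    rw [zpow_negSucc, u6_inv hv (pow_ne_zero _ ha), u6_pow hv ha, negSucc_zsmul]

private theorem u6_neg (hv : IsV v) (a : L) : v (-a) = v a := by
  have h1 : v (-1) = 0 := by
    have h := hv.mul (-1) (-1) (neg_ne_zero.2 one_ne_zero) (neg_ne_zero.2 one_ne_zero)
    rw [neg_mul_neg, one_mul, u6_one hv] at h
    rcases lt_trichotomy (v (-1)) 0 with h2 | h2 | h2
    · exact absurd h.symm (add_neg h2 h2).ne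
    · exact h2
    · exact absurd h (add_pos h2 h2).ne
  by_cases ha : a = 0
  · rw [ha, neg_zero]
  · rw [← neg_one_mul, hv.mul _ _ (neg_ne_zero.2 one_ne_zero) ha, h1, zero_add]

omit [IsOrderedAddMonoid Γ] in
private theorem u6_ge_add (hv : IsV v) {c : Γ} {x y : L} (hx : Ge v c x)
    (hy : Ge v c y) : Ge v c (x + y) := by
  by_cases h0 : x + y = 0
  · exact Or.inl h0
  · rcases hx with hx | hx
    · rw [hx, zero_add]
      exact hy
    · rcases hy with hy | hy
      · rw [hy, add_zero]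
        exact Or.inr hx
      · by_cases hx0 : x = 0
        · rw [hx0, zero_add]
          exact Or.inr hy
        · by_cases hy0 : y = 0
          · rw [hy0, add_zero]
            exact Or.inr hx
          · exact Or.inr ((le_min hx hy).trans (hv.add x y hx0 hy0 h0))

omit [IsOrderedAddMonoid Γ] in
private theorem u6_ge_sum {ι : Type} (hv : IsV v) {c : Γ} (s : Finset ι) (x : ι → L)
    (hx : ∀ i ∈ s, Ge v c (x i)) : Ge v c (∑ i ∈ s, x i) := by
  classical
  induction s using Finset.induction_on with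
  | empty => exact Or.inl Finset.sum_empty
  | insert a s ha ih =>
    rw [Finset.sum_insert ha]
    exact u6_ge_add hv (hx a (Finset.mem_insert_self a s))
      (ih fun i hi => hx i (Finset.mem_insert_of_mem hi))

private theorem u6_dom (hv : IsV v) {a b : L} (ha : a ≠ 0) (hb : Gt v (v a) b) :
    a + b ≠ 0 ∧ v (a + b) = v a := by
  rcases hb with hb | hb
  · rw [hb, add_zero]
    exact ⟨ha, rfl⟩
  · by_cases hb0 : b = 0
    · rw [hb0, add_zero]
      exact ⟨ha, rfl⟩
    · have hab : a + b ≠ 0 := by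
        intro h
        have h1 : b = -a := (neg_eq_of_add_eq_zero_right h).symm
        rw [h1, u6_neg hv] at hb
        exact lt_irrefl _ hb
      have h1 := hv.add a b ha hb0 hab
      rw [min_eq_left hb.le] at h1
      refine ⟨hab, le_antisymm ?_ h1⟩
      have h2 := hv.add (a + b) (-b) hab (neg_ne_zero.2 hb0) (by rwa [add_neg_cancel_right])
      rw [add_neg_cancel_right, u6_neg hv] at h2
      rcases min_le_iff.1 h2 with h3 | h3
      · exact h3
      · exact absurd h3 (not_le.2 hb)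

end

section
variable {L Γ : Type} [Field L] [AddCommGroup Γ] [LinearOrder Γ]
  [IsOrderedAddMonoid Γ] {v : L → Γ}

omit [IsOrderedAddMonoid Γ] in
private theorem u6_gt_add (hv : IsV v) {c : Γ} {x y : L} (hx : Gt v c x)
    (hy : Gt v c y) : Gt v c (x + y) := by
  by_cases h0 : x + y = 0
  · exact Or.inl h0
  · rcases hx with hx | hx
    · rw [hx, zero_add]
      exact hy
    · rcases hy with hy | hy
      · rw [hy, add_zero]
        exact Or.inr hx
      · by_cases hx0 : x = 0
        · rw [hx0, zero_add]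
          exact Or.inr hy
        · by_cases hy0 : y = 0
          · rw [hy0, add_zero]
            exact Or.inr hx
          · exact Or.inr (lt_of_lt_of_le (lt_min hx hy) (hv.add x y hx0 hy0 h0))

omit [IsOrderedAddMonoid Γ] in
private theorem u6_gt_sum {ι : Type} (hv : IsV v) {c : Γ} (s : Finset ι) (x : ι → L)
    (hx : ∀ i ∈ s, Gt v c (x i)) : Gt v c (∑ i ∈ s, x i) := by
  classical
  induction s using Finset.induction_on with
  | empty => exact Or.inl Finset.sum_empty
  | insert a s ha ih =>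
    rw [Finset.sum_insert ha]
    exact u6_gt_add hv (hx a (Finset.mem_insert_self a s))
      (ih fun i hi => hx i (Finset.mem_insert_of_mem hi))

end

private theorem u6_poly {F L : Type} [Field F] [Field L] [Algebra F L] {w : L → ℤ} (hw : IsV w)
    (ht : Triv F w) {x : L} (hx : x ≠ 0) (hwx : w x < 0) {Q : F[X]} (hQ : Q ≠ 0) :
    aeval x Q ≠ 0 ∧ w (aeval x Q) = (Q.natDegree : ℤ) * w x := by
  have hlc : algebraMap F L Q.leadingCoeff ≠ 0 :=
    (_root_.map_ne_zero _).2 (leadingCoeff_ne_zero.2 hQ)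
  have hterm : ∀ i, Q.coeff i ≠ 0 → w (Q.coeff i • x ^ i) = (i : ℤ) * w x := by
    intro i hi
    rw [Algebra.smul_def, hw.mul _ _ ((_root_.map_ne_zero _).2 hi) (pow_ne_zero _ hx), ht,
      zero_add, u6_pow hw hx, nsmul_eq_mul]
  have h1 : aeval x Q = Q.coeff Q.natDegree • x ^ Q.natDegree +
      ∑ i ∈ Finset.range Q.natDegree, Q.coeff i • x ^ i := by
    rw [aeval_eq_sum_range, Finset.sum_range_succ, add_comm]
  have hne : Q.coeff Q.natDegree • x ^ Q.natDegree ≠ 0 := by
    rw [Algebra.smul_def]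
    exact mul_ne_zero hlc (pow_ne_zero _ hx)
  have h2 := hterm Q.natDegree (leadingCoeff_ne_zero.2 hQ)
  have h3 : Gt w (w (Q.coeff Q.natDegree • x ^ Q.natDegree))
      (∑ i ∈ Finset.range Q.natDegree, Q.coeff i • x ^ i) := by
    refine u6_gt_sum hw _ _ fun i hi => ?_
    by_cases hc : Q.coeff i = 0
    · left
      rw [hc, zero_smul]
    · right
      rw [h2, hterm i hc]
      have h4 : (i : ℤ) < Q.natDegree := by exact_mod_cast Finset.mem_range.1 hi
      nlinarith
  have h5 := u6_dom hw hne h3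
  rw [← h1, h2] at h5
  exact h5

section
variable {F L : Type} [Field F] [Field L] [Algebra F L]

private theorem u6_sub {x : L} {ι ι' : Type} [Fintype ι] [Fintype ι'] {b : ι → L}
    (hb : XInd F x b) (j : ι' → ι) (hj : Function.Injective j) : XInd F x (fun i => b (j i)) := by
  classical
  intro P hP
  have h1 : ∑ i, aeval x (P i) * b (j i) =
      ∑ l, aeval x (Function.extend j P 0 l) * b l := by
    refine Fintype.sum_of_injective j hj _ _ ?_ ?_
    · intro l hl
      rw [Function.extend_apply' _ _ _ (fun ⟨i, hi⟩ => hl ⟨i, hi⟩), Pi.zero_apply, map_zero,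
        zero_mul]
    · intro i
      rw [hj.extend_apply]
  rw [h1] at hP
  have h2 := hb _ hP
  funext i
  have h3 := congrFun h2 (j i)
  rwa [hj.extend_apply] at h3

private theorem u6_card {x : L} {ι : Type} [Fintype ι] {b : ι → L} (hb : XInd F x b) {d : ℕ}
    (hd : XDeg F x d) : Fintype.card ι ≤ d := by
  by_contra hcon
  push Not at hcon
  obtain ⟨j⟩ : Nonempty (Fin (d + 1) ↪ ι) :=
    Function.Embedding.nonempty_of_card_le (by rw [Fintype.card_fin]; exact hcon)
  exact hd.2 _ (u6_sub hb j j.injective)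

private theorem u6_xind (hU2 : S_U2) {c : L → ℤ} (hv : IsV c) (ht : Triv F c) {x π : L}
    {e f : ℕ} {a : Fin f → L} (he : 0 < e) (hcx : c x = -(e : ℤ)) (hx : x ≠ 0) (hπ : π ≠ 0)
    (hcπ : c π = 1) (ha : ResInd F c a) :
    XInd F x (fun l : Fin f × Fin e => a l.1 * π ^ (l.2 : ℕ)) := by
  intro P hP
  by_contra hne
  obtain ⟨l0, hl0⟩ : ∃ l, P l ≠ 0 := by
    by_contra h
    push Not at h
    exact hne (funext h)
  obtain ⟨l1, -, hl1⟩ := Finset.exists_max_image (Finset.univ : Finset (Fin f × Fin e))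
    (fun l => (P l).degree) ⟨l0, Finset.mem_univ _⟩
  have h1 : P l1 ≠ 0 := by
    intro h
    have h2 := hl1 l0 (Finset.mem_univ _)
    rw [h, degree_zero, le_bot_iff, degree_eq_bot] at h2
    exact hl0 h2
  refine (hU2 F L c hv ht x π e f a he hcx hx hπ hcπ ha P (P l1).natDegree (fun l => ?_)
    ⟨l1, ?_⟩).1 hP
  · exact natDegree_le_natDegree (hl1 l (Finset.mem_univ _))
  · exact mt leadingCoeff_eq_zero.1 h1

end

private theorem u6_bound (hU2 : S_U2) {F L : Type} [Field F] [Field L] [Algebra F L]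
    {c c' : L → ℤ} (hc : Plc F c) (hc' : Plc F c') {x : L} {e f : ℕ} (he : 0 < e) (hx : x ≠ 0)
    (hcx : c x = -(e : ℤ)) (hf : ResDeg F c f) (hd : XDeg F x (e * f)) (hc'x : c' x < 0) :
    ∃ C0 : ℤ, ∀ y, y ≠ 0 → 0 ≤ c y → -C0 ≤ c' y := by
  classical
  obtain ⟨π, hπ, hcπ⟩ := hc.unif
  obtain ⟨a, ha⟩ := hf.1
  have hcx0 : c x < 0 := by rw [hcx]; omega
  set b : Fin f × Fin e → L := fun l => a l.1 * π ^ (l.2 : ℕ) with hb
  have hbx : XInd F x b := u6_xind hU2 hc.isv hc.triv he hcx hx hπ hcπ ha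
  refine ⟨∑ l, |c' (b l)|, fun y hy hcy => ?_⟩
  have hbl : ∀ l, -(∑ l, |c' (b l)|) ≤ c' (b l) := by
    intro l
    have h1 : |c' (b l)| ≤ ∑ l, |c' (b l)| :=
      Finset.single_le_sum (f := fun l => |c' (b l)|) (fun i _ => abs_nonneg _)
        (Finset.mem_univ l)
    have h2 := neg_abs_le (c' (b l))
    linarith
  have hnot : ¬ XInd F x (fun o : Option (Fin f × Fin e) => o.elim y b) := by
    intro h
    have h1 := u6_card h hd
    rw [Fintype.card_option, Fintype.card_prod, Fintype.card_fin, Fintype.card_fin,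
      mul_comm f e] at h1
    omega
  unfold XInd at hnot
  push Not at hnot
  obtain ⟨P, hP, hP0⟩ := hnot
  rw [Fintype.sum_option] at hP
  simp only [Option.elim_none, Option.elim_some] at hP
  have hQ : P none ≠ 0 := by
    intro h
    rw [h, map_zero, zero_mul, zero_add] at hP
    have h1 := hbx (fun l => P (some l)) hP
    apply hP0
    funext o
    cases o with
    | none => exact h
    | some l => exact congrFun h1 l
  obtain ⟨hQ1, hQc⟩ := u6_poly hc.isv hc.triv hx hcx0 hQ
  obtain ⟨-, hQc'⟩ := u6_poly hc'.isv hc'.triv hx hc'x hQ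
  have hS : ∑ l, aeval x (P (some l)) * b l = -(aeval x (P none) * y) :=
    (neg_eq_of_add_eq_zero_right hP).symm
  have hQy : aeval x (P none) * y ≠ 0 := mul_ne_zero hQ1 hy
  obtain ⟨l0, hl0⟩ : ∃ l, P (some l) ≠ 0 := by
    by_contra h
    push Not at h
    rw [Finset.sum_eq_zero fun l _ => by rw [h l, map_zero, zero_mul]] at hS
    exact hQy (neg_eq_zero.1 hS.symm)
  obtain ⟨l1, -, hl1⟩ := Finset.exists_max_image (Finset.univ : Finset (Fin f × Fin e))
    (fun l => (P (some l)).degree) ⟨l0, Finset.mem_univ _⟩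
  have h1 : P (some l1) ≠ 0 := by
    intro h
    have h2 := hl1 l0 (Finset.mem_univ _)
    rw [h, degree_zero, le_bot_iff, degree_eq_bot] at h2
    exact hl0 h2
  have hmax : ∀ l, (P (some l)).natDegree ≤ (P (some l1)).natDegree := fun l =>
    natDegree_le_natDegree (hl1 l (Finset.mem_univ _))
  have h2 := (hU2 F L c hc.isv hc.triv x π e f a he hcx hx hπ hcπ ha (fun l => P (some l))
    (P (some l1)).natDegree hmax ⟨l1, mt leadingCoeff_eq_zero.1 h1⟩).2
  have h3 : c (∑ l, aeval x (P (some l)) * b l) =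
      ((P none).natDegree : ℤ) * c x + c y := by
    rw [hS, u6_neg hc.isv, hc.isv.mul _ _ hQ1 hy, hQc]
  have h4 : ((P none).natDegree : ℤ) * c x + c y ≤
      -((P (some l1)).natDegree : ℤ) * e + (e - 1) := by
    rw [← h3]
    exact h2
  rw [hcx] at h4
  have hMm : (P (some l1)).natDegree ≤ (P none).natDegree := by
    by_contra hcon
    push Not at hcon
    have h5 : ((P none).natDegree : ℤ) + 1 ≤ ((P (some l1)).natDegree : ℤ) := by
      exact_mod_cast hcon
    have h6 : (0 : ℤ) < e := by exact_mod_cast he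
    nlinarith
  have h5 : Ge c' (((P none).natDegree : ℤ) * c' x - ∑ l, |c' (b l)|)
      (∑ l, aeval x (P (some l)) * b l) := by
    refine u6_ge_sum hc'.isv _ _ fun l _ => ?_
    by_cases hPl : P (some l) = 0
    · left
      rw [hPl, map_zero, zero_mul]
    · by_cases hbl0 : b l = 0
      · left
        rw [hbl0, mul_zero]
      · right
        obtain ⟨h6, h7⟩ := u6_poly hc'.isv hc'.triv hx hc'x hPl
        rw [hc'.isv.mul _ _ h6 hbl0, h7]
        have h8 : ((P (some l)).natDegree : ℤ) ≤ ((P none).natDegree : ℤ) := by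
          exact_mod_cast (hmax l).trans hMm
        have h9 := hbl l
        nlinarith
  rw [hS] at h5
  rcases h5 with h5 | h5
  · exact absurd (neg_eq_zero.1 h5) hQy
  · rw [u6_neg hc'.isv, hc'.isv.mul _ _ hQ1 hy, hQc'] at h5
    linarith

theorem p_U6 (hU2 : S_U2) : S_U6 := by
  intro F L _ _ _ c c' hc hc' x e f he hx hcx hf hd hc'x
  obtain ⟨C0, hC0⟩ := u6_bound hU2 hc hc' he hx hcx hf hd hc'x
  obtain ⟨π, hπ, hcπ⟩ := hc.unif
  obtain ⟨π', hπ', hcπ'⟩ := hc'.unif
  have h1 : ∀ y, y ≠ 0 → 0 ≤ c y → 0 ≤ c' y := by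
    intro y hy hcy
    by_contra hcon
    push Not at hcon
    have h2 := hC0 (y ^ (C0.toNat + 1)) (pow_ne_zero _ hy) (by
      rw [u6_pow hc.isv hy]
      exact nsmul_nonneg hcy _)
    rw [u6_pow hc'.isv hy, nsmul_eq_mul] at h2
    push_cast at h2
    have h3 : C0 ≤ (C0.toNat : ℤ) := Int.self_le_toNat C0
    have h4 : (0 : ℤ) ≤ (C0.toNat : ℤ) := Int.natCast_nonneg _
    nlinarith
  have h2 : ∀ y, y ≠ 0 → c y = 0 → c' y = 0 := by
    intro y hy hcy
    have h3 := h1 y hy hcy.ge
    have h4 := h1 y⁻¹ (inv_ne_zero hy) (by rw [u6_inv hc.isv hy, hcy, neg_zero])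
    rw [u6_inv hc'.isv hy] at h4
    omega
  have h3 : ∀ y, y ≠ 0 → c' y = c y * c' π := by
    intro y hy
    have h4 : c (y * π ^ (-c y)) = 0 := by
      rw [hc.isv.mul _ _ hy (zpow_ne_zero _ hπ), u6_zpow hc.isv hπ, hcπ, smul_eq_mul]
      ring
    have h5 := h2 _ (mul_ne_zero hy (zpow_ne_zero _ hπ)) h4
    rw [hc'.isv.mul _ _ hy (zpow_ne_zero _ hπ), u6_zpow hc'.isv hπ, smul_eq_mul] at h5
    linarith
  have h4 : c' π = 1 := by
    have h5 := h3 π' hπ'
    rw [hcπ'] at h5
    have h6 := h1 π hπ (by rw [hcπ]; exact zero_le_one)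
    have h7 : c' π ∣ 1 := ⟨c π', by rw [h5]; ring⟩
    exact Int.eq_one_of_dvd_one h6 h7
  funext y
  by_cases hy : y = 0
  · rw [hy, hc.isv.zero, hc'.isv.zero]
  · rw [h3 y hy, h4, mul_one]

end Pool.Agent.F2RF
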