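import Pool.Agent.Lib.MP_305fdd_al.F2.RF.Stm

/-!
# MP_305fdd_al, F_2 project, section RF: piece [F2RF U7]
-/

set_option autoImplicit false

namespace Pool.Agent.F2RF

open Polynomial Pool.Agent.F2Ch

section
variable {L Γ : Type} [Field L] [AddCommGroup Γ] [LinearOrder Γ]
  [IsOrderedAddMonoid Γ] {v : L → Γ}

private theorem u7_one (hv : IsV v) : v 1 = 0 := by
  have h := hv.mul 1 1 one_ne_zero one_ne_zero
  rw [mul_one] at h
  exact left_eq_add.1 h

private theorem u7_inv (hv : IsV v) {a : L} (ha : a ≠ 0) : v a⁻¹ = - v a := by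
  have h := hv.mul a a⁻¹ ha (inv_ne_zero ha)
  rw [mul_inv_cancel₀ ha, u7_one hv] at h
  exact (neg_eq_of_add_eq_zero_right h.symm).symm

private theorem u7_pow (hv : IsV v) {a : L} (ha : a ≠ 0) (n : ℕ) : v (a ^ n) = n • v a := by
  induction n with
  | zero => rw [pow_zero, u7_one hv, zero_smul]
  | succ n ih => rw [pow_succ, hv.mul _ _ (pow_ne_zero n ha) ha, ih, succ_nsmul]

private theorem u7_zpow (hv : IsV v) {a : L} (ha : a ≠ 0) (n : ℤ) : v (a ^ n) = n • v a := by
  cases n with
  | ofNat n =>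
    rw [Int.ofNat_eq_natCast, zpow_natCast, u7_pow hv ha, natCast_zsmul]
  | negSucc n =>
    rw [zpow_negSucc, u7_inv hv (pow_ne_zero _ ha), u7_pow hv ha, negSucc_zsmul]

private theorem u7_neg (hv : IsV v) (a : L) : v (-a) = v a := by
  have h1 : v (-1) = 0 := by
    have h := hv.mul (-1) (-1) (neg_ne_zero.2 one_ne_zero) (neg_ne_zero.2 one_ne_zero)
    rw [neg_mul_neg, one_mul, u7_one hv] at h
    rcases lt_trichotomy (v (-1)) 0 with h2 | h2 | h2
    · exact absurd h.symm (add_neg h2 h2).ne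
    · exact h2
    · exact absurd h (add_pos h2 h2).ne
  by_cases ha : a = 0
  · rw [ha, neg_zero]
  · rw [← neg_one_mul, hv.mul _ _ (neg_ne_zero.2 one_ne_zero) ha, h1, zero_add]

omit [IsOrderedAddMonoid Γ] in
private theorem u7_ge_add (hv : IsV v) {c : Γ} {x y : L} (hx : Ge v c x)
    (hy : Ge v c y) : Ge v c (x + y) := by
  by_cases h0 : x + y = 0
  · exact Or.inl h0
  · rcases hx with hx | hx
    · rw [hx, zero_add]
      exact hy
    · rcases hy with hy | hy
      · rw [hy, add_zero]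
        exact Or.inr hx
      · by_cases hx0 : x = 0
        · rw [hx0, zero_add]
          exact Or.inr hy
        · by_cases hy0 : y = 0
          · rw [hy0, add_zero]
            exact Or.inr hx
          · exact Or.inr ((le_min hx hy).trans (hv.add x y hx0 hy0 h0))

omit [IsOrderedAddMonoid Γ] in
private theorem u7_ge_sum {ι : Type} (hv : IsV v) {c : Γ} (s : Finset ι) (x : ι → L)
    (hx : ∀ i ∈ s, Ge v c (x i)) : Ge v c (∑ i ∈ s, x i) := by
  classical
  induction s using Finset.induction_on with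
  | empty => exact Or.inl Finset.sum_empty
  | insert a s ha ih =>
    rw [Finset.sum_insert ha]
    exact u7_ge_add hv (hx a (Finset.mem_insert_self a s))
      (ih fun i hi => hx i (Finset.mem_insert_of_mem hi))

private theorem u7_dom (hv : IsV v) {a b : L} (ha : a ≠ 0) (hb : Gt v (v a) b) :
    a + b ≠ 0 ∧ v (a + b) = v a := by
  rcases hb with hb | hb
  · rw [hb, add_zero]
    exact ⟨ha, rfl⟩
  · by_cases hb0 : b = 0
    · rw [hb0, add_zero]
      exact ⟨ha, rfl⟩
    · have hab : a + b ≠ 0 := by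
        intro h
        have h1 : b = -a := (neg_eq_of_add_eq_zero_right h).symm
        rw [h1, u7_neg hv] at hb
        exact lt_irrefl _ hb
      have h1 := hv.add a b ha hb0 hab
      rw [min_eq_left hb.le] at h1
      refine ⟨hab, le_antisymm ?_ h1⟩
      have h2 := hv.add (a + b) (-b) hab (neg_ne_zero.2 hb0) (by rwa [add_neg_cancel_right])
      rw [add_neg_cancel_right, u7_neg hv] at h2
      rcases min_le_iff.1 h2 with h3 | h3
      · exact h3
      · exact absurd h3 (not_le.2 hb)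

end

theorem p_U7 (hU1 : S_U1) (hU5 : S_U5) : S_U7 := by
  classical
  intro F L _ _ _ hFF A c hc hle a ha ha0 hca
  by_contra hnalg
  obtain ⟨π, hπ, hcπ⟩ := hc.unif
  have hπi : c π⁻¹ = -((1 : ℕ) : ℤ) := by
    rw [u7_inv hc.isv hπ, hcπ]
    rfl
  have htr : Transcendental F π⁻¹ := fun h => by
    rw [(hU1 F L).2 ℤ c hc.isv hc.triv _ h] at hπi
    omega
  obtain ⟨d, hd⟩ := hFF _ htr
  obtain ⟨-, f, -, hf⟩ := hU5 F L c hc π⁻¹ 1 d one_pos (inv_ne_zero hπ) hπi hd
  apply hf.2 fun i => a ^ (i : ℕ)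
  intro s hs
  have h1 : ∑ i, algebraMap F L (s i) * a ^ (i : ℕ) =
      aeval a (∑ i, C (s i) * X ^ (i : ℕ) : F[X]) := by
    rw [map_sum]
    exact Finset.sum_congr rfl fun i _ => by rw [map_mul, aeval_C, map_pow, aeval_X]
  have hP : (∑ i, C (s i) * X ^ (i : ℕ) : F[X]) ≠ 0 := by
    intro h
    apply hs
    funext i
    have h2 := congrArg (fun q => coeff q (i : ℕ)) h
    simp only [finsetSum_coeff, coeff_C_mul, coeff_X_pow, coeff_zero] at h2
    rw [Finset.sum_eq_single i] at h2
    · rw [if_pos rfl, mul_one] at h2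
      exact h2
    · intro j _ hj
      rw [if_neg fun h => hj (Fin.ext h.symm), mul_zero]
    · intro h
      exact absurd (Finset.mem_univ i) h
  have h3 : ∑ i, algebraMap F L (s i) * a ^ (i : ℕ) ≠ 0 := by
    rw [h1]
    intro h
    exact hnalg ⟨_, hP, h⟩
  refine ⟨h3, le_antisymm (hle _ (A.sum_mem fun i _ => A.mul_mem (A.algebraMap_mem _)
    (A.pow_mem ha _)) h3) ?_⟩
  have h4 : Ge c 0 (∑ i, algebraMap F L (s i) * a ^ (i : ℕ)) := by
    refine u7_ge_sum hc.isv _ _ fun i _ => ?_
    by_cases hsi : s i = 0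
    · left
      rw [hsi, map_zero, zero_mul]
    · right
      rw [hc.isv.mul _ _ ((_root_.map_ne_zero _).2 hsi) (pow_ne_zero _ ha0), hc.triv, zero_add,
        u7_pow hc.isv ha0]
      exact nsmul_nonneg hca _
  exact h4.resolve_left h3

end Pool.Agent.F2RF
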