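import Pool.Agent.Lib.MP_305fdd_al.F2.RF.Stm

set_option autoImplicit false

namespace Pool.Agent.F2RF

open Polynomial Pool.Agent.F2Ch

private lemma u9_one {L : Type} [Field L] {c : L → ℤ} (hc : IsV c) : c 1 = 0 := by
  have h := hc.mul 1 1 one_ne_zero one_ne_zero
  rw [one_mul] at h
  linarith

private lemma u9_inv {L : Type} [Field L] {c : L → ℤ} (hc : IsV c) {x : L} (hx : x ≠ 0) :
    c x⁻¹ = - c x := by
  have h := hc.mul x x⁻¹ hx (inv_ne_zero hx)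
  rw [mul_inv_cancel₀ hx, u9_one hc] at h
  linarith

private lemma u9_xind {F L : Type} [Field F] [Field L] [Algebra F L] {x : L} (hx : x ≠ 0)
    {ι : Type} [Fintype ι] {b : ι → L} (hb : XInd F x b) : XInd F x⁻¹ b := by
  intro P hP
  obtain ⟨N, hN⟩ : ∃ N : ℕ, ∀ i, (P i).natDegree ≤ N :=
    ⟨Finset.univ.sup fun i => (P i).natDegree,
      fun i => Finset.le_sup (f := fun i => (P i).natDegree) (Finset.mem_univ i)⟩
  have hxi : x⁻¹ ≠ 0 := inv_ne_zero hx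
  let _ : Invertible x⁻¹ := invertibleOfNonzero hxi
  have h1 : ∀ i, aeval x (reflect N (P i)) * x⁻¹ ^ N = aeval x⁻¹ (P i) := by
    intro i
    have h := eval₂_reflect_mul_pow (algebraMap F L) x⁻¹ N (P i) (hN i)
    rw [invOf_eq_inv, inv_inv] at h
    rw [aeval_def, aeval_def]
    exact h
  have h2 : x⁻¹ ^ N * ∑ i, aeval x (reflect N (P i)) * b i = 0 := by
    rw [← hP, Finset.mul_sum]
    refine Finset.sum_congr rfl fun i _ => ?_
    rw [← h1 i]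
    ring
  have h3 : ∑ i, aeval x (reflect N (P i)) * b i = 0 :=
    (mul_eq_zero.mp h2).resolve_left (pow_ne_zero N hxi)
  have h4 := hb (fun i => reflect N (P i)) h3
  funext i
  have h5 := congrFun h4 i
  simpa using h5

private lemma u9_xdeg {F L : Type} [Field F] [Field L] [Algebra F L] {x : L} (hx : x ≠ 0)
    {d : ℕ} (h : XDeg F x d) : XDeg F x⁻¹ d := by
  obtain ⟨⟨b, hb⟩, h2⟩ := h
  refine ⟨⟨b, u9_xind hx hb⟩, fun b' hb' => h2 b' ?_⟩
  have h3 := u9_xind (inv_ne_zero hx) hb'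
  rwa [inv_inv] at h3

private lemma u9_res (hU1 : S_U1) (hU5 : S_U5) {F L : Type} [Field F] [Field L] [Algebra F L]
    (hF : FF1 F L) {c : L → ℤ} (hc : Plc F c) : ∃ f, 0 < f ∧ ResDeg F c f := by
  obtain ⟨π, hπ, h1⟩ := hc.unif
  have hv : c π⁻¹ = -1 := by rw [u9_inv hc.isv hπ, h1]
  have ht : Transcendental F π⁻¹ := by
    intro ha
    have h0 := (hU1 F L).2 ℤ c hc.isv hc.triv _ ha
    rw [hv] at h0
    norm_num at h0
  obtain ⟨d, hd⟩ := hF _ ht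
  exact (hU5 F L c hc π⁻¹ 1 d one_pos (inv_ne_zero hπ) (by rw [hv]; norm_num) hd).2

theorem p_U9 (hU1 : S_U1) (hU4 : S_U4) (hU5 : S_U5) : S_U9 := by
  intro F L _ _ _ hF A hA c₁ c₂ h1 h2 halg
  obtain ⟨m, hm, hm1⟩ := u9_res hU1 hU5 hF h1
  obtain ⟨n, hn, hn1⟩ := u9_res hU1 hU5 hF h2
  refine ⟨m, n, hm, hn, fun a ha ha0 => ?_⟩
  rcases le_or_gt 0 (c₁ a) with h | h
  · have hal := halg a ha ha0 h
    rw [(hU1 F L).2 ℤ c₁ h1.isv h1.triv a hal, (hU1 F L).2 ℤ c₂ h2.isv h2.triv a hal]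
    simp
  · have ht : Transcendental F a := by
      intro hal
      have h0 := (hU1 F L).2 ℤ c₁ h1.isv h1.triv a hal
      omega
    obtain ⟨d, hd⟩ := hF a ht
    have hmZ : (0 : ℤ) < m := by exact_mod_cast hm
    have hnZ : (0 : ℤ) < n := by exact_mod_cast hn
    rcases le_or_gt (c₂ a) 0 with h' | h'
    · have e1 : (m : ℤ) * c₁ a ≤ 0 := mul_nonpos_of_nonneg_of_nonpos hmZ.le h.le
      have e2 : (n : ℤ) * c₂ a ≤ 0 := mul_nonpos_of_nonneg_of_nonpos hnZ.le h'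
      linarith
    · obtain ⟨e, he⟩ : ∃ e : ℕ, c₁ a = -(e : ℤ) := ⟨(-c₁ a).toNat, by omega⟩
      obtain ⟨e', he'⟩ : ∃ e' : ℕ, c₂ a = (e' : ℤ) := ⟨(c₂ a).toNat, by omega⟩
      have hd1 : d ≤ e * m := hU4 F L A hA c₁ h1 halg a e m d ha ht he hm1 hd
      have hd2 : e' * n ≤ d := by
        refine (hU5 F L c₂ h2 a⁻¹ e' d (by omega) (inv_ne_zero ha0) ?_ (u9_xdeg ha0 hd)).1 n hn1
        rw [u9_inv h2.isv ha0, he']
      have h3 : ((e' * n : ℕ) : ℤ) ≤ ((e * m : ℕ) : ℤ) := by exact_mod_cast hd2.trans hd1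
      push_cast at h3
      rw [he, he']
      nlinarith

end Pool.Agent.F2RF
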