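import Pool.Agent.Lib.MP_305fdd_al.F2.RF.Stm

set_option autoImplicit false
set_option linter.unusedSectionVars false

namespace Pool.Agent.F2RF

open Polynomial Pool.Agent.F2Ch

section
variable {p : ℕ} [Fact p.Prime] {K : Type} [Field K] [CharP K p] {d : ℕ} {t : Fin d → K}
  {π : (Fin d → Fin p) → K → K}

/-- the diagonal map with the eigenvalues `c a` -/
noncomputable def w1a_D (p : ℕ) {K : Type} [Field K] {d : ℕ} (t : Fin d → K)
    (π : (Fin d → Fin p) → K → K) (c : (Fin d → Fin p) → K) (f : K) : K :=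
  ∑ a, c a * (π a f ^ p * monY (p := p) t a)

omit [Fact p.Prime] [CharP K p] in
theorem w1a_ext (h : MB p t π) {f g : K} (hfg : ∀ a, π a f = π a g) : f = g := by
  rw [← h.pb.repr f, ← h.pb.repr g]
  exact Finset.sum_congr rfl fun a _ => by rw [hfg a]

theorem w1a_add (h : MB p t π) (a : Fin d → Fin p) (f g : K) : π a (f + g) = π a f + π a g := by
  have h1 : f + g = ∑ b, (π b f + π b g) ^ p * monY (p := p) t b := by
    conv_lhs => rw [← h.pb.repr f, ← h.pb.repr g]
    rw [← Finset.sum_add_distrib]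
    refine Finset.sum_congr rfl fun b _ => ?_
    rw [add_pow_char]
    ring
  rw [h1, h.pb.uniq (fun b => π b f + π b g) a]

omit [Fact p.Prime] [CharP K p] in
theorem w1a_pow (h : MB p t π) (a : Fin d → Fin p) (c f : K) : π a (c ^ p * f) = c * π a f := by
  have h1 : c ^ p * f = ∑ b, (c * π b f) ^ p * monY (p := p) t b := by
    conv_lhs => rw [← h.pb.repr f]
    rw [Finset.mul_sum]
    refine Finset.sum_congr rfl fun b _ => ?_
    rw [mul_pow]
    ring
  rw [h1, h.pb.uniq (fun b => c * π b f) a]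

theorem w1a_zero (h : MB p t π) (a : Fin d → Fin p) : π a 0 = 0 := by
  have := w1a_add h a 0 0
  rw [add_zero] at this
  exact left_eq_add.1 this

omit [CharP K p] in
theorem w1a_mon (h : MB p t π) (a b : Fin d → Fin p) :
    π a (monY (p := p) t b) = if a = b then 1 else 0 := by
  classical
  have hp : p ≠ 0 := (Fact.out : p.Prime).ne_zero
  have h1 : monY (p := p) t b = ∑ a, (if a = b then (1 : K) else 0) ^ p * monY (p := p) t a := by
    rw [Finset.sum_eq_single b]
    · simp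
    · intro a _ ha
      rw [if_neg ha, zero_pow hp, zero_mul]
    · intro hb; exact absurd (Finset.mem_univ b) hb
  conv_lhs => rw [h1]
  rw [h.pb.uniq (fun a => if a = b then (1 : K) else 0) a]

theorem w1a_Dcoord (h : MB p t π) {c : (Fin d → Fin p) → K} (hc : ∀ a, c a ^ p = c a)
    (a : Fin d → Fin p) (f : K) : π a (w1a_D p t π c f) = c a * π a f := by
  have h1 : w1a_D p t π c f = ∑ b, (c b * π b f) ^ p * monY (p := p) t b := by
    rw [w1a_D]
    refine Finset.sum_congr rfl fun b _ => ?_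
    rw [mul_pow, hc b, mul_assoc]
  rw [h1, h.pb.uniq (fun b => c b * π b f) a]

theorem w1a_Dadd (h : MB p t π) {c : (Fin d → Fin p) → K} (hc : ∀ a, c a ^ p = c a) (f g : K) :
    w1a_D p t π c (f + g) = w1a_D p t π c f + w1a_D p t π c g := by
  apply w1a_ext h
  intro a
  rw [w1a_add h, w1a_Dcoord h hc, w1a_Dcoord h hc, w1a_Dcoord h hc, w1a_add h, mul_add]

theorem w1a_Dpow (h : MB p t π) {c : (Fin d → Fin p) → K} (hc : ∀ a, c a ^ p = c a) (e f : K) :
    w1a_D p t π c (e ^ p * f) = e ^ p * w1a_D p t π c f := by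
  apply w1a_ext h
  intro a
  rw [w1a_pow h, w1a_Dcoord h hc, w1a_Dcoord h hc, w1a_pow h]
  ring

theorem w1a_Dmon (h : MB p t π) {c : (Fin d → Fin p) → K} (hc : ∀ a, c a ^ p = c a)
    (b : Fin d → Fin p) : w1a_D p t π c (monY (p := p) t b) = c b * monY (p := p) t b := by
  apply w1a_ext h
  intro a
  rw [← hc b, w1a_pow h, w1a_Dcoord h hc, w1a_mon h]
  split_ifs with hab
  · rw [hab]
  · simp

/-- `w1a_D` as an additive map -/
noncomputable def w1a_H (h : MB p t π) {c : (Fin d → Fin p) → K} (hc : ∀ a, c a ^ p = c a) :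
    K →+ K := AddMonoidHom.mk' (w1a_D p t π c) (w1a_Dadd h hc)

omit [CharP K p] in
theorem w1a_mm (a b : Fin d → Fin p) : monY (p := p) t a * monY (p := p) t b =
    (∏ j, t j ^ (((a j : ℕ) + (b j : ℕ)) / p)) ^ p * monY (p := p) t (a + b) := by
  rw [monY, monY, monY, ← Finset.prod_mul_distrib, ← Finset.prod_pow, ← Finset.prod_mul_distrib]
  refine Finset.prod_congr rfl fun j _ => ?_
  rw [← pow_add, ← pow_mul, ← pow_add, Pi.add_apply, Fin.val_add]
  congr 1
  rw [mul_comm]
  exact (Nat.div_add_mod _ _).symm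

theorem w1a_Dmm (h : MB p t π) {c : (Fin d → Fin p) → K} (hc : ∀ a, c a ^ p = c a)
    (a b : Fin d → Fin p) : w1a_D p t π c (monY (p := p) t a * monY (p := p) t b) =
      c (a + b) * (monY (p := p) t a * monY (p := p) t b) := by
  rw [w1a_mm, w1a_Dpow h hc, w1a_Dmon h hc]
  ring

theorem w1a_Dmul (h : MB p t π) {c : (Fin d → Fin p) → K} (hc : ∀ a, c a ^ p = c a) (f g : K) :
    w1a_D p t π c (f * g) = ∑ a, ∑ b, c (a + b) *
      ((π a f ^ p * monY (p := p) t a) * (π b g ^ p * monY (p := p) t b)) := by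
  conv_lhs => rw [← h.pb.repr f, ← h.pb.repr g, Finset.sum_mul_sum]
  change w1a_H h hc _ = _
  rw [map_sum]
  refine Finset.sum_congr rfl fun a _ => ?_
  rw [map_sum]
  refine Finset.sum_congr rfl fun b _ => ?_
  change w1a_D p t π c _ = _
  rw [show π a f ^ p * monY (p := p) t a * (π b g ^ p * monY (p := p) t b) =
    (π a f * π b g) ^ p * (monY (p := p) t a * monY (p := p) t b) by rw [mul_pow]; ring,
    w1a_Dpow h hc, w1a_Dmm h hc]
  ring

end

theorem p_W1a : S_W1a := by
  classical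
  intro p _ K _ _ d t π h i
  have hp : p ≠ 0 := (Fact.out : p.Prime).ne_zero
  have hc1 : ∀ a : Fin d → Fin p, (((a i : ℕ) : K)) ^ p = ((a i : ℕ) : K) := fun a => by
    rw [← frobenius_def, map_natCast]
  have hc2 : ∀ a : Fin d → Fin p, (if (a i : ℕ) = 0 then (1 : K) else 0) ^ p =
      if (a i : ℕ) = 0 then (1 : K) else 0 := fun a => by
    split_ifs
    · exact one_pow p
    · exact zero_pow hp
  have e1 : der p t π i = w1a_D p t π (fun a => ((a i : ℕ) : K)) := rfl
  have e2 : prj p t π i = w1a_D p t π (fun a => if (a i : ℕ) = 0 then (1 : K) else 0) := by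
    funext f
    rw [prj, w1a_D]
    refine Finset.sum_congr rfl fun a _ => ?_
    by_cases hai : (a i : ℕ) = 0
    · rw [if_pos hai]; simp [hai]
    · rw [if_neg hai]; simp [hai]
  have hne : ∀ a : Fin d → Fin p, (a i : ℕ) ≠ 0 → ((a i : ℕ) : K) ≠ 0 := by
    intro a ha h0
    have := (CharP.cast_eq_zero_iff K p _).1 h0
    exact ha (Nat.eq_zero_of_dvd_of_lt this (a i).2)
  have hz : ∀ z, der p t π i z = 0 → ∀ a : Fin d → Fin p, (a i : ℕ) ≠ 0 → π a z = 0 := by
    intro z hz a ha
    have h1 := w1a_Dcoord h hc1 a z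
    rw [← e1, hz, w1a_zero h] at h1
    exact (mul_eq_zero.1 h1.symm).resolve_left (hne a ha)
  have hsum : ∀ f g : K, f * g = ∑ a, ∑ b,
      ((π a f ^ p * monY (p := p) t a) * (π b g ^ p * monY (p := p) t b)) := by
    intro f g
    rw [← Finset.sum_mul_sum, h.pb.repr f, h.pb.repr g]
  refine ⟨fun f g => ?_, fun f g => ?_, fun c => ?_, fun a f => ?_, fun f g => ?_, fun z f hzz => ?_,
    fun f => ?_, fun f => ?_, fun z hzz => ?_, fun f => ?_, fun a => ?_⟩
  · rw [e1]; exact w1a_Dadd h hc1 f g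
  · have h2 := hsum (der p t π i f) g
    have h3 := hsum f (der p t π i g)
    rw [mul_comm g, h2, h3, e1, w1a_Dmul h hc1, ← Finset.sum_add_distrib]
    refine Finset.sum_congr rfl fun a _ => ?_
    rw [← Finset.sum_add_distrib]
    refine Finset.sum_congr rfl fun b _ => ?_
    rw [w1a_Dcoord h hc1, w1a_Dcoord h hc1, mul_pow, mul_pow, hc1, hc1]
    have h4 : ((((a + b) i : Fin p) : ℕ) : K) = ((a i : ℕ) : K) + ((b i : ℕ) : K) := by
      rw [Pi.add_apply, Fin.val_add, ← Nat.cast_add]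
      exact (CharP.natCast_eq_natCast' K p (Nat.mod_modEq _ _))
    rw [h4]
    ring
  · rw [e1, ← mul_one (c ^ p), w1a_Dpow h hc1]
    have h5 : monY (p := p) t j0 = 1 := by simp [monY, j0]
    rw [← h5, w1a_Dmon h hc1]
    simp [j0]
  · rw [e1]; exact w1a_Dcoord h hc1 a f
  · rw [e2]; exact w1a_Dadd h hc2 f g
  · have h3 := hsum z (prj p t π i f)
    rw [h3, e2, w1a_Dmul h hc2]
    refine Finset.sum_congr rfl fun a _ => ?_
    refine Finset.sum_congr rfl fun b _ => ?_
    rw [w1a_Dcoord h hc2]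
    by_cases ha : (a i : ℕ) = 0
    · have h6 : (((a + b) i : Fin p) : ℕ) = (b i : ℕ) := by
        rw [Pi.add_apply, Fin.val_add, ha, zero_add, Nat.mod_eq_of_lt (b i).2]
      rw [h6, mul_pow, hc2]
      ring
    · rw [hz z hzz a ha, zero_pow hp]
      ring
  · apply w1a_ext h
    intro a
    rw [e2, w1a_Dcoord h hc2, e1, w1a_Dcoord h hc1, w1a_zero h]
    by_cases ha : (a i : ℕ) = 0 <;> simp [ha]
  · apply w1a_ext h
    intro a
    rw [e1, w1a_Dcoord h hc1, e2, w1a_Dcoord h hc2, w1a_zero h]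
    by_cases ha : (a i : ℕ) = 0 <;> simp [ha]
  · apply w1a_ext h
    intro a
    rw [e2, w1a_Dcoord h hc2]
    by_cases ha : (a i : ℕ) = 0
    · simp [ha]
    · simp [ha, hz z hzz a ha]
  · rw [e2, w1a_Dcoord h hc2]
    simp [j0]
  · rw [e1]; exact w1a_Dmon h hc1 a

end Pool.Agent.F2RF
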