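import Pool.Agent.Lib.MP_305fdd_al.F2.RF.Stm

/-!
# MP_305fdd_al, F_2 project, section RF, piece W1b
-/

set_option autoImplicit false

namespace Pool.Agent.F2RF

open Polynomial Pool.Agent.F2Ch

/-- the binomial formula for the exponent `p - 1` in characteristic `p` -/
private theorem w1b_geom {K : Type} [Field K] (p : ℕ) [Fact p.Prime] [CharP K p] (u v : K)
    (h : u + v ≠ 0) :
    (u + v) ^ (p - 1) = ∑ j ∈ Finset.range p, (-u) ^ j * v ^ (p - 1 - j) := by
  have hp : 0 < p := (Fact.out : p.Prime).pos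
  have h1 := (Commute.all (-u) v).geom_sum₂_mul p
  have h2 : (-u) ^ p = -(u ^ p) := by
    rw [neg_pow, neg_one_pow_char K p, neg_one_mul]
  have h3 : (∑ j ∈ Finset.range p, (-u) ^ j * v ^ (p - 1 - j)) * (u + v) = (u + v) ^ p := by
    rw [add_pow_char]
    have : (∑ j ∈ Finset.range p, (-u) ^ j * v ^ (p - 1 - j)) * (u + v) =
        -((∑ j ∈ Finset.range p, (-u) ^ j * v ^ (p - 1 - j)) * (-u - v)) := by ring
    rw [this, h1, h2]
    ring
  have h4 : (u + v) ^ p = (u + v) ^ (p - 1) * (u + v) := by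
    rw [← pow_succ, Nat.sub_add_cancel hp]
  rw [h4] at h3
  exact (mul_right_cancel₀ h h3).symm

private theorem w1b_neg_one {K : Type} [Field K] (p : ℕ) [Fact p.Prime] [CharP K p] :
    (-1 : K) ^ (p - 1) = 1 := by
  have hp : 0 < p := (Fact.out : p.Prime).pos
  have h1 : (-1 : K) ^ (p - 1) * (-1) = -1 := by
    rw [← pow_succ, Nat.sub_add_cancel hp, neg_one_pow_char K p]
  have h2 : (-1 : K) ^ (p - 1) * (-1) = 1 * (-1) := by rw [h1, one_mul]
  exact mul_right_cancel₀ (neg_ne_zero.2 one_ne_zero) h2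

section

variable {K : Type} [Field K] {D E : K → K}

private theorem w1b_map_zero (hadd : ∀ f g, D (f + g) = D f + D g) : D 0 = 0 := by
  have h := hadd 0 0
  rw [add_zero] at h
  exact left_eq_add.1 h

private theorem w1b_map_neg (hadd : ∀ f g, D (f + g) = D f + D g) (f : K) : D (-f) = -D f := by
  have h := hadd f (-f)
  rw [add_neg_cancel, w1b_map_zero hadd] at h
  exact (neg_eq_of_add_eq_zero_right h.symm).symm

private theorem w1b_map_sum (hadd : ∀ f g, D (f + g) = D f + D g) {ι : Type} (s : Finset ι)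
    (f : ι → K) : D (∑ i ∈ s, f i) = ∑ i ∈ s, D (f i) := by
  classical
  induction s using Finset.induction_on with
  | empty => rw [Finset.sum_empty, Finset.sum_empty, w1b_map_zero hadd]
  | insert a s ha ih => rw [Finset.sum_insert ha, Finset.sum_insert ha, hadd, ih]

private theorem w1b_pow (hleib : ∀ f g, D (f * g) = f * D g + g * D f) (u : K)
    (m : ℕ) : D (u ^ (m + 1)) = ((m + 1 : ℕ) : K) * u ^ m * D u := by
  induction m with
  | zero => simp
  | succ m ih =>
    rw [pow_succ u (m + 1), hleib, ih]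
    push_cast
    ring

end

/-- additivity of `u ↦ D (u ^ (p - 1) * ∂ u)` -/
private theorem w1b_add {K : Type} [Field K] (p : ℕ) [Fact p.Prime] [CharP K p] (D E : K → K)
    (hDadd : ∀ f g, D (f + g) = D f + D g) (hleib : ∀ f g, D (f * g) = f * D g + g * D f)
    (hEadd : ∀ f g, E (f + g) = E f + E g) (hED : ∀ f, E (D f) = 0)
    (hlin : ∀ z f, D z = 0 → E (z * f) = z * E f) (u v : K) :
    E ((u + v) ^ (p - 1) * D (u + v)) = E (u ^ (p - 1) * D u) + E (v ^ (p - 1) * D v) := by
  have hp : 0 < p := (Fact.out : p.Prime).pos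
  have hD1 : D 1 = 0 := by
    have h := hleib 1 1
    rw [one_mul, one_mul] at h
    exact left_eq_add.1 h
  have hnat : ∀ m : ℕ, D ((m : K)) = 0 := by
    intro m
    induction m with
    | zero => rw [Nat.cast_zero, w1b_map_zero hDadd]
    | succ m ih => rw [Nat.cast_succ, hDadd, ih, hD1, add_zero]
  obtain ⟨q, hq⟩ : ∃ q, p = q + 1 := ⟨p - 1, (Nat.sub_add_cancel hp).symm⟩
  have hq' : p - 1 = q := by omega
  by_cases h : u + v = 0
  · have hv : v = -u := (neg_eq_of_add_eq_zero_right h).symm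
    rw [h, w1b_map_zero hDadd, mul_zero, w1b_map_zero hEadd, hv, neg_pow, w1b_neg_one p, one_mul,
      w1b_map_neg hDadd, mul_neg, w1b_map_neg hEadd, add_neg_cancel]
  · rw [w1b_geom p u v h, hDadd, mul_add, hEadd, Finset.sum_mul, Finset.sum_mul,
      w1b_map_sum hEadd, w1b_map_sum hEadd, hq', hq, Finset.sum_range_succ,
      Finset.sum_range_succ' (fun j => E ((-u) ^ j * v ^ (q - j) * D v))]
    have hstep : ∀ j ∈ Finset.range q, E ((-u) ^ j * v ^ (q - j) * D u) +
        E ((-u) ^ (j + 1) * v ^ (q - (j + 1)) * D v) = 0 := by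
      intro j hj
      rw [Finset.mem_range] at hj
      obtain ⟨m, hm⟩ : ∃ m, q - j = m + 1 := ⟨q - j - 1, by omega⟩
      have hm' : q - (j + 1) = m := by omega
      rw [hm, hm', ← hEadd]
      have hcast : ((m + 1 : ℕ) : K) = -((j + 1 : ℕ) : K) := by
        have h1 : ((m + 1 + (j + 1) : ℕ) : K) = 0 := by
          have h2 : m + 1 + (j + 1) = p := by omega
          rw [h2]
          exact CharP.cast_eq_zero K p
        rw [Nat.cast_add] at h1
        exact eq_neg_of_add_eq_zero_left h1
      have hj0 : ((j + 1 : ℕ) : K) ≠ 0 := by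
        intro h0
        rw [CharP.cast_eq_zero_iff K p] at h0
        have := Nat.le_of_dvd (Nat.succ_pos j) h0
        omega
      have h1 : D ((-u) ^ (j + 1) * v ^ (m + 1)) =
          (-((j + 1 : ℕ) : K)) * ((-u) ^ j * v ^ (m + 1) * D u + (-u) ^ (j + 1) * v ^ m * D v) := by
        rw [hleib, w1b_pow hleib, w1b_pow hleib, w1b_map_neg hDadd, hcast]
        ring
      have h2 := hED ((-u) ^ (j + 1) * v ^ (m + 1))
      have h3 : D (-((j + 1 : ℕ) : K)) = 0 := by
        rw [w1b_map_neg hDadd, hnat, neg_zero]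
      rw [h1, hlin _ _ h3] at h2
      exact (mul_eq_zero.1 h2).resolve_left (neg_ne_zero.2 hj0)
    have hsum := Finset.sum_eq_zero hstep
    rw [Finset.sum_add_distrib] at hsum
    have hlast : (-u) ^ q = u ^ q := by
      have h4 := w1b_neg_one (K := K) p
      rw [hq'] at h4
      rw [neg_pow, h4, one_mul]
    rw [Nat.sub_self, pow_zero, mul_one, hlast, pow_zero, one_mul, Nat.sub_zero]
    linear_combination hsum

theorem p_W1b (hW1a : S_W1a) : S_W1b := by
  intro p _ K _ _ d t π hMB i
  obtain ⟨hDadd, hleib, hpow, -, hEadd, hlin, hED, -, hEc, -, hmon⟩ := hW1a p K d t π hMB i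
  set D := der p t π i with hD
  set E := prj p t π i with hE
  have hp : 0 < p := (Fact.out : p.Prime).pos
  have hfermat : ∀ m : ℕ, ((m : ℕ) : K) ^ p = (m : K) := by
    intro m
    have h := map_natCast (frobenius K p) m
    rwa [frobenius_def] at h
  have hG0 : E (0 ^ (p - 1) * D 0) = D 0 ^ p := by
    rw [w1b_map_zero hDadd, mul_zero, w1b_map_zero hEadd, zero_pow hp.ne']
  have hGadd : ∀ u v, E (u ^ (p - 1) * D u) = D u ^ p → E (v ^ (p - 1) * D v) = D v ^ p →
      E ((u + v) ^ (p - 1) * D (u + v)) = D (u + v) ^ p := by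
    intro u v hu hv
    rw [w1b_add p D E hDadd hleib hEadd hED hlin, hu, hv, hDadd, add_pow_char]
  have hGmon : ∀ (c : K) (a : Fin d → Fin p),
      E ((c ^ p * monY (p := p) t a) ^ (p - 1) * D (c ^ p * monY (p := p) t a)) =
        D (c ^ p * monY (p := p) t a) ^ p := by
    intro c a
    have h1 : D (c ^ p * monY (p := p) t a) = c ^ p * (((a i : ℕ) : K) * monY (p := p) t a) := by
      rw [hleib, hpow, mul_zero, add_zero, hmon]
    have h2 : (c ^ p * monY (p := p) t a) ^ (p - 1) *
        (c ^ p * (((a i : ℕ) : K) * monY (p := p) t a)) =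
        (c ^ p * (((a i : ℕ) : K) * monY (p := p) t a)) ^ p := by
      have h3 : (c ^ p * monY (p := p) t a) ^ (p - 1) *
          (c ^ p * (((a i : ℕ) : K) * monY (p := p) t a)) =
          ((a i : ℕ) : K) * (c ^ p * monY (p := p) t a) ^ p := by
        obtain ⟨q, hq⟩ : ∃ q, p = q + 1 := ⟨p - 1, (Nat.sub_add_cancel hp).symm⟩
        have hq' : p - 1 = q := by omega
        rw [hq']
        conv_rhs => rw [show (c ^ p * monY (p := p) t a) ^ p =
          (c ^ p * monY (p := p) t a) ^ (q + 1) from congrArg _ hq, pow_succ]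
        ring
      rw [h3, mul_left_comm, mul_pow (((a i : ℕ) : K)), hfermat]
    rw [h1, h2]
    exact hEc _ (hpow _)
  have hGsum : ∀ (s : Finset (Fin d → Fin p)) (c : (Fin d → Fin p) → K),
      E ((∑ a ∈ s, c a ^ p * monY (p := p) t a) ^ (p - 1) *
        D (∑ a ∈ s, c a ^ p * monY (p := p) t a)) =
        D (∑ a ∈ s, c a ^ p * monY (p := p) t a) ^ p := by
    classical
    intro s c
    induction s using Finset.induction_on with
    | empty =>
      rw [Finset.sum_empty]
      exact hG0
    | insert a s ha ih =>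
      rw [Finset.sum_insert ha]
      exact hGadd _ _ (hGmon _ _) ih
  intro u
  have h := hGsum Finset.univ (fun a => π a u)
  rw [hMB.pb.repr u] at h
  exact h

end Pool.Agent.F2RF
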