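import Pool.Agent.Lib.MP_305fdd_al.F2.RF.Stm
import Pool.Agent.Lib.MP_305fdd_al.F2.ChStm

/-! # MP_305fdd_al, F_2 project: piece [F2RF W1c] (helper58) -/

set_option autoImplicit false

namespace Pool.Agent.F2RF

open Polynomial Pool.Agent.F2Ch

/-- The calculus of `dd`, `D` with the functions `u ^ n`. -/
private theorem w1c_abs {p : ℕ} [Fact p.Prime] {K : Type} [Field K] [CharP K p] (dd D : K → K)
    (h1 : ∀ f g, dd (f + g) = dd f + dd g) (h2 : ∀ f g, dd (f * g) = f * dd g + g * dd f)
    (h3 : ∀ c, dd (c ^ p) = 0) (h6 : ∀ z f, dd z = 0 → D (z * f) = z * D f)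
    (h7 : ∀ f, D (dd f) = 0) (u : K) (hu : dd u ≠ 0) (hb : D (u ^ (p - 1) * dd u) = dd u ^ p) :
    u ≠ 0 ∧ ∀ m n : ℕ, m < p → n < p →
      ((dd u / u)⁻¹) ^ p * D ((dd u / u) * (u ^ m)⁻¹ * u ^ n) = if n = m then 1 else 0 := by
  have hp : p.Prime := Fact.out
  have h0 : dd 0 = 0 := by
    have h := h1 0 0
    rw [add_zero] at h
    exact left_eq_add.1 h
  have hu0 : u ≠ 0 := by
    rintro rfl
    exact hu h0
  have h1' : dd 1 = 0 := by
    have h := h3 1
    rwa [one_pow] at h
  have hnat : ∀ n : ℕ, dd (n : K) = 0 := by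
    intro n
    induction n with
    | zero => rw [Nat.cast_zero, h0]
    | succ n ih => rw [Nat.cast_succ, h1, ih, h1', add_zero]
  have hpow : ∀ n : ℕ, dd (u ^ (n + 1)) = ((n + 1 : ℕ) : K) * (u ^ n * dd u) := by
    intro n
    induction n with
    | zero => rw [zero_add, pow_one, pow_zero, Nat.cast_one, one_mul, one_mul]
    | succ n ih =>
      rw [pow_succ u (n + 1), h2, ih]
      push_cast
      ring
  have hJ0 : dd u / u ≠ 0 := div_ne_zero hu hu0
  have hz : ∀ n, 0 < n → n < p → D ((dd u / u) * u ^ n) = 0 := by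
    intro n hn hnp
    obtain ⟨k, rfl⟩ : ∃ k, n = k + 1 := ⟨n - 1, by omega⟩
    have hk : ((k + 1 : ℕ) : K) ≠ 0 := by
      intro h
      rw [CharP.cast_eq_zero_iff K p] at h
      exact absurd (Nat.le_of_dvd (Nat.succ_pos k) h) (not_le.2 hnp)
    have e : ((k + 1 : ℕ) : K) * ((dd u / u) * u ^ (k + 1)) = dd (u ^ (k + 1)) := by
      rw [hpow, pow_succ]
      field_simp
    have h := h6 ((k + 1 : ℕ) : K) ((dd u / u) * u ^ (k + 1)) (hnat _)
    rw [e, h7] at h
    exact (mul_eq_zero.1 h.symm).resolve_left hk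
  have hJ : D (dd u / u) = (dd u / u) ^ p := by
    have e1 : u ^ p = u ^ (p - 1) * u := by
      rw [← pow_succ, Nat.sub_add_cancel hp.one_le]
    have e : dd u / u = (u⁻¹) ^ p * (u ^ (p - 1) * dd u) := by
      rw [inv_pow, e1]
      have : u ^ (p - 1) ≠ 0 := pow_ne_zero _ hu0
      field_simp
    have h := h6 ((u⁻¹) ^ p) (u ^ (p - 1) * dd u) (h3 _)
    rw [← e, hb] at h
    rw [h, div_pow, inv_pow, mul_comm, div_eq_mul_inv]
  refine ⟨hu0, fun m n hm hn => ?_⟩
  rcases lt_trichotomy n m with h | h | h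
  · rw [if_neg (Nat.ne_of_lt h)]
    have hk : p + n = m + (p + n - m) := by omega
    have e2 : u ^ p * u ^ n = u ^ m * u ^ (p + n - m) := by
      rw [← pow_add, ← pow_add, ← hk]
    have e : (dd u / u) * (u ^ m)⁻¹ * u ^ n =
        (u⁻¹) ^ p * ((dd u / u) * u ^ (p + n - m)) := by
      have hp1 : u ^ p ≠ 0 := pow_ne_zero _ hu0
      have hm1 : u ^ m ≠ 0 := pow_ne_zero _ hu0
      calc (dd u / u) * (u ^ m)⁻¹ * u ^ n
          = (dd u / u) * ((u ^ m)⁻¹ * (u ^ p)⁻¹ * (u ^ p * u ^ n)) := by field_simp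
        _ = (dd u / u) * ((u ^ m)⁻¹ * (u ^ p)⁻¹ * (u ^ m * u ^ (p + n - m))) := by rw [e2]
        _ = (u⁻¹) ^ p * ((dd u / u) * u ^ (p + n - m)) := by
          rw [inv_pow]
          field_simp
    rw [e, h6 _ _ (h3 _), hz _ (by omega) (by omega), mul_zero, mul_zero]
  · rw [if_pos h, h, mul_assoc, inv_mul_cancel₀ (pow_ne_zero _ hu0), mul_one, hJ, ← mul_pow,
      inv_mul_cancel₀ hJ0, one_pow]
  · rw [if_neg (Nat.ne_of_gt h)]
    have e : (dd u / u) * (u ^ m)⁻¹ * u ^ n = (dd u / u) * u ^ (n - m) := by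
      have hk : u ^ n = u ^ m * u ^ (n - m) := by
        rw [← pow_add]
        congr 1
        omega
      rw [hk, mul_assoc, ← mul_assoc (u ^ m)⁻¹, inv_mul_cancel₀ (pow_ne_zero _ hu0), one_mul]
    rw [e, hz _ (by omega) (by omega), mul_zero]

private theorem w1c_mon {p : ℕ} [NeZero p] {K : Type} [Field K] {d : ℕ} (t : Fin d → K)
    (i : Fin d) (u : K) (b : Fin d → Fin p) :
    monY (p := p) (Function.update t i u) b =
      u ^ (b i : ℕ) * monY (p := p) t (Function.update b i ⟨0, NeZero.pos p⟩) := by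
  unfold monY
  rw [← Finset.mul_prod_erase Finset.univ _ (Finset.mem_univ i),
    ← Finset.mul_prod_erase Finset.univ (fun j => t j ^
      ((Function.update b i ⟨0, NeZero.pos p⟩ j : Fin p) : ℕ)) (Finset.mem_univ i)]
  rw [Function.update_self, Function.update_self]
  have e : ∏ x ∈ Finset.univ.erase i, Function.update t i u x ^ (b x : ℕ) =
      ∏ x ∈ Finset.univ.erase i, t x ^
        ((Function.update b i ⟨0, NeZero.pos p⟩ x : Fin p) : ℕ) := by
    refine Finset.prod_congr rfl fun x hx => ?_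
    have hx' : x ≠ i := Finset.ne_of_mem_erase hx
    rw [Function.update_of_ne hx', Function.update_of_ne hx']
  rw [e]
  show _ = u ^ (b i : ℕ) * (t i ^ 0 * _)
  rw [pow_zero, one_mul]

theorem p_W1c (hW1a : S_W1a) (hW1b : S_W1b) (hB1 : S_B1) : S_W1c := by
  intro p _ K _ _ d t π hMB i u hu
  have hp : p.Prime := Fact.out
  obtain ⟨a1, a2, a3, -, a5, a6, a7, -, -, a10, a11⟩ := hW1a p K d t π hMB i
  have hb := hW1b p K d t π hMB i u
  obtain ⟨hu0, hE⟩ := w1c_abs (der p t π i) (prj p t π i) a1 a2 a3 a6 a7 u hu hb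
  set J := der p t π i u / u with hJdef
  have hJ0 : J ≠ 0 := div_ne_zero hu hu0
  -- the coordinates
  have hπ0 : ∀ a, π a 0 = 0 := by
    intro a
    have h := hMB.pb.uniq (fun _ => (0 : K)) a
    simp only [zero_pow hp.ne_zero, zero_mul, Finset.sum_const_zero] at h
    exact h
  have hπJ : ∀ a c f, π a (c ^ p * f) = c * π a f := by
    intro a c f
    have h := hMB.pb.uniq (fun a => c * π a f) a
    have e : ∑ j, (c * π j f) ^ p * monY (p := p) t j = c ^ p * f := by
      conv_rhs => rw [← hMB.pb.repr f, Finset.mul_sum]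
      exact Finset.sum_congr rfl fun j _ => by rw [mul_pow, mul_assoc]
    rwa [e] at h
  -- additivity of `D` over sums
  have hDsum : ∀ F : (Fin d → Fin p) → K, prj p t π i (∑ b, F b) = ∑ b, prj p t π i (F b) := by
    intro F
    exact map_sum (AddMonoidHom.mk' (prj p t π i) a5) F Finset.univ
  -- the key formula
  have key : ∀ (m : Fin p) (c : (Fin d → Fin p) → K),
      (J⁻¹) ^ p * prj p t π i (J * (u ^ (m : ℕ))⁻¹ *
        ∑ b, c b ^ p * monY (p := p) (Function.update t i u) b) =
      ∑ a, (if (a i : ℕ) = 0 then c (Function.update a i m) else 0) ^ p * monY (p := p) t a := by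
    intro m c
    rw [Finset.mul_sum, hDsum, Finset.mul_sum]
    have hterm : ∀ b : Fin d → Fin p,
        (J⁻¹) ^ p * prj p t π i (J * (u ^ (m : ℕ))⁻¹ *
          (c b ^ p * monY (p := p) (Function.update t i u) b)) =
        if (b i : ℕ) = m then c b ^ p *
          monY (p := p) t (Function.update b i ⟨0, NeZero.pos p⟩) else 0 := by
      intro b
      have hz : der p t π i (monY (p := p) t (Function.update b i ⟨0, NeZero.pos p⟩)) = 0 := by
        rw [a11, Function.update_self]
        show ((0 : ℕ) : K) * _ = 0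
        rw [Nat.cast_zero, zero_mul]
      have hc : der p t π i (c b ^ p *
          monY (p := p) t (Function.update b i ⟨0, NeZero.pos p⟩)) = 0 := by
        rw [a2, hz, a3, mul_zero, mul_zero, add_zero]
      have e : J * (u ^ (m : ℕ))⁻¹ * (c b ^ p * monY (p := p) (Function.update t i u) b) =
          (c b ^ p * monY (p := p) t (Function.update b i ⟨0, NeZero.pos p⟩)) *
            (J * (u ^ (m : ℕ))⁻¹ * u ^ (b i : ℕ)) := by
        rw [w1c_mon]
        ring
      rw [e, a6 _ _ hc]
      have h := hE (m : ℕ) (b i : ℕ) m.2 (b i).2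
      calc (J⁻¹) ^ p * (c b ^ p * monY (p := p) t (Function.update b i ⟨0, NeZero.pos p⟩) *
            prj p t π i (J * (u ^ (m : ℕ))⁻¹ * u ^ (b i : ℕ)))
          = (c b ^ p * monY (p := p) t (Function.update b i ⟨0, NeZero.pos p⟩)) *
            ((J⁻¹) ^ p * prj p t π i (J * (u ^ (m : ℕ))⁻¹ * u ^ (b i : ℕ))) := by ring
        _ = _ := by
          rw [h]
          split_ifs
          · rw [mul_one]
          · rw [mul_zero]
    rw [Finset.sum_congr rfl fun b _ => hterm b]
    have hR : ∀ a : Fin d → Fin p,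
        (if (a i : ℕ) = 0 then c (Function.update a i m) else 0) ^ p * monY (p := p) t a =
        if (a i : ℕ) = 0 then c (Function.update a i m) ^ p * monY (p := p) t a else 0 := by
      intro a
      split_ifs
      · rfl
      · rw [zero_pow hp.ne_zero, zero_mul]
    rw [Finset.sum_congr rfl fun a _ => hR a, ← Finset.sum_filter, ← Finset.sum_filter]
    refine Finset.sum_nbij' (fun b => Function.update b i ⟨0, NeZero.pos p⟩)
      (fun a => Function.update a i m) ?_ ?_ ?_ ?_ ?_
    · intro b _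
      rw [Finset.mem_filter]
      refine ⟨Finset.mem_univ _, ?_⟩
      rw [Function.update_self]
    · intro a _
      rw [Finset.mem_filter]
      refine ⟨Finset.mem_univ _, ?_⟩
      rw [Function.update_self]
    · intro b hb'
      have h := (Finset.mem_filter.1 hb').2
      show Function.update (Function.update b i ⟨0, NeZero.pos p⟩) i m = b
      rw [Function.update_idem, ← Fin.ext h, Function.update_eq_self]
    · intro a ha
      have h := (Finset.mem_filter.1 ha).2
      have h' : a i = ⟨0, NeZero.pos p⟩ := Fin.ext h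
      show Function.update (Function.update a i m) i ⟨0, NeZero.pos p⟩ = a
      rw [Function.update_idem, ← h', Function.update_eq_self]
    · intro b hb'
      have h := (Finset.mem_filter.1 hb').2
      show _ = c (Function.update (Function.update b i ⟨0, NeZero.pos p⟩) i m) ^ p * _
      rw [Function.update_idem, ← Fin.ext h, Function.update_eq_self]
  -- the new basis
  have hind : ∀ c : (Fin d → Fin p) → K,
      ∑ b, c b ^ p * monY (p := p) (Function.update t i u) b = 0 → c = 0 := by
    intro c hc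
    funext b
    have h := key (b i) c
    have hD0 : prj p t π i 0 = 0 := by
      have h' := a5 0 0
      rw [add_zero] at h'
      exact left_eq_add.1 h'
    rw [hc, mul_zero, hD0, mul_zero] at h
    have h' := hMB.pb.uniq (fun a => if (a i : ℕ) = 0 then c (Function.update a i (b i)) else 0)
      (Function.update b i ⟨0, NeZero.pos p⟩)
    rw [← h, hπ0] at h'
    rw [Function.update_self, if_pos rfl, Function.update_idem, Function.update_eq_self] at h'
    exact h'.symm
  obtain ⟨π', hπ'⟩ := (hB1 p K (Fin d → Fin p) (monY (p := p) t) π hMB.pb (Fin d → Fin p)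
    (monY (p := p) (Function.update t i u)) hind).2 rfl
  refine ⟨π', ⟨fun j => ?_, hπ'⟩, J, hJ0, fun f => ?_⟩
  · by_cases hj : j = i
    · rw [hj, Function.update_self]
      exact hu0
    · rw [Function.update_of_ne hj]
      exact hMB.ne j
  · have h := key ⟨0, NeZero.pos p⟩ (fun b => π' b f)
    rw [hπ'.repr f] at h
    have h' := hMB.pb.uniq (fun a => if (a i : ℕ) = 0 then
      π' (Function.update a i ⟨0, NeZero.pos p⟩) f else 0) j0
    rw [← h, hπJ, a10] at h'
    have e0 : (j0 : Fin d → Fin p) i = ⟨0, NeZero.pos p⟩ := rfl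
    have e1 : ((j0 : Fin d → Fin p) i : ℕ) = 0 := rfl
    rw [if_pos e1] at h'
    have e2 : Function.update (j0 : Fin d → Fin p) i ⟨0, NeZero.pos p⟩ = j0 := by
      rw [← e0, Function.update_eq_self]
    rw [e2] at h'
    rw [← h']
    congr 2
    show J * (u ^ 0)⁻¹ * f = J * f
    rw [pow_zero, inv_one, mul_one]

end Pool.Agent.F2RF
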