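import Pool.Agent.Lib.MP_305fdd_al.F2.RF.Stm

set_option autoImplicit false

namespace Pool.Agent.F2RF

open Polynomial Pool.Agent.F2Ch

private theorem w2_mon {p : ℕ} {K : Type} [Field K] {d : ℕ} (t : Fin d → K)
    (σ : Equiv.Perm (Fin d)) (b : Fin d → Fin p) :
    monY (p := p) (t ∘ σ) b = monY (p := p) t (b ∘ σ.symm) := by
  unfold monY
  rw [← Equiv.prod_comp σ (fun j => t j ^ (((b ∘ σ.symm) j : Fin p) : ℕ))]
  refine Finset.prod_congr rfl fun i _ => ?_
  simp only [Function.comp_apply, Equiv.symm_apply_apply]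

private theorem w2_sum {p : ℕ} {K : Type} [Field K] {d : ℕ} (σ : Equiv.Perm (Fin d))
    (F : (Fin d → Fin p) → K) :
    ∑ b : Fin d → Fin p, F (b ∘ σ.symm) = ∑ a : Fin d → Fin p, F a :=
  Equiv.sum_comp (σ.arrowCongr (Equiv.refl (Fin p))) F

theorem p_W2 : S_W2 := by
  intro p hp K _ d t π hM σ
  have hpb : IsPB p (monY (p := p) (t ∘ σ)) (fun b => π (b ∘ σ.symm)) := by
    constructor
    · intro f
      refine Eq.trans (Finset.sum_congr rfl fun b _ => ?_)
        ((w2_sum σ fun a => π a f ^ p * monY (p := p) t a).trans (hM.pb.repr f))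
      rw [w2_mon]
    · intro a b
      have h1 : ∑ b' : Fin d → Fin p, a b' ^ p * monY (p := p) (t ∘ σ) b' =
          ∑ c : Fin d → Fin p, a (c ∘ σ) ^ p * monY (p := p) t c := by
        rw [← w2_sum σ fun c => a (c ∘ σ) ^ p * monY (p := p) t c]
        refine Finset.sum_congr rfl fun b' _ => ?_
        rw [w2_mon]
        congr 3
        funext i
        simp only [Function.comp_apply, Equiv.symm_apply_apply]
      rw [h1]
      have h2 := hM.pb.uniq (fun c => a (c ∘ σ)) (b ∘ σ.symm)
      rw [h2]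
      congr 1
      funext i
      simp only [Function.comp_apply, Equiv.symm_apply_apply]
  refine ⟨⟨fun i => hM.ne (σ i), hpb⟩, ?_⟩
  intro i f
  unfold der
  rw [← w2_sum σ fun a => ((a (σ i) : ℕ) : K) * (π a f ^ p * monY (p := p) t a)]
  refine Finset.sum_congr rfl fun b _ => ?_
  rw [w2_mon]
  simp only [Function.comp_apply, Equiv.symm_apply_apply]

end Pool.Agent.F2RF
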