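import Pool.Agent.Lib.MP_305fdd_al.F2.RF.Stm

/-!
# MP_305fdd_al, F_2 project, section RF: piece W3 (any two p-bases)
-/

set_option autoImplicit false

namespace Pool.Agent.F2RF

open Polynomial Pool.Agent.F2Ch

/-- The exponent vector with a single entry one. -/
private def w3_e (p : ℕ) (hp : 1 < p) {d : ℕ} (i0 : Fin d) : Fin d → Fin p :=
  fun i => if i = i0 then ⟨1, hp⟩ else ⟨0, by omega⟩

private theorem w3_monY (p : ℕ) (hp : 1 < p) {K : Type} [Field K] {d : ℕ} (t : Fin d → K)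
    (i0 : Fin d) : monY (p := p) t (w3_e p hp i0) = t i0 := by
  unfold monY w3_e
  rw [Finset.prod_eq_single i0]
  · simp
  · intro i _ hi
    simp [hi]
  · intro h
    exact absurd (Finset.mem_univ _) h

private theorem w3_zero {p : ℕ} {K ι : Type} [Field K] [Fintype ι] {w : ι → K} {π : ι → K → K}
    (hp : p ≠ 0) (h : IsPB p w π) (i : ι) : π i 0 = 0 := by
  have h1 := h.uniq (fun _ => 0) i
  simpa [zero_pow hp] using h1

/-- The coordinate of `u` at `a` vanishes if `a i ≠ 0` and the derivation at `i` kills `u`. -/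
private theorem w3_coord (hW1a : S_W1a) {p : ℕ} [hp : Fact p.Prime] {K : Type} [Field K]
    [CharP K p] {d : ℕ} {t : Fin d → K} {π : (Fin d → Fin p) → K → K} (h : MB p t π) (i : Fin d)
    (u : K) (hu : der p t π i u = 0) (a : Fin d → Fin p) (ha : (a i : ℕ) ≠ 0) : π a u = 0 := by
  have h1 := (hW1a p K d t π h i).2.2.2.1 a u
  rw [hu, w3_zero hp.out.ne_zero h.pb] at h1
  have h2 : ((a i : ℕ) : K) ≠ 0 := by
    intro h3
    rw [CharP.cast_eq_zero_iff K p] at h3
    exact ha (Nat.eq_zero_of_dvd_of_lt h3 (a i).2)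
  exact (mul_eq_zero.1 h1.symm).resolve_left h2

private theorem w3_ex (hW1a : S_W1a) {p : ℕ} [hp : Fact p.Prime] {K : Type} [Field K]
    [CharP K p] {d : ℕ} {z t' : Fin d → K} {πz π' : (Fin d → Fin p) → K → K} (hz : MB p z πz)
    (ht' : MB p t' π') (i0 : Fin d) (hag : ∀ i : Fin d, i.1 < i0.1 → z i = t' i) :
    ∃ i : Fin d, i0.1 ≤ i.1 ∧ der p z πz i (t' i0) ≠ 0 := by
  by_contra hcon
  push Not at hcon
  have h1 : ∀ a : Fin d → Fin p, ∀ i : Fin d, i0.1 ≤ i.1 → (a i : ℕ) ≠ 0 → πz a (t' i0) = 0 :=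
    fun a i hi ha => w3_coord hW1a hz i _ (hcon i hi) a ha
  have h2 : ∑ a, (πz a (t' i0)) ^ p * monY (p := p) t' a = t' i0 := by
    rw [← hz.pb.repr (t' i0)]
    refine Finset.sum_congr rfl fun a _ => ?_
    rw [hz.pb.repr (t' i0)]
    by_cases hza : πz a (t' i0) = 0
    · rw [hza, zero_pow hp.out.ne_zero, zero_mul, zero_mul]
    · congr 1
      unfold monY
      refine Finset.prod_congr rfl fun i _ => ?_
      by_cases hi : i.1 < i0.1
      · rw [hag i hi]
      · have h3 : (a i : ℕ) = 0 := by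
          by_contra h4
          exact hza (h1 a i (not_lt.1 hi) h4)
        rw [h3, pow_zero, pow_zero]
  have h3 := ht'.pb.uniq (fun a => πz a (t' i0)) (w3_e p hp.out.one_lt i0)
  rw [h2] at h3
  have h4 := ht'.pb.uniq (fun a => if a = w3_e p hp.out.one_lt i0 then 1 else 0)
    (w3_e p hp.out.one_lt i0)
  rw [Finset.sum_eq_single (w3_e p hp.out.one_lt i0)] at h4
  · simp only [if_true] at h4
    rw [one_pow, one_mul, w3_monY p hp.out.one_lt t' i0] at h4
    rw [h4] at h3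
    have h5 : πz (w3_e p hp.out.one_lt i0) (t' i0) = 0 :=
      h1 _ i0 le_rfl (by simp [w3_e])
    rw [h5] at h3
    exact one_ne_zero h3
  · intro b _ hb
    simp only [if_neg hb]
    rw [zero_pow hp.out.ne_zero, zero_mul]
  · intro h
    exact absurd (Finset.mem_univ _) h

private theorem w3_claim (hW1a : S_W1a) (hW1c : S_W1c) (hW2 : S_W2) {p : ℕ}
    [hp : Fact p.Prime] {K : Type} [Field K]
    [CharP K p] {d : ℕ} {t t' : Fin d → K} {π π' : (Fin d → Fin p) → K → K} (ht : MB p t π)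
    (ht' : MB p t' π') (n : ℕ) (hn : n ≤ d) :
    ∃ (z : Fin d → K) (πz : (Fin d → Fin p) → K → K), MB p z πz ∧
      (∀ i : Fin d, i.1 < n → z i = t' i) ∧ ∃ J : K, J ≠ 0 ∧ ∀ f, πz j0 f = J⁻¹ * π j0 (J * f) := by
  induction n with
  | zero =>
    refine ⟨t, π, ht, fun i hi => absurd hi (Nat.not_lt_zero _), 1, one_ne_zero, fun f => ?_⟩
    rw [one_mul, inv_one, one_mul]
  | succ n ih =>
    obtain ⟨z, πz, hz, hag, J, hJ, hπ⟩ := ih (by omega)
    obtain ⟨i, hi, hder⟩ := w3_ex hW1a hz ht' ⟨n, by omega⟩ hag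
    obtain ⟨h1, h2⟩ := hW2 p K d z πz hz (Equiv.swap ⟨n, by omega⟩ i)
    have h3 : der p (z ∘ (Equiv.swap ⟨n, by omega⟩ i))
        (fun b => πz (b ∘ (Equiv.swap ⟨n, by omega⟩ i).symm)) ⟨n, by omega⟩ (t' ⟨n, by omega⟩) ≠ 0 := by
      rw [h2, Equiv.swap_apply_left]
      exact hder
    obtain ⟨π2, h4, J', hJ', h5⟩ := hW1c p K d _ _ h1 ⟨n, by omega⟩ _ h3
    refine ⟨_, π2, h4, fun j hj => ?_, J * J', mul_ne_zero hJ hJ', fun f => ?_⟩
    · by_cases hj2 : j = ⟨n, by omega⟩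
      · rw [hj2, Function.update_self]
      · rw [Function.update_of_ne hj2]
        have h6 : j.1 < n := by
          have : j.1 ≠ n := fun h => hj2 (Fin.ext h)
          omega
        have h7 : j ≠ i := by
          intro h
          rw [h] at h6
          exact absurd h6 (not_lt.2 hi)
        show z ((Equiv.swap ⟨n, by omega⟩ i) j) = t' j
        rw [Equiv.swap_apply_of_ne_of_ne hj2 h7]
        exact hag j h6
    · rw [h5 f]
      show J'⁻¹ * πz j0 (J' * f) = _
      rw [hπ, mul_inv, ← mul_assoc J J' f]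
      ring

theorem p_W3 (hW1a : S_W1a) (hW1c : S_W1c) (hW2 : S_W2) : S_W3 := by
  intro p hp K _ _ d t t' π π' ht ht'
  obtain ⟨z, πz, hz, hag, J, hJ, hπ⟩ := w3_claim hW1a hW1c hW2 ht ht' d le_rfl
  have hzt : z = t' := funext fun i => hag i i.2
  subst hzt
  refine ⟨J, hJ, fun f => ?_⟩
  rw [← hπ f]
  have h1 := ht'.pb.uniq (fun a => πz a f) j0
  rw [hz.pb.repr f] at h1
  exact h1

end Pool.Agent.F2RF
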