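import Pool.Agent.Lib.MP_305fdd_al.F2.RF.Stm

/-!
# MP_305fdd_al, F_2 project, section RF: piece W5 (log type and the bases of a frame)
-/

set_option autoImplicit false

namespace Pool.Agent.F2RF

open Polynomial Pool.Agent.F2Ch

/-- The bijection of the index sets. -/
private def w5_e (p r s : ℕ) : (Fin (r + s) → Fin p) ≃ Ix p r s where
  toFun b := (fun i => b (Fin.castAdd s i), fun j => b (Fin.natAdd r j))
  invFun l := Fin.append l.1 l.2
  left_inv b := by
    funext i
    refine Fin.addCases (fun i => ?_) (fun j => ?_) i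
    · exact Fin.append_left _ _ _
    · exact Fin.append_right _ _ _
  right_inv l := by
    refine Prod.ext ?_ ?_
    · funext i
      exact Fin.append_left _ _ _
    · funext j
      exact Fin.append_right _ _ _

private theorem w5_mon {p r s : ℕ} {K : Type} [Field K] (x : Fin r → K) (y : Fin s → K)
    (b : Fin (r + s) → Fin p) : monY (p := p) (Fin.append x y) b = mon x y (w5_e p r s b) := by
  unfold monY mon w5_e
  rw [Fin.prod_univ_add]
  congr 1
  · refine Finset.prod_congr rfl fun i _ => ?_
    rw [Fin.append_left]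
    rfl
  · refine Finset.prod_congr rfl fun i _ => ?_
    rw [Fin.append_right]
    rfl

private theorem w5_mb {p r s : ℕ} {K : Type} [Field K] (x : Fin r → K) (y : Fin s → K)
    (π : Ix p r s → K → K) (hx : ∀ i, x i ≠ 0) (hy : ∀ j, y j ≠ 0) (h : IsPB p (mon x y) π) :
    MB p (Fin.append x y) (fun b => π (w5_e p r s b)) := by
  refine ⟨fun i => ?_, ⟨fun f => ?_, fun a i => ?_⟩⟩
  · refine Fin.addCases (fun i => ?_) (fun j => ?_) i
    · rw [Fin.append_left]
      exact hx i
    · rw [Fin.append_right]
      exact hy j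
  · rw [← h.repr f]
    refine (Fintype.sum_equiv (w5_e p r s) _ _ fun b => ?_)
    rw [w5_mon, h.repr f]
  · have h1 := h.uniq (fun l => a ((w5_e p r s).symm l)) (w5_e p r s i)
    rw [Equiv.symm_apply_apply] at h1
    rw [← h1]
    congr 1
    refine (Fintype.sum_equiv (w5_e p r s) _ _ fun b => ?_)
    rw [w5_mon, Equiv.symm_apply_apply]

theorem p_W5 (hW4 : S_W4) : S_W5 := by
  intro p hp K _ _ φ r s x y π hx hy h
  have hmb := w5_mb x y π hx hy h
  constructor
  · intro hφ
    exact hW4 p K φ hφ (r + s) _ _ hmb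
  · rintro ⟨g, hg, hf⟩
    exact ⟨r + s, _, _, g, hmb, hg, hf⟩

end Pool.Agent.F2RF
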