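import Pool.Agent.Lib.MP_305fdd_al.F2.RF.Stm

/-!
# MP_305fdd_al, F_2 project, section RF: piece W6 (log type passes to the residue field)
-/

set_option autoImplicit false

namespace Pool.Agent.F2RF

open Polynomial Pool.Agent.F2Ch

theorem w6_add {p : ℕ} [Fact p.Prime] {K ι : Type} [Field K] [CharP K p] [Fintype ι] {w : ι → K}
    {π : ι → K → K} (h : IsPB p w π) (i : ι) (f g : K) : π i (f + g) = π i f + π i g := by
  have h1 : f + g = ∑ j, (π j f + π j g) ^ p * w j := by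
    have h2 : ∀ j, (π j f + π j g) ^ p * w j = π j f ^ p * w j + π j g ^ p * w j := fun j => by
      rw [add_pow_char, add_mul]
    simp_rw [h2]
    rw [Finset.sum_add_distrib, h.repr, h.repr]
  rw [h1]
  exact h.uniq (fun j => π j f + π j g) i

theorem w6_pow {p : ℕ} {K ι : Type} [Field K] [Fintype ι] {w : ι → K}
    {π : ι → K → K} (h : IsPB p w π) (i : ι) (c f : K) : π i (c ^ p * f) = c * π i f := by
  have h1 : c ^ p * f = ∑ j, (c * π j f) ^ p * w j := by
    have h2 : ∀ j, (c * π j f) ^ p * w j = c ^ p * (π j f ^ p * w j) := fun j => by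
      rw [mul_pow, mul_assoc]
    simp_rw [h2]
    rw [← Finset.mul_sum, h.repr]
  rw [h1]
  exact h.uniq (fun j => c * π j f) i

theorem w6_one {p : ℕ} [Fact p.Prime] {K ι : Type} [Field K] [Fintype ι] {w : ι → K}
    {π : ι → K → K} (h : IsPB p w π) (i : ι) (hi : w i = 1) : π i 1 = 1 := by
  classical
  have hp : p ≠ 0 := (Fact.out : p.Prime).ne_zero
  have h1 : (1 : K) = ∑ j, (if j = i then (1 : K) else 0) ^ p * w j := by
    rw [Finset.sum_eq_single i]
    · rw [if_pos rfl, one_pow, one_mul, hi]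
    · intro j _ hj
      rw [if_neg hj, zero_pow hp, zero_mul]
    · intro hn
      exact absurd (Finset.mem_univ i) hn
  have h2 := h.uniq (fun j => if j = i then (1 : K) else 0) i
  rw [← h1, if_pos rfl] at h2
  exact h2

theorem w6_mon0 {p : ℕ} [NeZero p] {M : Type} [CommMonoid M] {r s : ℕ} (x : Fin r → M)
    (y : Fin s → M) : mon x y (ix0 : Ix p r s) = 1 := by
  simp [mon, ix0]

theorem p_W6 (hW5 : S_W5) : S_W6 := by
  intro p _ k K Γ κ _ _ _ _ _ _ _ _ _ _ v r s x y ex ac π ρ hF φ h hφ φb hφb hlog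
  obtain ⟨g, hg, hgφ⟩ := (hW5 p K φ r s x y π hF.vb.ne hF.y_ne hF.pb).1 hlog
  have hh : h = g * g⁻¹ ^ p := by
    by_contra hne
    have hd : h - g * g⁻¹ ^ p ≠ 0 := sub_ne_zero.2 hne
    have h1 : π ix0 (h * (h - g * g⁻¹ ^ p)⁻¹) = π ix0 (g * g⁻¹ ^ p * (h - g * g⁻¹ ^ p)⁻¹) := by
      rw [← hφ, hgφ, ← w6_pow hF.pb]
      congr 1
      ring
    have h2 : h * (h - g * g⁻¹ ^ p)⁻¹ = g * g⁻¹ ^ p * (h - g * g⁻¹ ^ p)⁻¹ + 1 := by
      rw [← mul_inv_cancel₀ hd]
      ring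
    rw [h2, w6_add hF.pb, w6_one hF.pb ix0 (w6_mon0 x y)] at h1
    exact one_ne_zero (add_eq_left.1 h1)
  have hac1 : ac 1 = 1 := by
    have h1 := hF.isac.alg 1
    rwa [map_one, map_one] at h1
  have hacpow : ∀ (a : K) (n : ℕ), ac (a ^ n) = ac a ^ n := by
    intro a n
    induction n with
    | zero => rw [pow_zero, pow_zero, hac1]
    | succ n ih => rw [pow_succ, pow_succ, hF.isac.mul, ih]
  have hγ : ac g ≠ 0 := hF.isac.ne g hg
  have hinv : ac g⁻¹ = (ac g)⁻¹ := by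
    have h1 := hF.isac.mul g g⁻¹
    rw [mul_inv_cancel₀ hg, hac1] at h1
    exact eq_inv_of_mul_eq_one_right h1.symm
  refine ⟨s, fun j => ac (y j), ρ, ac g, ⟨fun j => hF.isac.ne _ (hF.y_ne j), hF.rb⟩, hγ, ?_⟩
  intro c
  rw [hφb, hh, hF.isac.mul, hacpow, hinv, ← w6_pow hF.rb]
  congr 1
  ring

end Pool.Agent.F2RF
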