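import Pool.Agent.Lib.MP_305fdd_al.F2.RF.Stm

set_option autoImplicit false

namespace Pool.Agent.F2RF

open Polynomial Pool.Agent.F2Ch

private lemma w8_zero {p : ℕ} [Fact p.Prime] {K : Type} [Field K] {d : ℕ} {t : Fin d → K}
    {π : (Fin d → Fin p) → K → K} (hM : MB p t π) (a : Fin d → Fin p) : π a 0 = 0 := by
  have h := hM.pb.uniq (fun _ => (0 : K)) a
  have hp : p ≠ 0 := (Fact.out : p.Prime).ne_zero
  simpa [zero_pow hp] using h

private lemma w8_cast {p : ℕ} [Fact p.Prime] {K : Type} [Field K] [CharP K p] {n : ℕ}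
    (h0 : n ≠ 0) (h1 : n < p) : (n : K) ≠ 0 := by
  intro h
  rw [CharP.cast_eq_zero_iff K p] at h
  exact absurd (Nat.le_of_dvd (Nat.pos_of_ne_zero h0) h) (by omega)

/-- [F2RF W8] -/
theorem p_W8 (hW1a : S_W1a) (hW1c : S_W1c) (hW2 : S_W2) : S_W8 := by
  classical
  intro p _ K _ _ d t π hM u hu
  have hex : ∃ i, der p t π i u ≠ 0 := by
    by_contra hcon
    push Not at hcon
    have hz : ∀ a : Fin (d + 1) → Fin p, a ≠ j0 → π a u = 0 := by
      intro a ha
      obtain ⟨i, hi⟩ : ∃ i, a i ≠ (j0 : Fin (d + 1) → Fin p) i := by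
        by_contra h
        push Not at h
        exact ha (funext h)
      have hai : (a i : ℕ) ≠ 0 := by
        intro h
        exact hi (Fin.ext h)
      have h4 := (hW1a p K (d + 1) t π hM i).2.2.2.1 a u
      rw [hcon i, w8_zero hM] at h4
      rcases mul_eq_zero.1 h4.symm with h | h
      · exact absurd h (w8_cast hai (a i).isLt)
      · exact h
    apply hu (π j0 u)
    have hr := hM.pb.repr u
    rw [Finset.sum_eq_single (j0 : Fin (d + 1) → Fin p)] at hr
    · have hm : monY (p := p) t (j0 : Fin (d + 1) → Fin p) = 1 := by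
        unfold monY
        refine Finset.prod_eq_one fun j _ => ?_
        show t j ^ 0 = 1
        exact pow_zero _
      rw [hm, mul_one] at hr
      exact hr
    · intro a _ ha
      rw [hz a ha, zero_pow (Fact.out : p.Prime).ne_zero, zero_mul]
    · intro h
      exact absurd (Finset.mem_univ _) h
  obtain ⟨i, hi⟩ := hex
  obtain ⟨hM2, hd2⟩ := hW2 p K (d + 1) t π hM (Equiv.swap 0 i)
  have hne : der p (t ∘ (Equiv.swap 0 i)) (fun b => π (b ∘ (Equiv.swap 0 i).symm)) 0 u ≠ 0 := by
    rw [hd2 0 u, Equiv.swap_apply_left]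
    exact hi
  obtain ⟨π', hM', -⟩ := hW1c p K (d + 1) _ _ hM2 0 u hne
  exact ⟨_, π', hM', by simp⟩

end Pool.Agent.F2RF
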