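import Pool.Agent.Lib.MP_305fdd_al.F2.RF.Stm

set_option autoImplicit false

namespace Pool.Agent.F2RF

open Polynomial Pool.Agent.F2Ch

private lemma w9_mon {p : ℕ} {K : Type} [Field K] {d : ℕ} (t : Fin d → K) (i : Fin d) (b : K)
    (a : Fin d → Fin p) :
    monY (p := p) (Function.update t i (t i * b ^ p)) a =
      (b ^ (a i : ℕ)) ^ p * monY (p := p) t a := by
  classical
  unfold monY
  have h1 : ∀ j, Function.update t i (t i * b ^ p) j ^ (a j : ℕ) =
      t j ^ (a j : ℕ) * (if j = i then (b ^ (a i : ℕ)) ^ p else 1) := by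
    intro j
    by_cases h : j = i
    · subst h
      rw [Function.update_self, if_pos rfl, mul_pow, ← pow_mul, ← pow_mul, mul_comm p]
    · rw [Function.update_of_ne h, if_neg h, mul_one]
  rw [Finset.prod_congr rfl (fun j _ => h1 j), Finset.prod_mul_distrib, Finset.prod_ite_eq',
    if_pos (Finset.mem_univ i), mul_comm]

/-- [F2RF W9] -/
theorem p_W9 : S_W9 := by
  intro p _ K _ d t π hM i b hb
  have hbp : ∀ n : ℕ, b ^ n ≠ 0 := fun n => pow_ne_zero n hb
  refine ⟨?_, ?_, ?_⟩
  · intro j
    by_cases h : j = i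
    · subst h
      rw [Function.update_self]
      exact mul_ne_zero (hM.ne j) (hbp p)
    · rw [Function.update_of_ne h]
      exact hM.ne j
  · intro f
    rw [← hM.pb.repr f]
    rw [hM.pb.repr f]
    refine Eq.trans (Finset.sum_congr rfl fun a _ => ?_) (hM.pb.repr f)
    rw [w9_mon, mul_pow, inv_pow]
    have := pow_ne_zero p (hbp (a i : ℕ))
    field_simp
  · intro A c
    have h1 : (∑ a, A a ^ p * monY (p := p) (Function.update t i (t i * b ^ p)) a) =
        ∑ a, (A a * b ^ (a i : ℕ)) ^ p * monY (p := p) t a := by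
      refine Finset.sum_congr rfl fun a _ => ?_
      rw [w9_mon, mul_pow]
      ring
    show (b ^ (c i : ℕ))⁻¹ * π c _ = A c
    rw [h1, hM.pb.uniq (fun a => A a * b ^ (a i : ℕ)) c]
    have := hbp (c i : ℕ)
    field_simp

end Pool.Agent.F2RF
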