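import Pool.Agent.Lib.MP_305fdd_al.F2.Ch.B1
import Pool.Agent.Lib.MP_305fdd_al.F2.RF.U0
import Pool.Agent.Lib.MP_305fdd_al.F2.RF.U1
import Pool.Agent.Lib.MP_305fdd_al.F2.RF.U2
import Pool.Agent.Lib.MP_305fdd_al.F2.RF.U3
import Pool.Agent.Lib.MP_305fdd_al.F2.RF.U4
import Pool.Agent.Lib.MP_305fdd_al.F2.RF.U5
import Pool.Agent.Lib.MP_305fdd_al.F2.RF.U6
import Pool.Agent.Lib.MP_305fdd_al.F2.RF.U7
import Pool.Agent.Lib.MP_305fdd_al.F2.RF.U8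
import Pool.Agent.Lib.MP_305fdd_al.F2.RF.U9
import Pool.Agent.Lib.MP_305fdd_al.F2.RF.U10
import Pool.Agent.Lib.MP_305fdd_al.F2.RF.U11
import Pool.Agent.Lib.MP_305fdd_al.F2.RF.U12
import Pool.Agent.Lib.MP_305fdd_al.F2.RF.W1a
import Pool.Agent.Lib.MP_305fdd_al.F2.RF.W1b
import Pool.Agent.Lib.MP_305fdd_al.F2.RF.W1c
import Pool.Agent.Lib.MP_305fdd_al.F2.RF.W2
import Pool.Agent.Lib.MP_305fdd_al.F2.RF.W3
import Pool.Agent.Lib.MP_305fdd_al.F2.RF.W4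
import Pool.Agent.Lib.MP_305fdd_al.F2.RF.W5
import Pool.Agent.Lib.MP_305fdd_al.F2.RF.W6
import Pool.Agent.Lib.MP_305fdd_al.F2.RF.W7
import Pool.Agent.Lib.MP_305fdd_al.F2.RF.W8
import Pool.Agent.Lib.MP_305fdd_al.F2.RF.W9

/-!
# MP_305fdd_al, F_2 project, section RF: the statements without hypotheses
-/

set_option autoImplicit false

namespace Pool.Agent.F2RF

open Pool.Agent.F2Ch

theorem w1a : S_W1a := p_W1a
theorem w1b : S_W1b := p_W1b w1a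
theorem w1c : S_W1c := p_W1c w1a w1b p_B1
theorem w2 : S_W2 := p_W2
theorem w3 : S_W3 := p_W3 w1a w1c w2
theorem w4 : S_W4 := p_W4 w3 p_B1
theorem w5 : S_W5 := p_W5 w4
theorem w6 : S_W6 := p_W6 w5
theorem w7 : S_W7 := p_W7
theorem w8 : S_W8 := p_W8 w1a w1c w2
theorem w9 : S_W9 := p_W9
theorem u0 : S_U0 := p_U0
theorem u1 : S_U1 := p_U1
theorem u2 : S_U2 := p_U2
theorem u3 : S_U3 := p_U3
theorem u4 : S_U4 := p_U4 u1 u3
theorem u5 : S_U5 := p_U5 u2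
theorem u6 : S_U6 := p_U6 u2
theorem u7 : S_U7 := p_U7 u1 u5
theorem u8 : S_U8 := p_U8 u1 u4 u5 u6
theorem u9 : S_U9 := p_U9 u1 u4 u5
theorem u10 : S_U10 := p_U10
theorem u11 : S_U11 := p_U11 u1
theorem u12 : S_U12 := p_U12 u0 u7 u8 u9 u11

end Pool.Agent.F2RF
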