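import Pool.Agent.Lib.MP_305fdd_al.F2.RF.Defs

/-!
# MP_305fdd_al, F_2 project, section RF: the pieces [F2RF ..]

Every `def S_xx : Prop` is one independent piece; its docstring contains the complete proof.
The other statements (also those of `ChStm.lean`) may be taken as hypotheses.

Part W0 (pieces W1 .. W9): maps of log type.  `MB p t π`: the monomials in `t` are a `p`-basis of `K` with
coordinates `π`.  `der p t π i` is the derivation `t_i ∂/∂t_i`, `prj p t π i` is the part of exponent `0` at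
`t_i`.  Final statements: `S_W4`, `S_W5`, `S_W6` (log type does not depend on the `p`-basis and passes to the
residue fields).

Part WU (pieces U0 .. U12): a field `L` of transcendence degree one over `F`, a subring `A` with
fraction field `L` and a place `c₁` with `c₁ ≤ 0` on `A`.  Final statements: `S_U8` (`c₁` is the only place
with a pole on `A`), `S_U9` (the inequality), `S_U12` (the form for a field of transcendence degree two
over `k`).
-/

set_option autoImplicit false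

namespace Pool.Agent.F2RF

open Polynomial Pool.Agent.F2Ch

/-! ## Part W0: maps of log type -/

/-- [F2RF W1a] (about 150 lines) Calculus of `∂ = der p t π i` and `D = prj p t π i`.
Proof. Write `m_a = monY t a`.  The `π a` are additive and `π a (c ^ p * f) = c * π a f` (`IsPB.repr`, `IsPB.uniq`, `(x+y)^p = x^p + y^p`).
COORDINATES.  `((a i : ℕ) : K) ^ p = ((a i : ℕ) : K)` (Fermat in characteristic `p`), so `∂ f = ∑ a, (a_i * π a f) ^ p * m_a`, and by `uniq`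
`π a (∂ f) = a_i * π a f`; similarly `π a (D f) = π a f` if `a_i = 0` and `= 0` otherwise.  Hence: `∂`, `D` are additive, `∂ (c ^ p * f) = c ^ p * ∂ f`, the same for `D`;
`D (∂ f) = 0`; `π j0 (D f) = π j0 f`; `∂ (D f) = 0`; and if `∂ z = 0` then `π a z = 0` for all `a` with `a_i ≠ 0` (`(a i : K) ≠ 0` because `0 < a_i < p`), so `D z = z`.
MONOMIALS.  `m_a * m_b = (∏ j, t_j ^ c_j) ^ p * m_{a+b mod p}` where `c_j` is the carry, `a_j + b_j = p c_j + ((a_j + b_j) mod p)`.  Also `∂ m_a = a_i m_a`.  So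
`∂ (m_a m_b) = (a_i + b_i) m_a m_b = m_a ∂ m_b + m_b ∂ m_a`; by additivity and `p`-homogeneity the Leibniz rule holds for all `f = ∑ (π a f)^p m_a`, `g`.
`D (z f) = z D f` if `∂ z = 0`: by additivity `z = c ^ p m_b` with `b_i = 0` and `f = m_a`; `m_a m_b = (..)^p m_{a+b mod p}` and `(a + b mod p)_i = a_i`. -/
def S_W1a : Prop :=
  ∀ (p : ℕ) [Fact p.Prime] (K : Type) [Field K] [CharP K p] (d : ℕ) (t : Fin d → K)
    (π : (Fin d → Fin p) → K → K), MB p t π → ∀ i : Fin d,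
    (∀ f g, der p t π i (f + g) = der p t π i f + der p t π i g) ∧
    (∀ f g, der p t π i (f * g) = f * der p t π i g + g * der p t π i f) ∧
    (∀ c, der p t π i (c ^ p) = 0) ∧
    (∀ a f, π a (der p t π i f) = ((a i : ℕ) : K) * π a f) ∧
    (∀ f g, prj p t π i (f + g) = prj p t π i f + prj p t π i g) ∧
    (∀ z f, der p t π i z = 0 → prj p t π i (z * f) = z * prj p t π i f) ∧
    (∀ f, prj p t π i (der p t π i f) = 0) ∧
    (∀ f, der p t π i (prj p t π i f) = 0) ∧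
    (∀ z, der p t π i z = 0 → prj p t π i z = z) ∧
    (∀ f, π j0 (prj p t π i f) = π j0 f) ∧
    (∀ a, der p t π i (monY (p := p) t a) = ((a i : ℕ) : K) * monY (p := p) t a)

/-- [F2RF W1b] (about 150 lines) Uses W1a. The formula of Cartier: `D (u ^ (p-1) ∂ u) = (∂ u) ^ p`.
Proof. `∂ = der p t π i`, `D = prj p t π i`; constants: `∂ z = 0`.  Put `N u = D (u ^ (p-1) * ∂ u)`.
(1) `N (u + v) = N u + N v`.  In characteristic `p`, `choose (p-1) j = (-1)^j` for `j ≤ p - 1`, so `(u+v)^(p-1) = ∑_{j<p} (-1)^j u^j v^(p-1-j)`.  Put `A_j = D (u^j v^(p-1-j) ∂ u)`, `B_j = D (u^j v^(p-1-j) ∂ v)`.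
For `1 ≤ j ≤ p - 1`: `∂ (u^j v^(p-j)) = j u^(j-1) v^(p-j) ∂ u + (p-j) u^j v^(p-j-1) ∂ v = j (u^(j-1) v^(p-j) ∂ u - u^j v^(p-1-j) ∂ v)` and `D ∂ = 0`, `j ≠ 0` in `K`, so `A_{j-1} = B_j`.
`N (u+v) = ∑_{j<p} (-1)^j (A_j + B_j)`; the terms `(-1)^j A_j` for `j < p - 1` cancel against `(-1)^(j+1) B_{j+1}`, and there remain `(-1)^(p-1) A_{p-1} + B_0 = A_{p-1} + B_0 = N u + N v`
(`(-1)^(p-1) = 1` in `K` also for `p = 2`).
(2) `N (z u) = z ^ p N u` for `∂ z = 0` (`∂ (z u) = z ∂ u`, `D` is linear over the constants).  (3) `N (t_i ^ m) = m t_i^(m p)`: `∂ (t_i^m) = m t_i^m`, `N = D (m (t_i^m)^p) = m (t_i^m)^p` (`D` of a constant).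
(4) `u ↦ (∂ u)^p` has the same properties: additive, `(∂ (z u))^p = z^p (∂ u)^p`, `(∂ t_i^m)^p = m^p t_i^(mp) = m t_i^(mp)`.
(5) `u = ∑ a, (π a u)^p m_a` and `m_a = z_a t_i^(a_i)` with the constant `z_a = ∏_{j ≠ i} t_j^(a_j)`: both sides agree. -/
def S_W1b : Prop :=
  ∀ (p : ℕ) [Fact p.Prime] (K : Type) [Field K] [CharP K p] (d : ℕ) (t : Fin d → K)
    (π : (Fin d → Fin p) → K → K), MB p t π → ∀ (i : Fin d) (u : K),
    prj p t π i (u ^ (p - 1) * der p t π i u) = der p t π i u ^ p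

/-- [F2RF W1c] (about 180 lines) Uses W1a, W1b, B1. Change of one element of a `p`-basis.
Proof. `∂`, `D` as before, `u ≠ 0` (as `∂ 0 = 0`), `J = ∂ u / u ≠ 0`.
(1) For `0 < n < p`: `J u^n = n⁻¹ ∂ (u^n)`, so `D (J u^n) = 0`.  `D J = D (u^(p-1) ∂ u) / u^p = J^p` (W1b; `u^(-p)` is a constant).
(2) For `m < p` put `E_m f = (J⁻¹)^p * D (J * (u^m)⁻¹ * f)`: additive, linear over the constants.  For `m, n < p`: `E_m (u^n) = 1` if `m = n`, and `0` otherwise (if `n < m` then `(u^m)⁻¹ u^n = (u⁻¹)^p u^(p+n-m)`).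
(3) With `t' = Function.update t i u`: `monY t' b = u^(b_i) z_b`, `z_b = monY t (Function.update b i 0)` a constant.  If `∑ b, c_b ^ p * monY t' b = 0` then applying `E_m`: `∑_{b_i = m} c_b^p z_b = 0`, and the `z_b`, `b_i = m`, are
different members of `monY t`; by `IsPB.uniq` all `c_b = 0`.  So (B1, same cardinality) there is `π'` with `IsPB p (monY t') π'`; entries of `t'` are nonzero.
(4) Apply `E_0` to `f = ∑ b, (π' b f)^p u^(b_i) z_b`: `E_0 f = ∑_{b_i = 0} (π' b f)^p monY t b`, so `π j0 (E_0 f) = π' j0 f` by `uniq`; and `π j0 (E_0 f) = J⁻¹ * π j0 (D (J f)) = J⁻¹ * π j0 (J f)` (W1a). -/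
def S_W1c : Prop :=
  ∀ (p : ℕ) [Fact p.Prime] (K : Type) [Field K] [CharP K p] (d : ℕ) (t : Fin d → K)
    (π : (Fin d → Fin p) → K → K), MB p t π → ∀ (i : Fin d) (u : K), der p t π i u ≠ 0 →
    ∃ π' : (Fin d → Fin p) → K → K, MB p (Function.update t i u) π' ∧
      ∃ J : K, J ≠ 0 ∧ ∀ f, π' j0 f = J⁻¹ * π j0 (J * f)

/-- [F2RF W2] (about 50 lines) Permutation of a `p`-basis.
Proof. `monY (t ∘ σ) b = ∏ i, t (σ i) ^ b i = ∏ j, t j ^ b (σ.symm j) = monY t (b ∘ σ.symm)`, so `π' b = π (b ∘ σ.symm)` are the coordinates (reindex the sums by the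
bijection `b ↦ b ∘ σ.symm` of `Fin d → Fin p`).  `π' j0 = π j0`.  `der p (t ∘ σ) π' i f = ∑ b, b i * (π (b ∘ σ.symm) f)^p * monY t (b ∘ σ.symm) = ∑ a, a (σ i) * .. = der p t π (σ i) f`. -/
def S_W2 : Prop :=
  ∀ (p : ℕ) [Fact p.Prime] (K : Type) [Field K] (d : ℕ) (t : Fin d → K)
    (π : (Fin d → Fin p) → K → K), MB p t π → ∀ σ : Equiv.Perm (Fin d),
    MB p (t ∘ σ) (fun b => π (b ∘ σ.symm)) ∧
      (∀ i f, der p (t ∘ σ) (fun b => π (b ∘ σ.symm)) i f = der p t π (σ i) f)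

/-- [F2RF W3] (about 180 lines) Uses W1a, W1c, W2. Any two `p`-bases.
Proof. CLAIM for `n ≤ d`: there are `z`, `πz` with `MB p z πz`, `z i = t' i` for `i < n`, and `J ≠ 0` with `πz j0 f = J⁻¹ * π j0 (J * f)` for all `f`.  `n = 0`: `z = t`, `J = 1`.
Step `n → n + 1` (`n < d`), `u = t' n`.  There is `i ≥ n` with `der p z πz i u ≠ 0`: otherwise, for every `a` with `a_i ≠ 0` for some `i ≥ n`, `0 = πz a (der i u) = a_i * πz a u` (W1a), so `πz a u = 0`; so `u = ∑ (πz a u)^p monY z a`, the sum over the `a`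
with `a_i = 0` for all `i ≥ n`, and for these `monY z a = monY t' a`.  But `u = monY t' e` with `e = Pi.single n 1` (`0` elsewhere, `1 ∈ Fin p` as `p ≥ 2`); comparing the coordinates at `e` with respect to `t'` (`IsPB.uniq`): `1 = 0`, because `e_n ≠ 0`.
Replace `z` by `z ∘ σ`, `σ = Equiv.swap n i` (W2): `z ∘ σ` agrees with `t'` at all `j < n` (`j ≠ n, i`), the projection at `j0` is the same, and `der` at `n` of `u` is nonzero; then W1c at the place `n` with `u`; the new `J` is the product of the two.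
`n = d`: `z = t'`, and then `πz = π'` (`IsPB.uniq` applied to `IsPB.repr`). -/
def S_W3 : Prop :=
  ∀ (p : ℕ) [Fact p.Prime] (K : Type) [Field K] [CharP K p] (d : ℕ) (t t' : Fin d → K)
    (π π' : (Fin d → Fin p) → K → K), MB p t π → MB p t' π' →
    ∃ J : K, J ≠ 0 ∧ ∀ f, π' j0 f = J⁻¹ * π j0 (J * f)

/-- [F2RF W4] (about 50 lines) Uses W3, B1. Log type does not depend on the `p`-basis.
Proof. Let `φ f = g⁻¹ * π j0 (g * f)` with `MB p t π`, `t : Fin d0 → K`.  By B1 (twice) `p ^ d0 = p ^ d`, so `d0 = d`; `subst`.  W3 with the roles exchanged: `π j0 f = J⁻¹ * π' j0 (J * f)`.  So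
`φ f = (J * g)⁻¹ * π' j0 (J * g * f)`. -/
def S_W4 : Prop :=
  ∀ (p : ℕ) [Fact p.Prime] (K : Type) [Field K] [CharP K p] (φ : K → K), LogTy p φ →
    ∀ (d : ℕ) (t : Fin d → K) (π : (Fin d → Fin p) → K → K), MB p t π →
    ∃ g : K, g ≠ 0 ∧ ∀ f, φ f = g⁻¹ * π j0 (g * f)

/-- [F2RF W5] (about 70 lines) Uses W4. Log type with respect to a basis `mon x y` of a frame, and conversely.
Proof. `t = Fin.append x y : Fin (r + s) → K`; `monY t b = mon x y (fun i => b (Fin.castAdd s i), fun j => b (Fin.natAdd r j))` (`Fin.prod_univ_add`).  With the bijection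
`e : (Fin (r + s) → Fin p) ≃ Ix p r s` the coordinates are `π' b = π (e b)`, `π' j0 = π ix0`, so `MB p t π'`.  (a) is W4, (b) is the definition of `LogTy`. -/
def S_W5 : Prop :=
  ∀ (p : ℕ) [Fact p.Prime] (K : Type) [Field K] [CharP K p] (φ : K → K) (r s : ℕ)
    (x : Fin r → K) (y : Fin s → K) (π : Ix p r s → K → K), (∀ i, x i ≠ 0) → (∀ j, y j ≠ 0) →
    IsPB p (mon x y) π →
    (LogTy p φ ↔ ∃ g : K, g ≠ 0 ∧ ∀ f, φ f = g⁻¹ * π ix0 (g * f))

/-- [F2RF W6] (about 80 lines) Uses W5. Log type passes to the residue field.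
Proof. W5: `φ f = g⁻¹ * π ix0 (g * f) = π ix0 (g * (g⁻¹)^p * f)` (`π ix0` is `p⁻¹`-linear).  Put `h' = g * (g⁻¹)^p`.  `h = h'`: otherwise with `f = (h - h')⁻¹`, `0 = π ix0 (h f) - π ix0 (h' f) = π ix0 1 = 1` (`1 = mon ix0`, `uniq`).
`ac` is multiplicative (`IsAC.mul`), `ac 1 = 1`, so `ac h = γ * (γ⁻¹)^p` with `γ = ac g ≠ 0`, and `φb c = ρ j0 (γ * (γ⁻¹)^p * c) = γ⁻¹ * ρ j0 (γ * c)`, as `ρ j0` is `p⁻¹`-linear (`Frame.rb`, `CharP κ p`).
`MB p (fun j => ac (y j)) ρ`: `Frame.rb` and `ac (y j) ≠ 0`. -/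
def S_W6 : Prop :=
  ∀ (p : ℕ) [Fact p.Prime] (k K Γ κ : Type) [Field k] [Field K] [Algebra k K] [CharP K p]
    [AddCommGroup Γ] [LinearOrder Γ] [IsOrderedAddMonoid Γ]
    [Field κ] [Algebra k κ] [CharP κ p] (v : K → Γ) (r s : ℕ) (x : Fin r → K) (y : Fin s → K)
      (ex : K → Fin r → ℤ) (ac : K → κ) (π : Ix p r s → K → K) (ρ : (Fin s → Fin p) → κ → κ),
      Frame k p v x y ex ac π ρ → ∀ (φ : K → K) (h : K), (∀ f, φ f = π ix0 (h * f)) →
      ∀ φb : κ → κ, (∀ c, φb c = ρ j0 (ac h * c)) → LogTy p φ → LogTy p φb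

/-- [F2RF W7] (about 60 lines) The other coordinates.
Proof. The `π b` are additive and `p⁻¹`-linear.  (a) For `f = ∑ a, (π a f)^p m_a`: `m_b⁻¹ * m_a = (..)^p * m_c` with `c = a - b mod p`, which is `0` iff `a = b`, and then the factor is `1`; so `π j0 (m_b⁻¹ f) = π b f`.
(b) For `b = (p-1, .., p-1)`: `m_b⁻¹ = (P⁻¹)^p * P` with `P = ∏ t_i`, so `π b f = P⁻¹ * π j0 (P * f)`.  (c) `φ f = g⁻¹ * P⁻¹ * π j0 (P * g * f)`. -/
def S_W7 : Prop :=
  ∀ (p : ℕ) [Fact p.Prime] (K : Type) [Field K] [CharP K p] (d : ℕ) (t : Fin d → K)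
    (π : (Fin d → Fin p) → K → K), MB p t π →
    (∀ b f, π b f = π j0 ((monY (p := p) t b)⁻¹ * f)) ∧
    (∀ b : Fin d → Fin p, (∀ i, (b i : ℕ) = p - 1) → ∀ f,
      π b f = (∏ i, t i)⁻¹ * π j0 ((∏ i, t i) * f)) ∧
    ∀ (φ : K → K) (g : K) (b : Fin d → Fin p), g ≠ 0 → (∀ i, (b i : ℕ) = p - 1) →
      (∀ f, φ f = g⁻¹ * π b (g * f)) → LogTy p φ

/-- [F2RF W8] (about 90 lines) Uses W1a, W1c, W2. A `p`-basis with a given first element.
Proof. If `der p t π i u = 0` for all `i` then `a_i * π a u = 0` for all `a`, `i` (W1a), so `π a u = 0` for all `a ≠ j0` and `u = (π j0 u)^p`, excluded.  So `der p t π i u ≠ 0` for some `i`; let `σ = Equiv.swap 0 i`,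
W2, and W1c at the place `0`. -/
def S_W8 : Prop :=
  ∀ (p : ℕ) [Fact p.Prime] (K : Type) [Field K] [CharP K p] (d : ℕ) (t : Fin (d + 1) → K)
    (π : (Fin (d + 1) → Fin p) → K → K), MB p t π → ∀ u : K, (∀ a, a ^ p ≠ u) →
    ∃ (t' : Fin (d + 1) → K) (π' : (Fin (d + 1) → Fin p) → K → K), MB p t' π' ∧ t' 0 = u

/-- [F2RF W9] (about 60 lines) Multiplication of one element by a `p`-th power.
Proof. `monY t' a = (b ^ (a i))^p * monY t a`, so `π' a f = (b ^ (a i))⁻¹ * π a f` are the coordinates. -/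
def S_W9 : Prop :=
  ∀ (p : ℕ) [Fact p.Prime] (K : Type) [Field K] (d : ℕ) (t : Fin d → K)
    (π : (Fin d → Fin p) → K → K), MB p t π → ∀ (i : Fin d) (b : K), b ≠ 0 →
    MB p (Function.update t i (t i * b ^ p)) (fun a f => (b ^ (a i : ℕ))⁻¹ * π a f)

/-! ## Part WU: places -/

/-- [F2RF U0] (about 150 lines) Finitely generated of transcendence degree one.
Proof. Let `x` be transcendental.  As `trdeg = 1`, every `y : L` is algebraic over `F(x) = IntermediateField.adjoin F {x}` (otherwise `x, y` are algebraically independent); `L` is generated over `F(x)` by the finitely many algebraic elements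
`t i` (`FracGen`), so `L` is finite over `F(x)`; `d = finrank`.  The nonzero elements of `F(x)` are the `aeval x P / aeval x Q`, and `x` is transcendental, so (clearing denominators) `XInd F x b` iff `b` is linearly independent over `F(x)`: there is a
family with `d` members, and none with `d + 1`. -/
def S_U0 : Prop :=
  ∀ (F L : Type) [Field F] [Field L] [Algebra F L] (n : ℕ) (t : Fin n → L), FracGen F t →
    Algebra.trdeg F L = 1 → FF1 F L

/-- [F2RF U1] (about 80 lines) Algebraic elements.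
Proof. (a) `E = IntermediateField.adjoin F (Set.range a)` is algebraic over `F`, so `x` is transcendental over `E`.  Let `∑ aeval x (P i) * a i = 0`; the polynomial `Q = ∑ (P i).map * C (a i)` over `E` vanishes at `x`, so `Q = 0`; its coefficients are
`∑ (P i).coeff m • a i`, so all `(P i).coeff m = 0`.
(b) Let `a ≠ 0` be algebraic, `a ^ n + s_{n-1} a^(n-1) + .. + s_0 = 0` with `s_i ∈ F` and `n ≥ 1`.  If `c a < 0` then `c (a^n) = n c a < i c a = c (s_i a^i)` for all `i < n` with `s_i ≠ 0`, so the sum cannot be `0` (`IsV.add`).  If `c a > 0` use `a⁻¹`. -/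
def S_U1 : Prop :=
  ∀ (F L : Type) [Field F] [Field L] [Algebra F L],
    (∀ x : L, Transcendental F x → ∀ (n : ℕ) (a : Fin n → L), (∀ i, IsAlgebraic F (a i)) →
      LinearIndependent F a → XInd F x a) ∧
    (∀ (Γ : Type) [AddCommGroup Γ] [LinearOrder Γ] [IsOrderedAddMonoid Γ] (c : L → Γ), IsV c →
      Triv F c → ∀ a : L, IsAlgebraic F a → c a = 0)

/-- [F2RF U2] (about 150 lines) Polynomials in `x` with coefficients in an adapted family.
Proof. `e = - c x > 0`.  For `0 ≠ P ∈ F[X]` of degree `m` and leading coefficient `s`: `aeval x P = s x^m + (lower terms)`, `c (s x^m) = - m e`, the lower terms have value `≥ - (m-1) e`.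
Let `P ≠ 0`, `M` the maximum of the degrees, `q l ∈ F` the coefficient of `X^M` in `P l`, not all `0`.  `S = ∑ aeval x (P l) * a l.1 * π^l.2 = x^M * ∑_j (∑_i q (i,j) a_i) π^j + R`, where `R = 0` or `c R ≥ - (M-1) e` (the `a i` have `c ≥ 0`: `a i ≠ 0` and `c (a i) = 0`
by `ResInd` for a unit vector).  Let `j0` be the least `j` with `(q (i,j))_i ≠ 0`.  By `ResInd` the terms with `(q (·,j)) ≠ 0` have value exactly `- M e + j`; so the first part has the value `- M e + j0` and `j0 ≤ e - 1`, `- (M-1) e > - M e + j0`.  So `S ≠ 0` and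
`c S = - M e + j0 ≤ - M e + e - 1`. -/
def S_U2 : Prop :=
  ∀ (F L : Type) [Field F] [Field L] [Algebra F L] (c : L → ℤ), IsV c → Triv F c →
    ∀ (x π : L) (e f : ℕ) (a : Fin f → L), 0 < e → c x = -(e : ℤ) → x ≠ 0 → π ≠ 0 → c π = 1 →
    ResInd F c a →
    ∀ (P : Fin f × Fin e → F[X]) (M : ℕ), (∀ l, (P l).natDegree ≤ M) →
      (∃ l, (P l).coeff M ≠ 0) →
      (∑ l, aeval x (P l) * (a l.1 * π ^ (l.2 : ℕ))) ≠ 0 ∧
        c (∑ l, aeval x (P l) * (a l.1 * π ^ (l.2 : ℕ))) ≤ -(M : ℤ) * e + (e - 1)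

/-- [F2RF U3] (about 120 lines) Codimension.
Proof. Induction on `N`.  `N = 0`: all elements of `W` are `0` or have `c ≥ 0`.  Step `N + 1`: `W1 = {w ∈ W | w = 0 ∨ - N ≤ c w}` is a subspace; `W` has dimension at most `dim W1 + f`: otherwise there are `w_0, .., w_f ∈ W` which are linearly independent modulo `W1`; the elements `b_i = π^(N+1) w_i` have
`c ≥ 0`, and every nontrivial combination `∑ s_i b_i` is nonzero with `c = 0` (its value is `≥ 0`, and `≥ 1` would mean `∑ s_i w_i ∈ W1`): `ResInd F c b` with `f + 1` members, excluded by `ResDeg`.  The elements of `W1` which are `0` or have `c ≥ 0` are those of `W`. -/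
def S_U3 : Prop :=
  ∀ (F L : Type) [Field F] [Field L] [Algebra F L] (c : L → ℤ), Plc F c → ∀ f : ℕ,
    ResDeg F c f → ∀ (N m : ℕ) (W : Submodule F L), FiniteDimensional F W →
    (∀ w ∈ W, w ≠ 0 → -(N : ℤ) ≤ c w) →
    (∀ V : Submodule F L, V ≤ W → (∀ w ∈ V, w ≠ 0 → 0 ≤ c w) → Module.finrank F V ≤ m) →
    Module.finrank F W ≤ N * f + m

/-- [F2RF U4] (about 150 lines) Uses U1, U3. COUNTING: `[L : F(x)] ≤ e f`.
Proof. Let `b : Fin d → L` with `XInd F x b`; multiply by a common denominator in `A` (`FracOf`): we may assume `b i ∈ A` (`XInd` is preserved by multiplication by a nonzero element).  `x ∈ A`.  For `n : ℕ` let `W n` be the span of the `x^j * b i`, `j ≤ n`, `i < d`; these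
`(n+1) d` elements are linearly independent over `F` (`XInd`), and `W n ≤ A`.  Every nonzero element has `c ≥ - (n e + m0)`, `m0 = max (0, - c (b i))`.  If `V ≤ W n` has only elements which are `0` or have `c ≥ 0`, then (hypothesis `hA`) they are algebraic, so by U1 a basis of `V` is `XInd`, so
`dim V ≤ d` (`XDeg`; a subfamily of an `XInd` family is `XInd`).  U3: `(n + 1) d ≤ (n e + m0) f + d` for all `n`, so `d ≤ e f` (take `n = m0 f + 1`). -/
def S_U4 : Prop :=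
  ∀ (F L : Type) [Field F] [Field L] [Algebra F L] (A : Subalgebra F L), FracOf A →
    ∀ c : L → ℤ, Plc F c → (∀ a ∈ A, a ≠ 0 → 0 ≤ c a → IsAlgebraic F a) →
    ∀ (x : L) (e f d : ℕ), x ∈ A → Transcendental F x → c x = -(e : ℤ) → ResDeg F c f →
    XDeg F x d → d ≤ e * f

/-- [F2RF U5] (about 80 lines) Uses U2. `e f ≤ [L : F(x)]`, and the residue degree is finite.
Proof. By U2 the family `a l.1 * π ^ l.2`, `l : Fin f × Fin e`, is `XInd F x` (for `P ≠ 0` take `M` the maximum of the degrees), so `f * e ≤ d` (transport along `Fin (f * e) ≃ Fin f × Fin e`, a subfamily of an `XInd` family is `XInd`): (a) with `a` from `ResDeg`.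
(b) The family `(1)` is `ResInd` (`Triv`), and by (a)-type argument every `ResInd` family has at most `d` members (`e ≥ 1`, use only `l.2 = 0`, or `f ≤ f e`); let `f` be the largest number of members. -/
def S_U5 : Prop :=
  ∀ (F L : Type) [Field F] [Field L] [Algebra F L] (c : L → ℤ), Plc F c →
    ∀ (x : L) (e d : ℕ), 0 < e → x ≠ 0 → c x = -(e : ℤ) → XDeg F x d →
    (∀ f, ResDeg F c f → e * f ≤ d) ∧ ∃ f, 0 < f ∧ ResDeg F c f

/-- [F2RF U6] (about 150 lines) Uses U2. ONE PLACE ABOVE INFINITY: if `d = e f` then `c' = c`.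
Proof. `b l = a l.1 * π ^ l.2`, `l : Fin f × Fin e`, `a` from `ResDeg`; by U2 `XInd F x b`, and there are `e f = d` of them.  Let `y ≠ 0`, `c y ≥ 0`.  The `d + 1` elements `b`, `y` are not `XInd`: `Q(x) y = ∑ P_l(x) b_l` with `Q ≠ 0` (as `b` is `XInd`), not all `P_l = 0`.  Let `m = deg Q`,
`M = max deg P_l`.  `c (Q(x)) = - m e`, so by U2 `- m e ≤ c (Q(x) y) ≤ - M e + e - 1`, so `M ≤ m`.
Let `e' = - c' x > 0`; `c' (Q(x)) = - m e'`, `c' (P_l(x)) ≥ - M e' ≥ - m e'`; so `c' y ≥ min_l c' (b_l) =: - C0` (`C0 ≥ 0`), and `C0` does not depend on `y`.  Apply this to all powers `y^n`: `n c' y ≥ - C0`, so `c' y ≥ 0`.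
So `c y ≥ 0` implies `c' y ≥ 0` (`y ≠ 0`).  If `c y = 0` apply this to `y` and `y⁻¹`: `c' y = 0`.  Every `y ≠ 0` is `π^(c y) u` with `c u = 0`, so `c' y = c y * c' π`, `c' π ≥ 0`; as `c'` takes the value `1`, `c' π = 1` and `c' = c` (both are `0` at `0`). -/
def S_U6 : Prop :=
  ∀ (F L : Type) [Field F] [Field L] [Algebra F L] (c c' : L → ℤ), Plc F c → Plc F c' →
    ∀ (x : L) (e f : ℕ), 0 < e → x ≠ 0 → c x = -(e : ℤ) → ResDeg F c f → XDeg F x (e * f) →
    c' x < 0 → c' = c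

/-- [F2RF U8] (about 70 lines) Uses U1, U4, U5, U6. THEOREM U: the only pole.
Proof. First: if `a ∈ A`, `a ≠ 0`, `0 ≤ c₁ a` then `a` is algebraic over `F`: this is part of the hypothesis `hA`.  Suppose `x ∈ A`, `c₂ x < 0` (so `x ≠ 0`).  `x` is not algebraic (U1), so `c₁ x < 0` by `hA`; `e = - c₁ x`.  `d` from `FF1`, `f` from U5.
`e f ≤ d` (U5) and `d ≤ e f` (U4), so `XDeg F x (e f)`, and U6 gives `c₂ = c₁`, a contradiction. -/
def S_U8 : Prop :=
  ∀ (F L : Type) [Field F] [Field L] [Algebra F L], FF1 F L → ∀ (A : Subalgebra F L), FracOf A →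
    ∀ c₁ c₂ : L → ℤ, Plc F c₁ → Plc F c₂ → (∀ a ∈ A, a ≠ 0 → 0 ≤ c₁ a → IsAlgebraic F a) →
    c₂ ≠ c₁ → ∀ a ∈ A, 0 ≤ c₂ a

/-- [F2RF U7] (about 100 lines) Uses U1. Elements without pole at `c₁` are algebraic.
Proof. Let `a ∈ A`, `a ≠ 0`, `0 ≤ c₁ a`, `a` not algebraic.  By `FF1` and U5 (for `x = π⁻¹`, transcendental by U1) there is a bound `f` for the number of members of a `ResInd` family, so the `f + 1` elements `1, a, .., a^f` are not `ResInd`: there is a nonzero polynomial `P` of degree `≤ f` over `F` with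
`P(a) = 0` or `c₁ (P(a)) ≠ 0`; `c₁ (P(a)) ≥ 0` always.  `P(a) ≠ 0` as `a` is not algebraic, so `c₁ (P(a)) > 0`, but `P(a) ∈ A`: a contradiction to `Pole.le`. -/
def S_U7 : Prop :=
  ∀ (F L : Type) [Field F] [Field L] [Algebra F L], FF1 F L → ∀ (A : Subalgebra F L),
    ∀ c₁ : L → ℤ, Plc F c₁ → (∀ a ∈ A, a ≠ 0 → c₁ a ≤ 0) →
    ∀ a ∈ A, a ≠ 0 → 0 ≤ c₁ a → IsAlgebraic F a

/-- [F2RF U9] (about 70 lines) Uses U1, U4, U5. THE INEQUALITY.
Proof. `m = f₁`, `n = f₂` the residue degrees (U5, `FF1`, for `x = π⁻¹`).  Let `a ∈ A`, `a ≠ 0`.  If `c₁ a ≥ 0` then `a` is algebraic (`hA`) and `c₁ a = c₂ a = 0` (U1).  Let `c₁ a < 0`, so `a` is transcendental (U1), `d` its degree (`FF1`).  U4: `d ≤ - (c₁ a) f₁`.  If `c₂ a ≤ 0` the inequality is clear.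
If `c₂ a > 0` then `XDeg F a⁻¹ d` (multiply the polynomials by a power of `a`: `P(a) = a^M P*(a⁻¹)`) and U5 for `a⁻¹` gives `(c₂ a) f₂ ≤ d`.  So `f₂ c₂ a ≤ - f₁ c₁ a`. -/
def S_U9 : Prop :=
  ∀ (F L : Type) [Field F] [Field L] [Algebra F L], FF1 F L → ∀ (A : Subalgebra F L), FracOf A →
    ∀ c₁ c₂ : L → ℤ, Plc F c₁ → Plc F c₂ → (∀ a ∈ A, a ≠ 0 → 0 ≤ c₁ a → IsAlgebraic F a) →
    ∃ m n : ℕ, 0 < m ∧ 0 < n ∧ ∀ a ∈ A, a ≠ 0 → (m : ℤ) * c₁ a + (n : ℤ) * c₂ a ≤ 0

/-- [F2RF U10] (about 50 lines) From an ideal without elements of value `≥ 0`.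
Proof. Let `0 ≠ h ∈ Q`.  `c h < 0` and `h ∈ A`.  Let `a ∈ A`, `a ≠ 0`, `0 < c a`.  For large `n`, `n c a + c h ≥ 0` (Archimedean), but `a^n h ∈ Q - 0`: a contradiction. -/
def S_U10 : Prop :=
  ∀ (L Γ : Type) [Field L] [AddCommGroup Γ] [LinearOrder Γ] [IsOrderedAddMonoid Γ]
    [Archimedean Γ] (A : Subring L) (Q : Set L) (c : L → Γ), IsV c → (∀ h ∈ Q, h ∈ A) →
    (∃ h ∈ Q, h ≠ 0) → (∀ a ∈ A, ∀ h ∈ Q, a * h ∈ Q) → (∀ h ∈ Q, h ≠ 0 → c h < 0) →
    (∀ a ∈ A, a ≠ 0 → c a ≤ 0) ∧ ∃ a ∈ A, a ≠ 0 ∧ c a < 0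

/-- [F2RF U11] (about 150 lines) Uses U1. Discreteness.
Proof. Let `x ≠ 0` with `c x < 0` (replace `x` by `x⁻¹`); `x` is transcendental (U1); `d` its degree.  CLAIM: if `y_1, .., y_m` are nonzero elements whose values are pairwise different modulo `ℤ • c x` then they are `XInd F x`, so `m ≤ d`.  For `0 ≠ P ∈ F[X]`, `c (P(x)) = deg P • c x`
(the leading term dominates); so in `∑ P_i(x) y_i` the nonzero terms have pairwise different values, and the sum is not `0` unless all `P_i = 0`.  So the group `G = {c y | y ≠ 0}` has the infinite cyclic subgroup `ℤ • c x` of finite index (`≤ d`); `G` is finitely generated, torsion free (ordered) of rank one, so `G = ℤ • γ`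
with `γ > 0`.  (Elementary: `d! • G ≤ ℤ • c x`, so `g ↦` the integer `n` with `d! • g = n • c x` is an injective homomorphism `G → ℤ`, and its image is `ℤ • n0`.)  `c0 y` = the integer with `c y = c0 y • γ`, `c0 0 = 0`. -/
def S_U11 : Prop :=
  ∀ (F L : Type) [Field F] [Field L] [Algebra F L], FF1 F L →
    ∀ (Γ : Type) [AddCommGroup Γ] [LinearOrder Γ] [IsOrderedAddMonoid Γ] (c : L → Γ), IsV c →
    Triv F c → (∃ x, c x ≠ 0) →
    ∃ (c0 : L → ℤ) (γ : Γ), 0 < γ ∧ Plc F c0 ∧ ∀ y, c y = c0 y • γ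

/-- [F2RF U12] (about 200 lines) Uses U0, U7, U8, U9, U11. THE FINAL FORM over `k`, with real valuations.
Proof. `F = IntermediateField.adjoin k {s}`; its elements are the `P(s)/Q(s)`, so `c₁`, `c₂` are trivial on `F`.  `trdeg F M = 1` (`trdeg k M = 2` and `s` is transcendental: `trdeg k F = 1`, additivity), `FracGen F t`; U0: `FF1 F M`.
`A' = {z | ∃ P : k[X], P ≠ 0 ∧ z * P(s) ∈ A}` is an `F`-subalgebra of `M` (`k[s] ⊆ A`) which contains `A`, `FracOf A'`.  For `0 ≠ z ∈ A'`: `c₁ z = c₁ (z P(s)) ≤ 0`.  By U11, `c₁ = c0₁ • γ₁`, `γ₁ > 0`, `Plc F c0₁` (`c₁` is not trivial); U7 for `c0₁`, `A'`.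
(a) `c₂` is not trivial (`c₂ y < 0`), so `c₂ = c0₂ • γ₂`.  `c0₂ ≠ c0₁` because of `y`.  U8: `0 ≤ c0₂ a` for `a ∈ A ⊆ A'`.
(b) If `c₂` is trivial (all values `0`) take `ρ = 1`.  Otherwise U9: `m c0₁ a + n c0₂ a ≤ 0`, i.e. `(m / γ₁) c₁ a + (n / γ₂) c₂ a ≤ 0`; `ρ = n γ₁ / (m γ₂)`. -/
def S_U12 : Prop :=
  ∀ (k M : Type) [Field k] [Field M] [Algebra k M] (n : ℕ) (t : Fin n → M), FracGen k t →
    Algebra.trdeg k M = 2 → ∀ A : Subalgebra k M, FracOf A → ∀ s ∈ A,
    Transcendental k s → ∀ c₁ c₂ : M → ℝ, IsV c₁ → IsV c₂ →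
    (∀ P : k[X], P ≠ 0 → c₁ (aeval s P) = 0) → (∀ P : k[X], P ≠ 0 → c₂ (aeval s P) = 0) →
    (∀ a ∈ A, a ≠ 0 → c₁ a ≤ 0) → (∃ a ∈ A, a ≠ 0 ∧ c₁ a < 0) →
    ((∃ y, y ≠ 0 ∧ 0 ≤ c₁ y ∧ c₂ y < 0) → ∀ a ∈ A, 0 ≤ c₂ a) ∧
    ∃ ρ : ℝ, 0 < ρ ∧ ∀ a ∈ A, a ≠ 0 → c₁ a + ρ * c₂ a ≤ 0

end Pool.Agent.F2RF
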