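import Pool.Agent.Lib.MP_305fdd_al.F2.ChDefs

/-!
# MP_305fdd_al, F_2 project, section RF (log type, places of function fields): definitions

Part W0: maps of log type are independent of the `p`-basis and pass to residue fields.
Part WU: places of a field `L` of transcendence degree one over `F`: a subring with the single pole
`c₁`, and the inequality between the orders at `c₁` and at another place.
-/

set_option autoImplicit false

namespace Pool.Agent.F2RF

open Polynomial Pool.Agent.F2Ch

/-! ## Part W0 -/

/-- `t` is a monomial `p`-basis of `K` (the monomials with exponents in `[0, p)` are a basis over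
`K ^ p`) with the coordinates `π`. -/
structure MB (p : ℕ) {K : Type} [Field K] {d : ℕ} (t : Fin d → K) (π : (Fin d → Fin p) → K → K) :
    Prop where
  ne : ∀ i, t i ≠ 0
  pb : IsPB p (monY (p := p) t) π

/-- `φ` is of log type: `φ f = g⁻¹ * π_0 (g * f)` for some monomial `p`-basis and some `g ≠ 0`. -/
def LogTy (p : ℕ) [NeZero p] {K : Type} [Field K] (φ : K → K) : Prop :=
  ∃ (d : ℕ) (t : Fin d → K) (π : (Fin d → Fin p) → K → K) (g : K), MB p t π ∧ g ≠ 0 ∧
    ∀ f, φ f = g⁻¹ * π j0 (g * f)

/-- the derivation `t i * ∂ / ∂ t i` -/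
noncomputable def der (p : ℕ) {K : Type} [Field K] {d : ℕ} (t : Fin d → K)
    (π : (Fin d → Fin p) → K → K) (i : Fin d) (f : K) : K :=
  ∑ a, ((a i : ℕ) : K) * (π a f ^ p * monY (p := p) t a)

open Classical in
/-- the part of `f` with exponent `0` at `t i` -/
noncomputable def prj (p : ℕ) [NeZero p] {K : Type} [Field K] {d : ℕ} (t : Fin d → K)
    (π : (Fin d → Fin p) → K → K) (i : Fin d) (f : K) : K :=
  ∑ a, if (a i : ℕ) = 0 then π a f ^ p * monY (p := p) t a else 0

/-! ## Part WU -/

section
variable {F L : Type} [Field F] [Field L] [Algebra F L]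

/-- a normalised discrete valuation of `L`, trivial on `F` -/
structure Plc (F : Type) {L : Type} [Field F] [Field L] [Algebra F L] (c : L → ℤ) : Prop where
  isv : IsV c
  triv : Triv F c
  unif : ∃ π, π ≠ 0 ∧ c π = 1

/-- the residues of the `a i` at `c` are linearly independent over `F` -/
def ResInd (F : Type) {L : Type} [Field F] [Field L] [Algebra F L] (c : L → ℤ) {n : ℕ}
    (a : Fin n → L) : Prop :=
  ∀ s : Fin n → F, s ≠ 0 → (∑ i, algebraMap F L (s i) * a i) ≠ 0 ∧
    c (∑ i, algebraMap F L (s i) * a i) = 0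

/-- the degree of the residue field of `c` over `F` is `f` -/
def ResDeg (F : Type) {L : Type} [Field F] [Field L] [Algebra F L] (c : L → ℤ) (f : ℕ) : Prop :=
  (∃ a : Fin f → L, ResInd F c a) ∧ ∀ b : Fin (f + 1) → L, ¬ ResInd F c b

/-- the `b i` are linearly independent over `F(x)` (`x` transcendental over `F`) -/
def XInd (F : Type) {L : Type} [Field F] [Field L] [Algebra F L] (x : L) {ι : Type} [Fintype ι]
    (b : ι → L) : Prop :=
  ∀ P : ι → F[X], ∑ i, aeval x (P i) * b i = 0 → P = 0

/-- the degree of `L` over `F(x)` is `d` (`x` transcendental over `F`) -/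
def XDeg (F : Type) {L : Type} [Field F] [Field L] [Algebra F L] (x : L) (d : ℕ) : Prop :=
  (∃ b : Fin d → L, XInd F x b) ∧ ∀ b : Fin (d + 1) → L, ¬ XInd F x b

/-- `L` is a field of transcendence degree one over `F`, finitely generated, in the form which is used:
every transcendental `x` has finite degree -/
def FF1 (F L : Type) [Field F] [Field L] [Algebra F L] : Prop :=
  ∀ x : L, Transcendental F x → ∃ d, XDeg F x d

/-- `L` is the fraction field of `A` -/
def FracOf {F L : Type} [Field F] [Field L] [Algebra F L] (A : Subalgebra F L) : Prop :=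
  ∀ x : L, ∃ a ∈ A, ∃ b ∈ A, b ≠ 0 ∧ x * b = a

/-- `c₁` is nonpositive on `A - 0` and has a pole on `A` -/
structure Pole {F L : Type} [Field F] [Field L] [Algebra F L] (A : Subalgebra F L) (c : L → ℤ) :
    Prop where
  le : ∀ a ∈ A, a ≠ 0 → c a ≤ 0
  neg : ∃ a ∈ A, a ≠ 0 ∧ c a < 0

end

end Pool.Agent.F2RF
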