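import Pool.Agent.Lib.MP_305fdd_al.F2.RF.Stm

/-!
# MP_305fdd_al, F_2 project, section RF: piece [F2RF U8]
-/

set_option autoImplicit false

namespace Pool.Agent.F2RF

open Polynomial Pool.Agent.F2Ch

theorem p_U8 (hU1 : S_U1) (hU4 : S_U4) (hU5 : S_U5) (hU6 : S_U6) : S_U8 := by
  intro F L _ _ _ hFF A hA c₁ c₂ hc₁ hc₂ halg hne x hx
  by_contra hcon
  push Not at hcon
  have hx0 : x ≠ 0 := by
    intro h
    rw [h, hc₂.isv.zero] at hcon
    exact lt_irrefl _ hcon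
  have htr : Transcendental F x := fun h => by
    rw [(hU1 F L).2 ℤ c₂ hc₂.isv hc₂.triv x h] at hcon
    exact lt_irrefl _ hcon
  have hc₁x : c₁ x < 0 := by
    by_contra h
    push Not at h
    exact htr (halg x hx hx0 h)
  obtain ⟨e, he⟩ : ∃ e : ℕ, c₁ x = -(e : ℤ) := ⟨(-c₁ x).toNat, by omega⟩
  have he0 : 0 < e := by omega
  obtain ⟨d, hd⟩ := hFF x htr
  obtain ⟨h1, f, hf0, hf⟩ := hU5 F L c₁ hc₁ x e d he0 hx0 he hd
  have h2 := hU4 F L A hA c₁ hc₁ halg x e f d hx htr he hf hd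
  have h3 : d = e * f := le_antisymm h2 (h1 f hf)
  rw [h3] at hd
  exact hne (hU6 F L c₁ c₂ hc₁ hc₂ x e f he0 hx0 he hf hd hcon)

end Pool.Agent.F2RF
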