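import Pool.Agent.Lib.MP_305fdd_al.F2.RF.Stm
import Pool.Agent.Lib.MP_305fdd_al.F2.ChStm

/-!
# MP_305fdd_al, F_2 project, section RF: piece W4 (log type does not depend on the p-basis)
-/

set_option autoImplicit false

namespace Pool.Agent.F2RF

open Polynomial Pool.Agent.F2Ch

private theorem w4_card (hB1 : S_B1) {p : ℕ} [hp : Fact p.Prime] {K : Type} [Field K]
    [CharP K p] {d d' : ℕ} {t : Fin d → K} {t' : Fin d' → K} {π : (Fin d → Fin p) → K → K}
    {π' : (Fin d' → Fin p) → K → K} (h : MB p t π) (h' : MB p t' π') : d' ≤ d := by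
  have h1 := (hB1 p K (Fin d → Fin p) _ π h.pb (Fin d' → Fin p) (monY (p := p) t') (by
    intro a ha
    funext j
    have h2 := h'.pb.uniq a j
    rw [ha] at h2
    have h3 := h'.pb.uniq (fun _ => 0) j
    simp only [zero_pow hp.out.ne_zero, zero_mul, Finset.sum_const_zero] at h3
    rw [← h2, h3]
    rfl)).1
  simp only [Fintype.card_fun, Fintype.card_fin] at h1
  exact (Nat.pow_le_pow_iff_right hp.out.one_lt).1 h1

theorem p_W4 (hW3 : S_W3) (hB1 : S_B1) : S_W4 := by
  intro p hp K _ _ φ hφ d t π ht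
  obtain ⟨d0, t0, π0, g, h0, hg, hf⟩ := hφ
  have hd : d0 = d := le_antisymm (w4_card hB1 ht h0) (w4_card hB1 h0 ht)
  subst hd
  obtain ⟨J, hJ, h1⟩ := hW3 p K d0 t t0 π π0 ht h0
  refine ⟨J * g, mul_ne_zero hJ hg, fun f => ?_⟩
  rw [hf f, h1 (g * f), mul_inv, mul_assoc J g f]
  ring

end Pool.Agent.F2RF
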